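import Mathlib

/-!
# Subexponential rapid decay (MP_fee02f_an, Theorem A): definitions

* `OpBd E L`: the convolution operators of functions supported in `E` have norm at most
  `L ‖f‖₂` (in the form of a trilinear inequality for nonnegative functions).
* `Geo Γ Y`: a free `Γ`-set `Y` with a size function `d`, a potential `Φ` and midpoints.
* `Loc`: covers of `Γ` by sets of linear diameter and polynomial multiplicity.
* `MGeo G`: the same for an abstract group `G` (`GL_n` over a local field, and products).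
-/

set_option autoImplicit false

namespace SubExp

/-- the `ℓ²` norm of a finitely supported real function -/
noncomputable def n2 {α : Type*} (f : α →₀ ℝ) : ℝ := Real.sqrt (f.sum fun _ u => u ^ 2)

/-- the trilinear form `∑ f(a) g(b) h(a b)` -/
noncomputable def tri {Γ : Type*} [Group Γ] (f g h : Γ →₀ ℝ) : ℝ :=
  f.sum fun a u => g.sum fun b v => u * v * h (a * b)

/-- left convolution by functions supported in `E` has norm at most `L ‖f‖₂`, for nonnegative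
functions -/
def OpBd {Γ : Type*} [Group Γ] (E : Finset Γ) (L : ℝ) : Prop :=
  ∀ f g h : Γ →₀ ℝ, (∀ a, 0 ≤ f a) → (∀ a, 0 ≤ g a) → (∀ a, 0 ≤ h a) → f.support ⊆ E →
    tri f g h ≤ L * n2 f * n2 g * n2 h

/-- a free `Γ`-set with a size function of exponential growth, a potential and midpoints -/
structure Geo (Γ Y : Type*) [Group Γ] [MulAction Γ Y] where
  C : ℝ
  one_le : 1 ≤ C
  free : ∀ (g : Γ) (y : Y), g • y = y → g = 1
  d : Y → Y → ℝ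
  d_nonneg : ∀ a b, 0 ≤ d a b
  d_inv : ∀ (g : Γ) (a b : Y), d (g • a) (g • b) = d a b
  d_growth : ∀ (a : Y) (s : Finset Y), ∑ b ∈ s, Real.exp (-(C * d a b)) ≤ C
  Φ : Y → Γ → ℝ
  Φ_nonneg : ∀ a x, 0 ≤ Φ a x
  Φ_inv : ∀ (g : Γ) (a : Y) (x : Γ), Φ (g • a) (g * x) = Φ a x
  Φ_growth : ∀ (x : Γ) (s : Finset Y), ∑ b ∈ s, Real.exp (-(C * Real.sqrt (Φ b x))) ≤ C
  mid : Y → Y → Y
  mid_smul : ∀ (g : Γ) (a b : Y), mid (g • a) (g • b) = g • mid a b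
  mid_le : ∀ (a b : Y) (x : Γ), 2 * Φ (mid a b) x + d a b ^ 2 / C ≤
    Φ a x + Φ b x + C * (1 + Real.sqrt (Φ a x) + Real.sqrt (Φ b x))

/-- localisation: for every `n` a cover of `Γ` by sets `U p`, `p ∈ Y`, which are close to `p`, such
that points which differ by an element of `E n` lie in a common set, with polynomial multiplicity;
the sets `E n` grow at most exponentially -/
def Loc {Γ Y : Type*} [Group Γ] [MulAction Γ Y] (G : Geo Γ Y) (E : ℕ → Finset Γ) : Prop :=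
  ∃ C : ℝ, 1 ≤ C ∧ (∀ n, ((E n).card : ℝ) ≤ Real.exp (C * (n + 1))) ∧
    ∀ n : ℕ, 1 ≤ n → ∃ U : Y → Set Γ,
      (∀ p, ∀ x ∈ U p, G.Φ p x ≤ C * n ^ 2) ∧
      (∀ x y : Γ, x⁻¹ * y ∈ E n → ∃ p, x ∈ U p ∧ y ∈ U p) ∧
      (∀ x : Γ, {p | x ∈ U p}.Finite ∧ ({p | x ∈ U p}.ncard : ℝ) ≤ C * (n : ℝ) ^ C)

/-- the loss in Theorem A -/
noncomputable def loss (C : ℝ) (n : ℕ) : ℝ :=
  Real.exp (C * n * Real.sqrt (Real.log (Real.log n) / Real.log n))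

/-- THE INTERFACE between the abstract part and the geometric part -/
def Core.{u, v} : Prop :=
  ∀ (Γ : Type u) (Y : Type v) [Group Γ] [MulAction Γ Y] (G : Geo Γ Y) (E : ℕ → Finset Γ),
    Loc G E → ∃ C : ℝ, 0 ≤ C ∧ ∀ n : ℕ, 3 ≤ n → OpBd (E n) (loss C n)

/-- a group with a length function, exponentially many translates of a ball covering a ball, a
potential, midpoints and localisation; all up to bounded errors -/
structure MGeo (G : Type*) [Group G] where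
  C : ℝ
  one_le : 1 ≤ C
  ℓ : G → ℝ
  nonneg : ∀ g, 0 ≤ ℓ g
  inv : ∀ g, ℓ g⁻¹ = ℓ g
  mul_le : ∀ g h, ℓ (g * h) ≤ ℓ g + ℓ h
  cover : ∀ R : ℝ, 0 ≤ R → ∃ X : Finset G, (X.card : ℝ) ≤ Real.exp (C * (R + 1)) ∧
    ∀ g, ℓ g ≤ R → ∃ x ∈ X, ℓ (x⁻¹ * g) ≤ C
  Φ : G → ℝ
  Φ_nonneg : ∀ g, 0 ≤ Φ g
  Φ_le : ∀ g, Φ g ≤ C * (1 + ℓ g) ^ 2
  le_Φ : ∀ g, ℓ g ≤ C * (1 + Real.sqrt (Φ g))
  Φ_mul : ∀ k g, Φ (k * g) ≤ Φ g + C * (1 + ℓ k) ^ 2 * (1 + ℓ g)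
  m : G → G
  mid : ∀ c x, 2 * Φ ((m c)⁻¹ * x) + ℓ c ^ 2 / C ≤ Φ x + Φ (c⁻¹ * x) + C * (1 + ℓ x + ℓ c)
  loc : ∀ n : ℕ, 1 ≤ n → ∃ S : G → Finset G, (∀ x, ((S x).card : ℝ) ≤ C * (n : ℝ) ^ C) ∧
    (∀ x, ∀ s ∈ S x, ℓ (s⁻¹ * x) ≤ C * n) ∧
    ∀ x y, ℓ (x⁻¹ * y) ≤ n → ∃ s ∈ S x, ∃ t ∈ S y, ℓ (s⁻¹ * t) ≤ C

end SubExp
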