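import Pool.Agent.Lib.MP_fee02f_an.SX.Ent

/-!
Plain entropy, basics.

Everything is a finite sum. `same_sum`: both sides are the sum over `b` in the union of the two
images of `pr p X b * g b`; `same_comp` and `same_ent` are instances of `same_sum`.
-/

open scoped BigOperators

namespace SubExp

variable {Ω Ω' : Type*} [Fintype Ω] [Fintype Ω'] {β β' : Type*}

theorem pr_nonneg {p : Ω → ℝ} (hp : IsP p) (X : Ω → β) (b : β) : 0 ≤ pr p X b := by
  classical
  unfold pr
  refine Finset.sum_nonneg fun o _ => ?_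
  split_ifs
  · exact (hp.pos o).le
  · exact le_refl _

theorem pr_pos {p : Ω → ℝ} (hp : IsP p) (X : Ω → β) (o : Ω) : 0 < pr p X (X o) := by
  classical
  unfold pr
  refine Finset.sum_pos' (fun o' _ => ?_) ⟨o, Finset.mem_univ _, ?_⟩
  · split_ifs
    · exact (hp.pos o').le
    · exact le_refl _
  · rw [if_pos rfl]
    exact hp.pos o

theorem pr_le_one {p : Ω → ℝ} (hp : IsP p) (X : Ω → β) (b : β) : pr p X b ≤ 1 := by
  classical
  unfold pr
  rw [← hp.sum_one]
  refine Finset.sum_le_sum fun o _ => ?_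
  split_ifs
  · exact le_refl _
  · exact (hp.pos o).le

/-- the events `X = X o` and `Y = Y o'` -/
theorem pr_le_pr {p : Ω → ℝ} (hp : IsP p) (X : Ω → β) (Y : Ω → β')
    (h : ∀ o o', X o = X o' → Y o = Y o') (o : Ω) : pr p X (X o) ≤ pr p Y (Y o) := by
  classical
  unfold pr
  refine Finset.sum_le_sum fun o' _ => ?_
  by_cases h1 : X o' = X o
  · rw [if_pos h1, if_pos (h _ _ h1)]
  · rw [if_neg h1]
    split_ifs
    · exact (hp.pos o').le
    · exact le_refl _

theorem ent_nonneg {p : Ω → ℝ} (hp : IsP p) (X : Ω → β) : 0 ≤ ent p X := by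
  unfold ent
  refine Finset.sum_nonneg fun o _ => ?_
  refine mul_nonneg (hp.pos o).le ?_
  have := Real.log_nonpos (pr_nonneg hp X (X o)) (pr_le_one hp X (X o))
  linarith

theorem ent_mono {p : Ω → ℝ} (hp : IsP p) (X : Ω → β) (Y : Ω → β')
    (h : ∀ o o', X o = X o' → Y o = Y o') : ent p Y ≤ ent p X := by
  unfold ent
  refine Finset.sum_le_sum fun o _ => ?_
  refine mul_le_mul_of_nonneg_left ?_ (hp.pos o).le
  have := Real.log_le_log (pr_pos hp X o) (pr_le_pr hp X Y h o)
  linarith

/-- expansion of an expectation along the values of `X` -/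
theorem E01_expand (p : Ω → ℝ) (X : Ω → β) (S : Finset β) (hS : ∀ o, X o ∈ S) (g : β → ℝ) :
    ∑ o, p o * g (X o) = ∑ b ∈ S, pr p X b * g b := by
  classical
  unfold pr
  simp_rw [Finset.sum_mul]
  rw [Finset.sum_comm]
  refine Finset.sum_congr rfl fun o _ => ?_
  rw [Finset.sum_eq_single (X o)]
  · rw [if_pos rfl]
  · intro b _ hb
    rw [if_neg (fun h => hb h.symm), zero_mul]
  · intro h
    exact absurd (hS o) h

theorem same_sum (p : Ω → ℝ) (X : Ω → β) (p' : Ω' → ℝ) (X' : Ω' → β)
    (h : ∀ b, pr p X b = pr p' X' b) (g : β → ℝ) :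
    ∑ o, p o * g (X o) = ∑ o, p' o * g (X' o) := by
  classical
  have h1 := E01_expand p X (Finset.univ.image X ∪ Finset.univ.image X')
    (fun o => Finset.mem_union_left _ (Finset.mem_image_of_mem _ (Finset.mem_univ _))) g
  have h2 := E01_expand p' X' (Finset.univ.image X ∪ Finset.univ.image X')
    (fun o => Finset.mem_union_right _ (Finset.mem_image_of_mem _ (Finset.mem_univ _))) g
  rw [h1, h2]
  exact Finset.sum_congr rfl fun b _ => by rw [h b]

theorem same_comp (p : Ω → ℝ) (X : Ω → β) (p' : Ω' → ℝ) (X' : Ω' → β)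
    (h : ∀ b, pr p X b = pr p' X' b) (f : β → β') (c : β') :
    pr p (fun o => f (X o)) c = pr p' (fun o => f (X' o)) c := by
  classical
  have h1 := same_sum p X p' X' h (fun b => if f b = c then 1 else 0)
  unfold pr
  simpa using h1

theorem same_ent (p : Ω → ℝ) (X : Ω → β) (p' : Ω' → ℝ) (X' : Ω' → β)
    (h : ∀ b, pr p X b = pr p' X' b) : ent p X = ent p' X' := by
  unfold ent
  have h1 := same_sum p X p' X' h (fun b => -Real.log (pr p X b))
  rw [h1]
  exact Finset.sum_congr rfl fun o _ => by simp only [h]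

/-- every value of `X` is a value of `X'` -/
theorem same_exists {p : Ω → ℝ} (hp : IsP p) (X : Ω → β) (p' : Ω' → ℝ) (X' : Ω' → β)
    (h : ∀ b, pr p X b = pr p' X' b) (o : Ω) : ∃ o', X' o' = X o := by
  classical
  by_contra hne
  push Not at hne
  have h1 := pr_pos hp X o
  rw [h (X o)] at h1
  have h2 : pr p' X' (X o) = 0 := by
    unfold pr
    refine Finset.sum_eq_zero fun o' _ => ?_
    rw [if_neg (hne o')]
  rw [h2] at h1
  exact lt_irrefl _ h1

end SubExp
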