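import Pool.Agent.Lib.MP_fee02f_an.SX.E01

/-!
Submodularity of Shannon entropy.

`ent X + ent Y - ent (X, Y) - ent Z = ∑ p o * -log (g o)` with
`g o = pr X (X o) * pr Y (Y o) / (pr (X, Y) (X o, Y o) * pr Z (Z o))`, and `-log t ≥ 1 - t`, so it
suffices that `∑ p o * g o ≤ 1`. Expand `pr X` and `pr Y` as sums over `o1`, `o2`: the sum is
`∑ o1 o2, p o1 * p o2 * ∑ o, p o * [X o = X o1] * [Y o = Y o2] / (pr (X,Y) * pr Z)`; the inner sum is
at most `[Z o1 = Z o2] / pr Z (Z o1)` (it is over the `o` with `(X, Y) o = (X o1, Y o2)`, and then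
`Z o = Z o1 = Z o2`), and `∑ o2, p o2 * [Z o1 = Z o2] / pr Z (Z o1) = 1`, `∑ o1, p o1 = 1`.
-/

open scoped BigOperators

namespace SubExp

variable {Ω : Type*} [Fintype Ω] {β β' ζ : Type*}

open Classical in
/-- the inner sum -/
theorem E02_inner {p : Ω → ℝ} (hp : IsP p) (X : Ω → β) (Y : Ω → β') (Z : Ω → ζ)
    (hX : ∀ o o', X o = X o' → Z o = Z o') (hY : ∀ o o', Y o = Y o' → Z o = Z o') (o1 o2 : Ω) :
    (∑ o, if X o1 = X o ∧ Y o2 = Y o then
        p o / (pr p (fun o => (X o, Y o)) (X o, Y o) * pr p Z (Z o)) else 0)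
      ≤ if Z o2 = Z o1 then 1 / pr p Z (Z o1) else 0 := by
  by_cases hex : ∃ o, X o1 = X o ∧ Y o2 = Y o
  · obtain ⟨o0, h1, h2⟩ := hex
    have hz1 : Z o1 = Z o0 := hX _ _ h1
    have hz2 : Z o2 = Z o0 := hY _ _ h2
    rw [if_pos (hz2.trans hz1.symm)]
    have hP := pr_pos hp (fun o => (X o, Y o)) o0
    have hQ := pr_pos hp Z o1
    have hterm : ∀ o, (if X o1 = X o ∧ Y o2 = Y o then
        p o / (pr p (fun o => (X o, Y o)) (X o, Y o) * pr p Z (Z o)) else 0)
        = (if (X o, Y o) = (X o0, Y o0) then p o else 0) *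
          (1 / (pr p (fun o => (X o, Y o)) (X o0, Y o0) * pr p Z (Z o1))) := by
      intro o
      by_cases ho : X o1 = X o ∧ Y o2 = Y o
      · have e1 : X o = X o0 := ho.1.symm.trans h1
        have e2 : Y o = Y o0 := ho.2.symm.trans h2
        have e3 : Z o = Z o1 := (hX _ _ ho.1).symm
        rw [if_pos ho, if_pos (by rw [e1, e2]), e1, e2, e3]
        ring
      · rw [if_neg ho, if_neg, zero_mul]
        intro h
        rw [Prod.mk.injEq] at h
        exact ho ⟨h1.trans h.1.symm, h2.trans h.2.symm⟩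
    rw [Finset.sum_congr rfl fun o _ => hterm o, ← Finset.sum_mul]
    have hsum : (∑ o, if (X o, Y o) = (X o0, Y o0) then p o else 0)
        = pr p (fun o => (X o, Y o)) (X o0, Y o0) := by
      unfold pr
      refine Finset.sum_congr rfl fun o _ => ?_
      by_cases h : (X o, Y o) = (X o0, Y o0)
      · rw [if_pos h, if_pos h]
      · rw [if_neg h, if_neg h]
    rw [hsum]
    apply le_of_eq
    field_simp
  · push Not at hex
    rw [Finset.sum_eq_zero]
    · split_ifs
      · exact (one_div_pos.mpr (pr_pos hp Z o1)).le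
      · exact le_refl _
    · intro o _
      rw [if_neg]
      rintro ⟨h1, h2⟩
      exact hex o h1 h2

/-- the sum of the ratios is at most one -/
theorem E02_ratio {p : Ω → ℝ} (hp : IsP p) (X : Ω → β) (Y : Ω → β') (Z : Ω → ζ)
    (hX : ∀ o o', X o = X o' → Z o = Z o') (hY : ∀ o o', Y o = Y o' → Z o = Z o') :
    ∑ o, p o * (pr p X (X o) * pr p Y (Y o) /
      (pr p (fun o => (X o, Y o)) (X o, Y o) * pr p Z (Z o))) ≤ 1 := by
  classical
  have h1 : ∀ o, p o * (pr p X (X o) * pr p Y (Y o) /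
      (pr p (fun o => (X o, Y o)) (X o, Y o) * pr p Z (Z o)))
      = ∑ o1, ∑ o2, p o1 * (p o2 * (if X o1 = X o ∧ Y o2 = Y o then
        p o / (pr p (fun o => (X o, Y o)) (X o, Y o) * pr p Z (Z o)) else 0)) := by
    intro o
    have hx : pr p X (X o) = ∑ o1, if X o1 = X o then p o1 else 0 := by
      unfold pr
      rfl
    have hy : pr p Y (Y o) = ∑ o2, if Y o2 = Y o then p o2 else 0 := by
      unfold pr
      rfl
    have hrew : p o * (pr p X (X o) * pr p Y (Y o) /
      (pr p (fun o => (X o, Y o)) (X o, Y o) * pr p Z (Z o)))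
      = (pr p X (X o) * pr p Y (Y o)) * (p o /
      (pr p (fun o => (X o, Y o)) (X o, Y o) * pr p Z (Z o))) := by ring
    rw [hrew, hx, hy, Finset.sum_mul_sum, Finset.sum_mul]
    refine Finset.sum_congr rfl fun o1 _ => ?_
    rw [Finset.sum_mul]
    refine Finset.sum_congr rfl fun o2 _ => ?_
    by_cases a : X o1 = X o
    · by_cases b : Y o2 = Y o
      · rw [if_pos a, if_pos b, if_pos ⟨a, b⟩]
        ring
      · have c : ¬ (X o1 = X o ∧ Y o2 = Y o) := fun h => b h.2
        rw [if_neg b, if_neg c]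
        ring
    · have c : ¬ (X o1 = X o ∧ Y o2 = Y o) := fun h => a h.1
      rw [if_neg a, if_neg c]
      ring
  rw [Finset.sum_congr rfl fun o _ => h1 o, Finset.sum_comm]
  have h2 : ∀ o1, ∑ o, ∑ o2, p o1 * (p o2 * (if X o1 = X o ∧ Y o2 = Y o then
        p o / (pr p (fun o => (X o, Y o)) (X o, Y o) * pr p Z (Z o)) else 0)) ≤ p o1 := by
    intro o1
    rw [Finset.sum_comm]
    have h3 : ∀ o2, ∑ o, p o1 * (p o2 * (if X o1 = X o ∧ Y o2 = Y o then
        p o / (pr p (fun o => (X o, Y o)) (X o, Y o) * pr p Z (Z o)) else 0))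
        ≤ (if Z o2 = Z o1 then p o2 else 0) * (p o1 * (1 / pr p Z (Z o1))) := by
      intro o2
      rw [← Finset.mul_sum, ← Finset.mul_sum]
      have h4 := E02_inner hp X Y Z hX hY o1 o2
      have h5 := mul_le_mul_of_nonneg_left (mul_le_mul_of_nonneg_left h4 (hp.pos o2).le)
        (hp.pos o1).le
      refine h5.trans (le_of_eq ?_)
      split_ifs
      · ring
      · ring
    refine (Finset.sum_le_sum fun o2 _ => h3 o2).trans (le_of_eq ?_)
    rw [← Finset.sum_mul]
    have h6 : (∑ o2, if Z o2 = Z o1 then p o2 else 0) = pr p Z (Z o1) := by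
      unfold pr
      rfl
    rw [h6]
    have := pr_pos hp Z o1
    field_simp
  exact (Finset.sum_le_sum fun o1 _ => h2 o1).trans (le_of_eq hp.sum_one)

theorem ent_submod {p : Ω → ℝ} (hp : IsP p) (X : Ω → β) (Y : Ω → β') (Z : Ω → ζ)
    (hX : ∀ o o', X o = X o' → Z o = Z o') (hY : ∀ o o', Y o = Y o' → Z o = Z o') :
    ent p (fun o => (X o, Y o)) + ent p Z ≤ ent p X + ent p Y := by
  have h1 := E02_ratio hp X Y Z hX hY
  have h2 : ∀ o, p o * -Real.log (pr p (fun o => (X o, Y o)) (X o, Y o))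
      + p o * -Real.log (pr p Z (Z o)) + (p o * 1 - p o * (pr p X (X o) * pr p Y (Y o) /
      (pr p (fun o => (X o, Y o)) (X o, Y o) * pr p Z (Z o))))
      ≤ p o * -Real.log (pr p X (X o)) + p o * -Real.log (pr p Y (Y o)) := by
    intro o
    have ha := pr_pos hp X o
    have hb := pr_pos hp Y o
    have hc := pr_pos hp (fun o => (X o, Y o)) o
    have hd := pr_pos hp Z o
    have hlog := Real.log_le_sub_one_of_pos
      (div_pos (mul_pos ha hb) (mul_pos hc hd))
    rw [Real.log_div (mul_pos ha hb).ne' (mul_pos hc hd).ne', Real.log_mul ha.ne' hb.ne',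
      Real.log_mul hc.ne' hd.ne'] at hlog
    have := mul_le_mul_of_nonneg_left hlog (hp.pos o).le
    nlinarith [this]
  have h3 := Finset.sum_le_sum fun o (_ : o ∈ Finset.univ) => h2 o
  rw [Finset.sum_add_distrib, Finset.sum_add_distrib, Finset.sum_add_distrib,
    Finset.sum_sub_distrib] at h3
  have h4 : ∑ o, p o * 1 = 1 := by simpa using hp.sum_one
  unfold ent
  linarith

end SubExp
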