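import Pool.Agent.Lib.MP_fee02f_an.SX.E01

/-!
Gibbs inequality, conditional form.

`∑ p o * -log q (A o) - ent A + ent B = ∑ p o * -log (q (A o) * pr B (B o) / pr A (A o))`, and
`-log t ≥ 1 - t`; it suffices that `∑ p o * (q (A o) * pr B (B o) / pr A (A o)) ≤ 1`. Group by the
value `a` of `A` (a finite set): the sum is `∑ a, q a * pr B (f a)`, and grouping these by
`c = f a` gives `∑ c, pr B c * ∑ {a, f a = c}, q a ≤ ∑ c, pr B c = 1`.
-/

open scoped BigOperators

namespace SubExp

variable {Ω : Type*} [Fintype Ω] {β β' : Type*}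

theorem E03_sum_le {p : Ω → ℝ} (hp : IsP p) (A : Ω → β) (f : β → β') (q : β → ℝ)
    (hs : ∀ (c : β') (s : Finset β), (∀ b ∈ s, f b = c) → ∑ b ∈ s, q b ≤ 1) :
    ∑ o, p o * (q (A o) * pr p (fun o => f (A o)) (f (A o)) / pr p A (A o)) ≤ 1 := by
  classical
  have h1 := E01_expand p A (Finset.univ.image A)
    (fun o => Finset.mem_image_of_mem _ (Finset.mem_univ _))
    (fun b => q b * pr p (fun o => f (A o)) (f b) / pr p A b)
  rw [h1]
  have h2 : ∀ b ∈ Finset.univ.image A,
      pr p A b * (q b * pr p (fun o => f (A o)) (f b) / pr p A b)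
        = q b * pr p (fun o => f (A o)) (f b) := by
    intro b hb
    obtain ⟨o, -, rfl⟩ := Finset.mem_image.mp hb
    have := (pr_pos hp A o).ne'
    field_simp
  rw [Finset.sum_congr rfl h2]
  rw [← Finset.sum_fiberwise_of_maps_to (s := Finset.univ.image A)
    (t := (Finset.univ.image A).image f) (g := f) (fun b hb => Finset.mem_image_of_mem _ hb)]
  have h3 : ∀ c ∈ (Finset.univ.image A).image f,
      ∑ b ∈ Finset.univ.image A with f b = c, q b * pr p (fun o => f (A o)) (f b)
        ≤ pr p (fun o => f (A o)) c * 1 := by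
    intro c _
    have h4 : ∑ b ∈ Finset.univ.image A with f b = c, q b * pr p (fun o => f (A o)) (f b)
        = pr p (fun o => f (A o)) c * ∑ b ∈ Finset.univ.image A with f b = c, q b := by
      rw [Finset.mul_sum]
      refine Finset.sum_congr rfl fun b hb => ?_
      rw [(Finset.mem_filter.mp hb).2]
      ring
    rw [h4]
    refine mul_le_mul_of_nonneg_left ?_ (pr_nonneg hp _ _)
    exact hs c _ (fun b hb => (Finset.mem_filter.mp hb).2)
  refine (Finset.sum_le_sum h3).trans ?_
  have h5 := E01_expand p (fun o => f (A o)) ((Finset.univ.image A).image f)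
    (fun o => Finset.mem_image_of_mem _ (Finset.mem_image_of_mem _ (Finset.mem_univ _)))
    (fun _ => 1)
  rw [← h5]
  simp only [mul_one]
  exact le_of_eq hp.sum_one

theorem cond_gibbs {p : Ω → ℝ} (hp : IsP p) (A : Ω → β) (f : β → β') (q : β → ℝ)
    (hq0 : ∀ b, 0 ≤ q b) (hq : ∀ o, 0 < q (A o))
    (hs : ∀ (c : β') (s : Finset β), (∀ b ∈ s, f b = c) → ∑ b ∈ s, q b ≤ 1) :
    ent p A - ent p (fun o => f (A o)) ≤ ∑ o, p o * -Real.log (q (A o)) := by
  have h1 := E03_sum_le hp A f q hs
  have h2 : ∀ o, p o * (1 - q (A o) * pr p (fun o => f (A o)) (f (A o)) / pr p A (A o))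
      ≤ p o * -Real.log (q (A o)) - p o * -Real.log (pr p A (A o))
        + p o * -Real.log (pr p (fun o => f (A o)) (f (A o))) := by
    intro o
    have ha := pr_pos hp A o
    have hb := pr_pos hp (fun o => f (A o)) o
    have hc := hq o
    have h3 : Real.log (q (A o) * pr p (fun o => f (A o)) (f (A o)) / pr p A (A o))
        = Real.log (q (A o)) + Real.log (pr p (fun o => f (A o)) (f (A o)))
          - Real.log (pr p A (A o)) := by
      rw [Real.log_div (mul_pos hc hb).ne' ha.ne', Real.log_mul hc.ne' hb.ne']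
    have h4 := Real.log_le_sub_one_of_pos (div_pos (mul_pos hc hb) ha)
    rw [h3] at h4
    have h5 := mul_le_mul_of_nonneg_left h4 (hp.pos o).le
    nlinarith [h5]
  have h6 := Finset.sum_le_sum (fun o (_ : o ∈ Finset.univ) => h2 o)
  simp only [mul_sub, mul_one, Finset.sum_sub_distrib, Finset.sum_add_distrib, hp.sum_one] at h6
  unfold ent
  linarith

theorem gibbs {p : Ω → ℝ} (hp : IsP p) (A : Ω → β) (q : β → ℝ)
    (hq0 : ∀ b, 0 ≤ q b) (hq : ∀ o, 0 < q (A o)) (hs : ∀ s : Finset β, ∑ b ∈ s, q b ≤ 1) :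
    ent p A ≤ ∑ o, p o * -Real.log (q (A o)) := by
  have h1 := cond_gibbs hp A (fun _ => ()) q hq0 hq (fun _ s _ => hs s)
  have h2 : ent p (fun o => (fun _ : β => ()) (A o)) = 0 := by
    unfold ent
    refine Finset.sum_eq_zero fun o _ => ?_
    have h3 : pr p (fun o => (fun _ : β => ()) (A o)) () = 1 := by
      classical
      unfold pr
      simp [hp.sum_one]
    simp only at h3
    rw [h3, Real.log_one]
    simp
  linarith

end SubExp
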