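import Pool.Agent.Lib.MP_fee02f_an.SX.E01

/-!
Entropy of classes modulo `Γ`, basics.

All statements reduce to `E01` with `oc Γ (X o)` in place of `X o`, by `oc_eq`. For the maps
`f : α → β` with `f (g • a) = g • f a` use that `oc Γ (f a)` is a function of `oc Γ a`
(`Quotient.map`).
-/

open scoped BigOperators

namespace SubExp

variable (Γ : Type*) [Group Γ] {Ω Ω' Ω'' : Type*} [Fintype Ω] [Fintype Ω'] [Fintype Ω'']
variable {α β ζ : Type*} [MulAction Γ α] [MulAction Γ β] [MulAction Γ ζ]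

theorem oc_eq (a b : α) : oc Γ a = oc Γ b ↔ ∃ g : Γ, g • a = b := by
  unfold oc
  constructor
  · intro h
    have h1 : (MulAction.orbitRel Γ α) a b := Quotient.exact h
    rw [MulAction.orbitRel_apply, MulAction.mem_orbit_iff] at h1
    obtain ⟨g, hg⟩ := h1
    refine ⟨g⁻¹, ?_⟩
    rw [← hg, inv_smul_smul]
  · rintro ⟨g, hg⟩
    apply Quotient.sound
    change (MulAction.orbitRel Γ α) a b
    rw [MulAction.orbitRel_apply, MulAction.mem_orbit_iff]
    refine ⟨g⁻¹, ?_⟩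
    rw [← hg, inv_smul_smul]

theorem H_nonneg {p : Ω → ℝ} (hp : IsP p) (X : Ω → α) : 0 ≤ H Γ p X :=
  ent_nonneg hp _

theorem H_mono {p : Ω → ℝ} (hp : IsP p) {X : Ω → α} {Y : Ω → β} (h : Det Γ X Y) :
    H Γ p Y ≤ H Γ p X := by
  refine ent_mono hp _ _ ?_
  intro o o' ho
  obtain ⟨g, hg⟩ := (oc_eq Γ _ _).1 ho
  exact (oc_eq Γ _ _).2 ⟨g, h o o' g hg⟩

theorem H_congr {p : Ω → ℝ} (hp : IsP p) {X : Ω → α} {Y : Ω → β} (h : Det Γ X Y)
    (h' : Det Γ Y X) : H Γ p X = H Γ p Y :=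
  le_antisymm (H_mono Γ hp h') (H_mono Γ hp h)

theorem H_group {p : Ω → ℝ} (hp : IsP p) (x : Ω → Γ) : H Γ p x = 0 := by
  unfold H ent
  refine Finset.sum_eq_zero ?_
  intro o _
  have h1 : pr p (fun o => oc Γ (x o)) (oc Γ (x o)) = 1 := by
    unfold pr
    rw [← hp.sum_one]
    refine Finset.sum_congr rfl ?_
    intro o' _
    have h2 : oc Γ (x o') = oc Γ (x o) := by
      refine (oc_eq Γ _ _).2 ⟨x o * (x o')⁻¹, ?_⟩
      rw [smul_eq_mul, inv_mul_cancel_right]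
    rw [if_pos h2]
  rw [h1, Real.log_one, neg_zero, mul_zero]

theorem SameLaw.symm {p : Ω → ℝ} {X : Ω → α} {p' : Ω' → ℝ} {X' : Ω' → α}
    (h : SameLaw Γ p X p' X') : SameLaw Γ p' X' p X :=
  fun c => (h c).symm

theorem SameLaw.trans {p : Ω → ℝ} {X : Ω → α} {p' : Ω' → ℝ} {X' : Ω' → α} {p'' : Ω'' → ℝ}
    {X'' : Ω'' → α} (h : SameLaw Γ p X p' X') (h' : SameLaw Γ p' X' p'' X'') :
    SameLaw Γ p X p'' X'' :=
  fun c => (h c).trans (h' c)

theorem SameLaw.map {p : Ω → ℝ} {X : Ω → α} {p' : Ω' → ℝ} {X' : Ω' → α}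
    (h : SameLaw Γ p X p' X') (f : α → β) (hf : ∀ (g : Γ) a, f (g • a) = g • f a) :
    SameLaw Γ p (fun o => f (X o)) p' (fun o => f (X' o)) := by
  have hF : ∀ a b : α, oc Γ a = oc Γ b → oc Γ (f a) = oc Γ (f b) := by
    intro a b hab
    obtain ⟨g, hg⟩ := (oc_eq Γ _ _).1 hab
    exact (oc_eq Γ _ _).2 ⟨g, by rw [← hf, hg]⟩
  let F : Quotient (MulAction.orbitRel Γ α) → Quotient (MulAction.orbitRel Γ β) :=
    Quotient.lift (fun a => oc Γ (f a)) (fun a b hab => hF a b (Quotient.sound hab))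
  intro c
  exact same_comp p (fun o => oc Γ (X o)) p' (fun o => oc Γ (X' o)) h F c

theorem SameLaw.H_eq {p : Ω → ℝ} {X : Ω → α} {p' : Ω' → ℝ} {X' : Ω' → α}
    (h : SameLaw Γ p X p' X') : H Γ p X = H Γ p' X' :=
  same_ent p _ p' _ h

/-- expectations of invariant functions agree -/
theorem SameLaw.sum_eq {p : Ω → ℝ} {X : Ω → α} {p' : Ω' → ℝ} {X' : Ω' → α}
    (h : SameLaw Γ p X p' X') (f : α → ℝ) (hf : ∀ (g : Γ) a, f (g • a) = f a) :
    ∑ o, p o * f (X o) = ∑ o, p' o * f (X' o) := by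
  have hF : ∀ a b : α, oc Γ a = oc Γ b → f a = f b := by
    intro a b hab
    obtain ⟨g, hg⟩ := (oc_eq Γ _ _).1 hab
    rw [← hg, hf]
  let F : Quotient (MulAction.orbitRel Γ α) → ℝ :=
    Quotient.lift f (fun a b hab => hF a b (Quotient.sound hab))
  exact same_sum p (fun o => oc Γ (X o)) p' (fun o => oc Γ (X' o)) h F

/-- invariant properties are inherited -/
theorem SameLaw.prop {p : Ω → ℝ} (hp : IsP p) {X : Ω → α} {p' : Ω' → ℝ} {X' : Ω' → α}
    (h : SameLaw Γ p X p' X') (P : α → Prop) (hP : ∀ (g : Γ) a, P a → P (g • a))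
    (hX : ∀ o, P (X' o)) (o : Ω) : P (X o) := by
  obtain ⟨o', ho'⟩ := same_exists hp (fun o => oc Γ (X o)) p' (fun o => oc Γ (X' o)) h o
  obtain ⟨g, hg⟩ := (oc_eq Γ _ _).1 ho'
  rw [← hg]
  exact hP g _ (hX o')

/-- equal pointwise implies equal laws -/
theorem SameLaw.of_eq (p : Ω → ℝ) {X X' : Ω → α} (h : ∀ o, X o = X' o) :
    SameLaw Γ p X p X' := by
  have h1 : X = X' := funext h
  rw [h1]
  intro c
  rfl

end SubExp
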