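import Pool.Agent.Lib.MP_fee02f_an.SX.E04

/-!
Gluing of two laws along a common part (conditionally independent copies).

Take `Ω'' = {a : Ω × Ω' // oc Γ (Z a.1) = oc Γ (Z' a.2)}` with the weights
`p a.1 * p' a.2 / pr p (oc ∘ Z) (oc Γ (Z a.1))` (positive, of sum one), `X'' a = X a.1`,
`Z'' a = Z a.1` and `Y'' a = g • Y a.2`, where `g • Z' a.2 = Z a.1` (`oc_eq`, choice). The class of
`(Y'' a, Z'' a) = g • (Y a.2, Z' a.2)` is that of `(Y, Z') a.2`. By freeness of `ζ` the class of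
`(X'', Y'', Z'')` determines and is determined by the classes of `(X, Z) a.1`, `(Y, Z') a.2`, and the
weight of the pair `(b, c)` of classes is `pr (X,Z) b * pr (Y,Z') c / pr Z (image)`, whence `CI`.
-/

open scoped BigOperators

namespace SubExp

universe u

section GluePlain

variable {Ω Ω' : Type*} [Fintype Ω] [Fintype Ω'] {β β' γ : Type*}

/-- the weights of the glued law -/
noncomputable def glue_q (p : Ω → ℝ) (p' : Ω' → ℝ) (C : Ω → γ) (C' : Ω' → γ)
    (a : {a : Ω × Ω' // C a.1 = C' a.2}) : ℝ :=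
  p a.1.1 * p' a.1.2 / pr p C (C a.1.1)

open Classical in
theorem glue_sum (C : Ω → γ) (C' : Ω' → γ) (inst : Fintype {a : Ω × Ω' // C a.1 = C' a.2})
    (f : Ω → Ω' → ℝ) :
    ∑ a : {a : Ω × Ω' // C a.1 = C' a.2}, f a.1.1 a.1.2 =
      ∑ o, ∑ o', if C o = C' o' then f o o' else 0 := by
  rw [← Fintype.sum_prod_type' (fun o o' => if C o = C' o' then f o o' else 0)]
  rw [← Finset.sum_filter]
  exact (Finset.sum_subtype _ (by simp) (fun a : Ω × Ω' => f a.1 a.2)).symm

open Classical in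
/-- summation over the second factor -/
theorem glue_snd {p : Ω → ℝ} {p' : Ω' → ℝ} (hp : IsP p) (C : Ω → γ) (C' : Ω' → γ)
    (h : ∀ c, pr p C c = pr p' C' c) (o : Ω) :
    ∑ o', (if C o = C' o' then p o * p' o' / pr p C (C o) else 0) = p o := by
  have h1 : ∀ o', (if C o = C' o' then p o * p' o' / pr p C (C o) else 0) =
      p o / pr p C (C o) * (if C' o' = C o then p' o' else 0) := by
    intro o'
    by_cases hc : C o = C' o'
    · rw [if_pos hc, if_pos hc.symm]
      ring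
    · rw [if_neg hc, if_neg (fun h => hc h.symm), mul_zero]
  rw [Finset.sum_congr rfl fun o' _ => h1 o', ← Finset.mul_sum]
  have h2 : ∑ o', (if C' o' = C o then p' o' else 0) = pr p' C' (C o) := rfl
  rw [h2, ← h, div_mul_cancel₀ _ (pr_pos hp C o).ne']

open Classical in
/-- summation over the first factor -/
theorem glue_fst {p : Ω → ℝ} {p' : Ω' → ℝ} (hp' : IsP p') (C : Ω → γ) (C' : Ω' → γ)
    (h : ∀ c, pr p C c = pr p' C' c) (o' : Ω') :
    ∑ o, (if C o = C' o' then p o * p' o' / pr p C (C o) else 0) = p' o' := by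
  have h1 : ∀ o, (if C o = C' o' then p o * p' o' / pr p C (C o) else 0) =
      p' o' / pr p C (C' o') * (if C o = C' o' then p o else 0) := by
    intro o
    by_cases hc : C o = C' o'
    · rw [if_pos hc, if_pos hc, hc]
      ring
    · rw [if_neg hc, if_neg hc, mul_zero]
  rw [Finset.sum_congr rfl fun o _ => h1 o, ← Finset.mul_sum]
  have h2 : ∑ o, (if C o = C' o' then p o else 0) = pr p C (C' o') := rfl
  rw [h2, div_mul_cancel₀]
  rw [h]
  exact (pr_pos hp' C' o').ne'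

theorem glue_isP {p : Ω → ℝ} {p' : Ω' → ℝ} (hp : IsP p) (hp' : IsP p') (C : Ω → γ) (C' : Ω' → γ)
    (h : ∀ c, pr p C c = pr p' C' c) (inst : Fintype {a : Ω × Ω' // C a.1 = C' a.2}) :
    IsP (glue_q p p' C C') := by
  classical
  refine ⟨fun a => ?_, ?_⟩
  · exact div_pos (mul_pos (hp.pos _) (hp'.pos _)) (pr_pos hp C _)
  · have h1 := glue_sum C C' inst (fun o o' => p o * p' o' / pr p C (C o))
    have h3 := h1.trans (Finset.sum_congr rfl fun o _ => glue_snd hp C C' h o)
    rw [hp.sum_one] at h3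
    exact h3

theorem glue_A {p : Ω → ℝ} {p' : Ω' → ℝ} (hp : IsP p) (C : Ω → γ) (C' : Ω' → γ)
    (h : ∀ c, pr p C c = pr p' C' c) (inst : Fintype {a : Ω × Ω' // C a.1 = C' a.2})
    (A : Ω → β) (b : β) :
    pr (glue_q p p' C C') (fun a => A a.1.1) b = pr p A b := by
  classical
  have h1 := glue_sum C C' inst
    (fun o o' => if A o = b then p o * p' o' / pr p C (C o) else 0)
  have h2 : pr (glue_q p p' C C') (fun a => A a.1.1) b =
      ∑ a : {a : Ω × Ω' // C a.1 = C' a.2},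
        if A a.1.1 = b then p a.1.1 * p' a.1.2 / pr p C (C a.1.1) else 0 := by
    unfold pr glue_q
    exact Finset.sum_congr rfl fun a _ => by congr
  rw [h2, h1]
  have h3 : pr p A b = ∑ o, if A o = b then p o else 0 := by
    unfold pr
    exact Finset.sum_congr rfl fun a _ => by congr
  rw [h3]
  refine Finset.sum_congr rfl fun o _ => ?_
  by_cases hb : A o = b
  · rw [if_pos hb]
    refine Eq.trans (Finset.sum_congr rfl fun o' _ => ?_) (glue_snd hp C C' h o)
    rw [if_pos hb]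
  · rw [if_neg hb]
    refine Finset.sum_eq_zero fun o' _ => ?_
    rw [if_neg hb, ite_self]

theorem glue_B {p : Ω → ℝ} {p' : Ω' → ℝ} (hp' : IsP p') (C : Ω → γ) (C' : Ω' → γ)
    (h : ∀ c, pr p C c = pr p' C' c) (inst : Fintype {a : Ω × Ω' // C a.1 = C' a.2})
    (B : Ω' → β) (b : β) :
    pr (glue_q p p' C C') (fun a => B a.1.2) b = pr p' B b := by
  classical
  have h1 := glue_sum C C' inst
    (fun o o' => if B o' = b then p o * p' o' / pr p C (C o) else 0)
  have h2 : pr (glue_q p p' C C') (fun a => B a.1.2) b =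
      ∑ a : {a : Ω × Ω' // C a.1 = C' a.2},
        if B a.1.2 = b then p a.1.1 * p' a.1.2 / pr p C (C a.1.1) else 0 := by
    unfold pr glue_q
    exact Finset.sum_congr rfl fun a _ => by congr
  rw [h2, h1, Finset.sum_comm]
  have h3 : pr p' B b = ∑ o, if B o = b then p' o else 0 := by
    unfold pr
    exact Finset.sum_congr rfl fun a _ => by congr
  rw [h3]
  refine Finset.sum_congr rfl fun o' _ => ?_
  by_cases hb : B o' = b
  · rw [if_pos hb]
    refine Eq.trans (Finset.sum_congr rfl fun o _ => ?_) (glue_fst hp' C C' h o')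
    rw [if_pos hb]
  · rw [if_neg hb]
    refine Finset.sum_eq_zero fun o' _ => ?_
    rw [if_neg hb, ite_self]

/-- conditional independence -/
theorem glue_AB {p : Ω → ℝ} {p' : Ω' → ℝ} (C : Ω → γ) (C' : Ω' → γ)
    (inst : Fintype {a : Ω × Ω' // C a.1 = C' a.2})
    (A : Ω → β) (B : Ω' → β') (hA : ∀ o o', A o = A o' → C o = C o')
    (hB : ∀ o o', B o = B o' → C' o = C' o') (a₀ : {a : Ω × Ω' // C a.1 = C' a.2}) :
    pr (glue_q p p' C C') (fun a => (A a.1.1, B a.1.2)) (A a₀.1.1, B a₀.1.2) =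
      pr p A (A a₀.1.1) * pr p' B (B a₀.1.2) / pr p C (C a₀.1.1) := by
  classical
  have h1 := glue_sum C C' inst
    (fun o o' => if (A o, B o') = (A a₀.1.1, B a₀.1.2) then p o * p' o' / pr p C (C o) else 0)
  have h2 : pr (glue_q p p' C C') (fun a => (A a.1.1, B a.1.2)) (A a₀.1.1, B a₀.1.2) =
      ∑ a : {a : Ω × Ω' // C a.1 = C' a.2}, if (A a.1.1, B a.1.2) = (A a₀.1.1, B a₀.1.2) then
        p a.1.1 * p' a.1.2 / pr p C (C a.1.1) else 0 := by
    unfold pr glue_q
    exact Finset.sum_congr rfl fun a _ => by congr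
  have h3 : pr p A (A a₀.1.1) = ∑ o, if A o = A a₀.1.1 then p o else 0 := by
    unfold pr
    exact Finset.sum_congr rfl fun a _ => by congr
  have h4 : pr p' B (B a₀.1.2) = ∑ o', if B o' = B a₀.1.2 then p' o' else 0 := by
    unfold pr
    exact Finset.sum_congr rfl fun a _ => by congr
  rw [h2, h1, h3, h4, Finset.sum_mul_sum, Finset.sum_div]
  refine Finset.sum_congr rfl fun o _ => ?_
  rw [Finset.sum_div]
  refine Finset.sum_congr rfl fun o' _ => ?_
  by_cases hb : A o = A a₀.1.1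
  · by_cases hc : B o' = B a₀.1.2
    · have h5 : C o = C a₀.1.1 := hA _ _ hb
      have h6 : C' o' = C' a₀.1.2 := hB _ _ hc
      have h7 : C o = C' o' := by rw [h5, h6]; exact a₀.2
      rw [if_pos h7, if_pos (by rw [hb, hc]), if_pos hb, if_pos hc, h5]
    · rw [if_neg hc, mul_zero, zero_div]
      have h8 : ¬ (A o, B o') = (A a₀.1.1, B a₀.1.2) := fun h => hc (Prod.mk.inj h).2
      rw [if_neg h8, ite_self]
  · rw [if_neg hb, zero_mul, zero_div]
    have h8 : ¬ (A o, B o') = (A a₀.1.1, B a₀.1.2) := fun h => hb (Prod.mk.inj h).1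
    rw [if_neg h8, ite_self]

/-- the probability of an event depends only on the event -/
theorem glue_congr {δ δ' : Type*} (p : Ω → ℝ) (A : Ω → δ) (B : Ω → δ') (o₀ : Ω)
    (h : ∀ o, A o = A o₀ ↔ B o = B o₀) : pr p A (A o₀) = pr p B (B o₀) := by
  classical
  unfold pr
  refine Finset.sum_congr rfl fun o _ => ?_
  by_cases hc : A o = A o₀
  · rw [if_pos hc, if_pos ((h o).1 hc)]
  · rw [if_neg hc, if_neg fun h' => hc ((h o).2 h')]

end GluePlain

theorem glue (Γ : Type*) [Group Γ] {Ω Ω' : Type u} [Fintype Ω] [Fintype Ω']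
    {α β ζ : Type*} [MulAction Γ α] [MulAction Γ β] [MulAction Γ ζ] (hζ : Fr Γ ζ)
    {p : Ω → ℝ} {p' : Ω' → ℝ} (hp : IsP p) (hp' : IsP p')
    (X : Ω → α) (Z : Ω → ζ) (Y : Ω' → β) (Z' : Ω' → ζ) (h : SameLaw Γ p Z p' Z') :
    ∃ (Ω'' : Type u) (_ : Fintype Ω'') (q : Ω'' → ℝ) (X'' : Ω'' → α) (Y'' : Ω'' → β)
      (Z'' : Ω'' → ζ), IsP q ∧
      SameLaw Γ q (fun o => (X'' o, Z'' o)) p (fun o => (X o, Z o)) ∧
      SameLaw Γ q (fun o => (Y'' o, Z'' o)) p' (fun o => (Y o, Z' o)) ∧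
      CI Γ q X'' Y'' Z'' := by
  classical
  let C : Ω → Quotient (MulAction.orbitRel Γ ζ) := fun o => oc Γ (Z o)
  let C' : Ω' → Quotient (MulAction.orbitRel Γ ζ) := fun o => oc Γ (Z' o)
  have hex : ∀ a : {a : Ω × Ω' // C a.1 = C' a.2}, ∃ g : Γ, g • Z' a.1.2 = Z a.1.1 := by
    intro a
    have h1 : oc Γ (Z' a.1.2) = oc Γ (Z a.1.1) := a.2.symm
    exact (oc_eq Γ _ _).1 h1
  choose g hg using hex
  let A : Ω → Quotient (MulAction.orbitRel Γ (α × ζ)) := fun o => oc Γ (X o, Z o)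
  let B : Ω' → Quotient (MulAction.orbitRel Γ (β × ζ)) := fun o => oc Γ (Y o, Z' o)
  have hA : ∀ o o', A o = A o' → C o = C o' := by
    intro o o' ho
    obtain ⟨k, hk⟩ := (oc_eq Γ _ _).1 ho
    exact (oc_eq Γ _ _).2 ⟨k, congrArg Prod.snd hk⟩
  have hB : ∀ o o', B o = B o' → C' o = C' o' := by
    intro o o' ho
    obtain ⟨k, hk⟩ := (oc_eq Γ _ _).1 ho
    exact (oc_eq Γ _ _).2 ⟨k, congrArg Prod.snd hk⟩
  have inst : Fintype {a : Ω × Ω' // C a.1 = C' a.2} := Fintype.ofFinite _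
  -- the classes of the pairs
  have hY : ∀ a : {a : Ω × Ω' // C a.1 = C' a.2},
      oc Γ (g a • Y a.1.2, Z a.1.1) = B a.1.2 := by
    intro a
    refine ((oc_eq Γ _ _).2 ⟨g a, ?_⟩).symm
    rw [Prod.smul_mk, hg]
  have hAq : ∀ b, pr (glue_q p p' C C') (fun a => A a.1.1) b = pr p A b :=
    fun b => glue_A hp C C' h inst A b
  have hBq : ∀ b, pr (glue_q p p' C C') (fun a => B a.1.2) b = pr p' B b :=
    fun b => glue_B hp' C C' h inst B b
  have hCq : ∀ b, pr (glue_q p p' C C') (fun a => C a.1.1) b = pr p C b :=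
    fun b => glue_A hp C C' h inst C b
  have hBeq : (fun a : {a : Ω × Ω' // C a.1 = C' a.2} => oc Γ (g a • Y a.1.2, Z a.1.1)) =
      fun a => B a.1.2 := funext hY
  have hq := glue_isP hp hp' C C' h inst
  refine ⟨{a : Ω × Ω' // C a.1 = C' a.2}, inst, glue_q p p' C C', fun a => X a.1.1,
    fun a => g a • Y a.1.2, fun a => Z a.1.1, hq, fun c => hAq c, fun c => ?_, ?_⟩
  · rw [hBeq]
    exact hBq c
  · unfold CI H ent
    rw [← Finset.sum_add_distrib, ← Finset.sum_add_distrib]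
    refine Finset.sum_congr rfl fun a _ => ?_
    rw [← mul_add, ← mul_add]
    congr 1
    rw [hBeq]
    have e1 : pr (glue_q p p' C C')
        (fun a : {a : Ω × Ω' // C a.1 = C' a.2} => oc Γ (X a.1.1, g a • Y a.1.2, Z a.1.1))
        (oc Γ (X a.1.1, g a • Y a.1.2, Z a.1.1)) =
        pr p A (A a.1.1) * pr p' B (B a.1.2) / pr p C (C a.1.1) := by
      rw [← glue_AB C C' inst A B hA hB a]
      refine glue_congr (glue_q p p' C C')
        (fun a : {a : Ω × Ω' // C a.1 = C' a.2} => oc Γ (X a.1.1, g a • Y a.1.2, Z a.1.1))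
        (fun a => (A a.1.1, B a.1.2)) a fun a' => ?_
      constructor
      · intro ho
        obtain ⟨k, hk⟩ := (oc_eq Γ _ _).1 ho
        have k1 : k • X a'.1.1 = X a.1.1 := congrArg Prod.fst hk
        have k2 : k • (g a' • Y a'.1.2) = g a • Y a.1.2 := congrArg (fun x => x.2.1) hk
        have k3 : k • Z a'.1.1 = Z a.1.1 := congrArg (fun x => x.2.2) hk
        refine Prod.ext ?_ ?_
        · exact (oc_eq Γ _ _).2 ⟨k, by rw [Prod.smul_mk, k1, k3]⟩
        · show B a'.1.2 = B a.1.2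
          rw [← hY a', ← hY a]
          exact (oc_eq Γ _ _).2 ⟨k, by rw [Prod.smul_mk, k2, k3]⟩
      · intro ho
        have o1 : A a'.1.1 = A a.1.1 := congrArg Prod.fst ho
        have o2 : B a'.1.2 = B a.1.2 := congrArg Prod.snd ho
        rw [← hY a', ← hY a] at o2
        obtain ⟨k, hk⟩ := (oc_eq Γ _ _).1 o1
        obtain ⟨l, hl⟩ := (oc_eq Γ _ _).1 o2
        have k1 : k • X a'.1.1 = X a.1.1 := congrArg Prod.fst hk
        have k3 : k • Z a'.1.1 = Z a.1.1 := congrArg Prod.snd hk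
        have l2 : l • (g a' • Y a'.1.2) = g a • Y a.1.2 := congrArg Prod.fst hl
        have l3 : l • Z a'.1.1 = Z a.1.1 := congrArg Prod.snd hl
        have hkl : l⁻¹ * k = 1 := by
          refine hζ _ (Z a'.1.1) ?_
          rw [mul_smul, k3, ← l3, inv_smul_smul]
        have hkl' : k = l := by
          have := congrArg (fun x => l * x) hkl
          simpa using this
        refine (oc_eq Γ _ _).2 ⟨k, ?_⟩
        rw [Prod.smul_mk, Prod.smul_mk, k1, k3, hkl', l2]
    have e2 : pr (glue_q p p' C C')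
        (fun a : {a : Ω × Ω' // C a.1 = C' a.2} => oc Γ (Z a.1.1)) (oc Γ (Z a.1.1)) =
        pr p C (C a.1.1) := hCq _
    have e3 : pr (glue_q p p' C C')
        (fun a : {a : Ω × Ω' // C a.1 = C' a.2} => oc Γ (X a.1.1, Z a.1.1))
        (oc Γ (X a.1.1, Z a.1.1)) = pr p A (A a.1.1) := hAq _
    have e4 : pr (glue_q p p' C C')
        (fun a : {a : Ω × Ω' // C a.1 = C' a.2} => B a.1.2)
        ((fun a : {a : Ω × Ω' // C a.1 = C' a.2} => B a.1.2) a) = pr p' B (B a.1.2) := hBq _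
    rw [e1, e2, e3, e4]
    have n1 := (pr_pos hp A a.1.1).ne'
    have n2 := (pr_pos hp' B a.1.2).ne'
    have n3 := (pr_pos hp C a.1.1).ne'
    rw [Real.log_div (mul_ne_zero n1 n2) n3, Real.log_mul n1 n2]
    ring

end SubExp
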