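import Pool.Agent.Lib.MP_fee02f_an.SX.E05
import Pool.Agent.Lib.MP_fee02f_an.SX.E06

/-!
Existence of star chains.

Induction on `N`, with the additional claim that `(v N, z)` has the law of `(x, z0)` or of
`(y, z0)` (the other member of the pair than the one added last is the next one to be added).
`N = 0`: `v i = x` for all `i`, `z = z0`. Step: glue (`glue`) `X = (fun o i => v i o)` (values in
`ℕ → Γ`), `Z = (v N, z)` with `Y = y` (or `x`), `Z' = (x, z0)` (or `(y, z0)`), and put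
`v' i o = X'' o i` for `i ≤ N`, `v' i o = Y'' o` for `i > N`, `z' = Z''.2`. By `SameLaw.prop` for the
pair `(X'', Z'')` one has `X'' o N = (Z'' o).1`. The old links and `CI`s are inherited from the law
of `(X'', Z'')` (`SameLaw.map`, `SameLaw.H_eq`), the new link is the law of `(Y'', Z'')`, and the new
`CI` is `CI.left` of the one given by `glue`.
-/

open scoped BigOperators

namespace SubExp

universe u

theorem chain_step (Γ : Type u) [Group Γ] {Y : Type*} [MulAction Γ Y] (hY : Fr Γ Y)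
    {Ω Ω' : Type u} [Fintype Ω] [Fintype Ω'] {p : Ω → ℝ} {q : Ω' → ℝ} (hp : IsP p) (hq : IsP q)
    (x y : Ω → Γ) (z0 : Ω → Y) (v : ℕ → Ω' → Γ) (z : Ω' → Y) (N : ℕ)
    (h : SameLaw Γ q (fun o => (v N o, z o)) p (fun o => (x o, z0 o))) :
    ∃ (Ω'' : Type u) (_ : Fintype Ω'') (r : Ω'' → ℝ) (v' : ℕ → Ω'' → Γ) (z' : Ω'' → Y), IsP r ∧
      SameLaw Γ r (fun o => (tup v' N o, z' o)) q (fun o => (tup v N o, z o)) ∧
      SameLaw Γ r (fun o => (v' N o, v' (N + 1) o, z' o)) p (fun o => (x o, y o, z0 o)) ∧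
      CI Γ r (tup v' N) (v' (N + 1)) (fun o => (v' N o, z' o)) := by
  classical
  have hfr : Fr Γ (Γ × Y) := Fr_prod_right Γ hY
  obtain ⟨Ω'', inst, r, X'', Y'', Z'', hr, h1, h2, h3⟩ :=
    glue Γ hfr hq hp (tup v N) (fun o => (v N o, z o)) y (fun o => (x o, z0 o)) h
  -- the last coordinate of `X''` is the first component of `Z''`
  have hXZ : ∀ o, X'' o (Fin.last N) = (Z'' o).1 := by
    intro o
    refine SameLaw.prop Γ hr h1
      (fun a : (Fin (N + 1) → Γ) × (Γ × Y) => a.1 (Fin.last N) = a.2.1) ?_ ?_ o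
    · intro g a ha
      show g • a.1 (Fin.last N) = g • a.2.1
      rw [ha]
    · intro o
      rfl
  let v' : ℕ → Ω'' → Γ := fun i o => if hi : i < N + 1 then X'' o ⟨i, hi⟩ else Y'' o
  have hv1 : tup v' N = X'' := by
    funext o j
    show (if hi : (j : ℕ) < N + 1 then X'' o ⟨j, hi⟩ else Y'' o) = X'' o j
    rw [dif_pos j.2]
  have hv2 : v' (N + 1) = Y'' := by
    funext o
    show (if hi : N + 1 < N + 1 then X'' o ⟨N + 1, hi⟩ else Y'' o) = Y'' o
    rw [dif_neg (lt_irrefl _)]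
  have hv3 : ∀ o, v' N o = (Z'' o).1 := by
    intro o
    show (if hi : N < N + 1 then X'' o ⟨N, hi⟩ else Y'' o) = (Z'' o).1
    rw [dif_pos (Nat.lt_succ_self N)]
    exact hXZ o
  have hZ : (fun o => (v' N o, (Z'' o).2)) = Z'' := by
    funext o
    rw [hv3]
  refine ⟨Ω'', inst, r, v', fun o => (Z'' o).2, hr, ?_, ?_, ?_⟩
  · rw [hv1]
    exact SameLaw.map Γ h1 (fun a : (Fin (N + 1) → Γ) × (Γ × Y) => (a.1, a.2.2)) fun g a => rfl
  · have h4 := SameLaw.map Γ h2 (fun a : Γ × (Γ × Y) => (a.2.1, a.1, a.2.2)) fun g a => rfl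
    rw [hv2]
    have h5 : (fun o => (v' N o, Y'' o, (Z'' o).2)) = fun o => ((Z'' o).1, Y'' o, (Z'' o).2) := by
      funext o
      rw [hv3]
    rw [h5]
    exact h4
  · rw [hZ, hv2, hv1]
    exact h3

theorem exists_chain (Γ : Type u) [Group Γ] {Y : Type*} [MulAction Γ Y] (hY : Fr Γ Y)
    {Ω : Type u} [Fintype Ω] {p : Ω → ℝ} (hp : IsP p) (x y : Ω → Γ) (z0 : Ω → Y) (N : ℕ) :
    ∃ (Ω' : Type u) (_ : Fintype Ω') (q : Ω' → ℝ) (v : ℕ → Ω' → Γ) (z : Ω' → Y),
      IsP q ∧ Chain Γ q v z p x y z0 N := by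
  suffices hs : ∃ (Ω' : Type u) (_ : Fintype Ω') (q : Ω' → ℝ) (v : ℕ → Ω' → Γ) (z : Ω' → Y),
      IsP q ∧ Chain Γ q v z p x y z0 N ∧
      (SameLaw Γ q (fun o => (v N o, z o)) p (fun o => (x o, z0 o)) ∨
        SameLaw Γ q (fun o => (v N o, z o)) p (fun o => (y o, z0 o))) by
    obtain ⟨Ω', inst, q, v, z, hq, hc, -⟩ := hs
    exact ⟨Ω', inst, q, v, z, hq, hc⟩
  induction N with
  | zero =>
    refine ⟨Ω, inferInstance, p, fun _ => x, z0, hp, ⟨fun i hi => absurd hi (Nat.not_lt_zero i),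
      fun i hi => absurd hi (Nat.not_lt_zero i)⟩, Or.inl (SameLaw.of_eq Γ p fun o => rfl)⟩
  | succ N ih =>
    obtain ⟨Ω', inst, q, v, z, hq, hc, hlast⟩ := ih
    -- the new law
    have hnew : ∃ (Ω'' : Type u) (_ : Fintype Ω'') (r : Ω'' → ℝ) (v' : ℕ → Ω'' → Γ)
        (z' : Ω'' → Y), IsP r ∧
        SameLaw Γ r (fun o => (tup v' N o, z' o)) q (fun o => (tup v N o, z o)) ∧
        ((SameLaw Γ r (fun o => (v' N o, v' (N + 1) o, z' o)) p (fun o => (x o, y o, z0 o)) ∨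
          SameLaw Γ r (fun o => (v' N o, v' (N + 1) o, z' o)) p (fun o => (y o, x o, z0 o)))) ∧
        CI Γ r (tup v' N) (v' (N + 1)) (fun o => (v' N o, z' o)) := by
      rcases hlast with hlast | hlast
      · obtain ⟨Ω'', i'', r, v', z', hr, h1, h2, h3⟩ :=
          chain_step Γ hY hp hq x y z0 v z N hlast
        exact ⟨Ω'', i'', r, v', z', hr, h1, Or.inl h2, h3⟩
      · obtain ⟨Ω'', i'', r, v', z', hr, h1, h2, h3⟩ :=
          chain_step Γ hY hp hq y x z0 v z N hlast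
        exact ⟨Ω'', i'', r, v', z', hr, h1, Or.inr h2, h3⟩
    obtain ⟨Ω'', i'', r, v', z', hr, h1, h2, h3⟩ := hnew
    refine ⟨Ω'', i'', r, v', z', hr, ⟨?_, ?_⟩, ?_⟩
    · intro i hi
      rcases Nat.lt_succ_iff_lt_or_eq.1 hi with hi | hi
      · have h4 : SameLaw Γ r (fun o => (v' i o, v' (i + 1) o, z' o)) q
            (fun o => (v i o, v (i + 1) o, z o)) :=
          SameLaw.map Γ h1 (fun a : (Fin (N + 1) → Γ) × Y =>
            (a.1 ⟨i, by omega⟩, a.1 ⟨i + 1, by omega⟩, a.2)) fun g a => rfl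
        rcases hc.link i hi with h5 | h5
        · exact Or.inl (SameLaw.trans Γ h4 h5)
        · exact Or.inr (SameLaw.trans Γ h4 h5)
      · rw [hi]
        exact h2
    · intro i hi
      rcases Nat.lt_succ_iff_lt_or_eq.1 hi with hi | hi
      · have h5 := hc.markov i hi
        unfold CI at h5 ⊢
        have e1 : H Γ r (fun o => (tup v' i o, v' (i + 1) o, (v' i o, z' o))) =
            H Γ q (fun o => (tup v i o, v (i + 1) o, (v i o, z o))) :=
          SameLaw.H_eq Γ (SameLaw.map Γ h1 (fun a : (Fin (N + 1) → Γ) × Y =>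
            ((fun j : Fin (i + 1) => a.1 ⟨j, by omega⟩), a.1 ⟨i + 1, by omega⟩,
              (a.1 ⟨i, by omega⟩, a.2))) fun g a => rfl)
        have e2 : H Γ r (fun o => (v' i o, z' o)) = H Γ q (fun o => (v i o, z o)) :=
          SameLaw.H_eq Γ (SameLaw.map Γ h1 (fun a : (Fin (N + 1) → Γ) × Y =>
            (a.1 ⟨i, by omega⟩, a.2)) fun g a => rfl)
        have e3 : H Γ r (fun o => (tup v' i o, (v' i o, z' o))) =
            H Γ q (fun o => (tup v i o, (v i o, z o))) :=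
          SameLaw.H_eq Γ (SameLaw.map Γ h1 (fun a : (Fin (N + 1) → Γ) × Y =>
            ((fun j : Fin (i + 1) => a.1 ⟨j, by omega⟩), (a.1 ⟨i, by omega⟩, a.2)))
            fun g a => rfl)
        have e4 : H Γ r (fun o => (v' (i + 1) o, (v' i o, z' o))) =
            H Γ q (fun o => (v (i + 1) o, (v i o, z o))) :=
          SameLaw.H_eq Γ (SameLaw.map Γ h1 (fun a : (Fin (N + 1) → Γ) × Y =>
            (a.1 ⟨i + 1, by omega⟩, (a.1 ⟨i, by omega⟩, a.2))) fun g a => rfl)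
        rw [e1, e2, e3, e4]
        exact h5
      · rw [hi]
        exact h3
    · rcases h2 with h2 | h2
      · exact Or.inr (SameLaw.map Γ h2 (fun a : Γ × Γ × Y => (a.2.1, a.2.2)) fun g a => rfl)
      · exact Or.inl (SameLaw.map Γ h2 (fun a : Γ × Γ × Y => (a.2.1, a.2.2)) fun g a => rfl)

end SubExp
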