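import Pool.Agent.Lib.MP_fee02f_an.SX.E05

/-!
Entropy of a star chain (F5).

`Chain.D_eq`, `Chain.mem`: from `link`, `SameLaw.map`, `SameLaw.H_eq`, `D_comm`, `SameLaw.prop`.

`Chain.ent_eq`, induction on `N`: by `markov`, `H(tup (N+1), z) = H(tup N, z) + H(v_N v_{N+1} z)
- H(v_N z)` (`tup v (N+1)` and `(tup v N, v (N+1))` determine each other), and
`D(v_N, v_{N+1}, z) = 2 H(v_N v_{N+1} z) - H(v_N z) - H(v_{N+1} z) - H(v_N v_{N+1})` is the `D` of the
given law.

`Chain.poly`, induction on `N ≥ 1`: submodularity over the base `(v_0, v_N)` gives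
`H(tup (N+1)) ≤ H(tup N) + H(v_0 v_N v_{N+1}) - H(v_0 v_N)`, and `D(v_N, v_{N+1}, v_0) ≤ δ` gives
`2 H(v_0 v_N v_{N+1}) ≤ δ + H(v_0 v_N) + H(v_0 v_{N+1}) + H(v_N v_{N+1})`.

`Chain.cond`: subtract; `H(v_0 z) + H(v_N z) ≥ H(v_0 v_N z) + H(z) ≥ H(v_0 v_N z)`, and
`H(v_0 v_N z) - H(v_0 v_N) ≥ H(tup z) - H(tup)` (`H_cond_le`).
-/

open scoped BigOperators

namespace SubExp

universe u

variable {Γ : Type u} [Group Γ] {Y : Type*} [MulAction Γ Y]
  {Ω Ω' : Type u} [Fintype Ω] [Fintype Ω'] {q : Ω' → ℝ} {v : ℕ → Ω' → Γ} {z : Ω' → Y}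
  {p : Ω → ℝ} {x y : Ω → Γ} {z0 : Ω → Y} {N : ℕ}

theorem E08_D_same {a b : Ω' → Γ} {x y : Ω → Γ}
    (h : SameLaw Γ q (fun o => (a o, b o, z o)) p (fun o => (x o, y o, z0 o))) :
    D Γ q a b z = D Γ p x y z0 := by
  have h0 := h.H_eq
  have h1 := (h.map (Γ := Γ) (fun t : Γ × Γ × Y => (t.1, t.2.2)) (fun _ _ => rfl)).H_eq
  have h2 := (h.map (Γ := Γ) (fun t : Γ × Γ × Y => (t.2.1, t.2.2)) (fun _ _ => rfl)).H_eq
  have h3 := (h.map (Γ := Γ) (fun t : Γ × Γ × Y => (t.1, t.2.1)) (fun _ _ => rfl)).H_eq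
  unfold D
  simp only at h1 h2 h3
  rw [h0, h1, h2, h3]

theorem Chain.D_eq (h : Chain Γ q v z p x y z0 N) (hq : IsP q) (hp : IsP p) {i : ℕ}
    (hi : i < N) : D Γ q (v i) (v (i + 1)) z = D Γ p x y z0 := by
  rcases h.link i hi with h1 | h1
  · exact E08_D_same h1
  · rw [E08_D_same h1]
    exact D_comm Γ hp y x z0

theorem Chain.mem (h : Chain Γ q v z p x y z0 N) (hq : IsP q) (hp : IsP p) (E : Set Γ)
    (hE : ∀ g ∈ E, g⁻¹ ∈ E) (hxy : ∀ o, (x o)⁻¹ * y o ∈ E) {i : ℕ} (hi : i < N) (o : Ω') :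
    (v i o)⁻¹ * v (i + 1) o ∈ E := by
  have hP : ∀ (g : Γ) (a : Γ × Γ × Y), a.1⁻¹ * a.2.1 ∈ E → (g • a).1⁻¹ * (g • a).2.1 ∈ E := by
    intro g a ha
    have h1 : (g • a).1⁻¹ * (g • a).2.1 = a.1⁻¹ * a.2.1 := by
      show (g * a.1)⁻¹ * (g * a.2.1) = _
      group
    rw [h1]
    exact ha
  rcases h.link i hi with h1 | h1
  · exact SameLaw.prop Γ hq h1 (fun a : Γ × Γ × Y => a.1⁻¹ * a.2.1 ∈ E) hP hxy o
  · refine SameLaw.prop Γ hq h1 (fun a : Γ × Γ × Y => a.1⁻¹ * a.2.1 ∈ E) hP (fun o => ?_) o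
    have h2 := hE _ (hxy o)
    rwa [mul_inv_rev, inv_inv] at h2

theorem Chain.E08_pred (h : Chain Γ q v z p x y z0 (N + 1)) : Chain Γ q v z p x y z0 N :=
  ⟨fun i hi => h.link i (by omega), fun i hi => h.markov i (by omega)⟩

theorem E08_tup_last {v : ℕ → Ω' → Γ} {m : ℕ} {g : Γ} {o o' : Ω'}
    (h : g • tup v m o = tup v m o') (i : ℕ) (hi : i ≤ m) : g • v i o = v i o' := by
  have h1 := congrFun h (⟨i, by omega⟩ : Fin (m + 1))
  exact h1

theorem E08_tup_of {v : ℕ → Ω' → Γ} {m : ℕ} {g : Γ} {o o' : Ω'}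
    (h : ∀ i ≤ m, g • v i o = v i o') : g • tup v m o = tup v m o' := by
  funext i
  exact h i (by omega)

theorem E08_tup_succ {v : ℕ → Ω' → Γ} {m : ℕ} {g : Γ} {o o' : Ω'}
    (h : g • tup v m o = tup v m o') (h' : g • v (m + 1) o = v (m + 1) o') :
    g • tup v (m + 1) o = tup v (m + 1) o' := by
  refine E08_tup_of fun i hi => ?_
  rcases Nat.lt_or_ge i (m + 1) with h1 | h1
  · exact E08_tup_last h i (by omega)
  · have h2 : i = m + 1 := by omega
    subst h2
    exact h'

theorem Chain.ent_eq (h : Chain Γ q v z p x y z0 N) (hq : IsP q) (hp : IsP p)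
    (hY : Fr Γ Y) :
    2 * H Γ q (fun o => (tup v N o, z o)) = N * D Γ p x y z0 + H Γ q (fun o => (v 0 o, z o))
      + H Γ q (fun o => (v N o, z o))
      + ∑ i ∈ Finset.range N, H Γ q (fun o => (v i o, v (i + 1) o)) := by
  induction N with
  | zero =>
    have h1 : H Γ q (fun o => (tup v 0 o, z o)) = H Γ q (fun o => (v 0 o, z o)) := by
      refine H_congr Γ hq ?_ ?_
      · intro o o' g hg
        have h2 := congrArg Prod.fst hg
        have h3 := congrArg Prod.snd hg
        exact Prod.ext (E08_tup_last h2 0 le_rfl) h3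
      · intro o o' g hg
        have h2 : g • v 0 o = v 0 o' := congrArg Prod.fst hg
        have h3 := congrArg Prod.snd hg
        refine Prod.ext (E08_tup_of fun i hi => ?_) h3
        have h4 : i = 0 := by omega
        subst h4
        exact h2
    rw [h1, Finset.range_zero, Finset.sum_empty]
    push_cast
    ring
  | succ N ih =>
    have ih1 := ih h.E08_pred
    have hm : H Γ q (fun o => (tup v N o, v (N + 1) o, v N o, z o)) +
        H Γ q (fun o => (v N o, z o)) = H Γ q (fun o => (tup v N o, v N o, z o)) +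
        H Γ q (fun o => (v (N + 1) o, v N o, z o)) := h.markov N (Nat.lt_succ_self N)
    have e1 : H Γ q (fun o => (tup v N o, v (N + 1) o, v N o, z o)) =
        H Γ q (fun o => (tup v (N + 1) o, z o)) := by
      refine H_congr Γ hq ?_ ?_
      · intro o o' g hg
        have h2 : g • tup v N o = tup v N o' := congrArg Prod.fst hg
        have h3 : g • v (N + 1) o = v (N + 1) o' := congrArg (fun t => t.2.1) hg
        have h4 : g • z o = z o' := congrArg (fun t => t.2.2.2) hg
        exact Prod.ext (E08_tup_succ h2 h3) h4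
      · intro o o' g hg
        have h2 : g • tup v (N + 1) o = tup v (N + 1) o' := congrArg Prod.fst hg
        have h4 : g • z o = z o' := congrArg Prod.snd hg
        refine Prod.ext (E08_tup_of fun i hi => E08_tup_last h2 i (by omega))
          (Prod.ext (E08_tup_last h2 (N + 1) le_rfl)
            (Prod.ext (E08_tup_last h2 N (by omega)) h4))
    have e2 : H Γ q (fun o => (tup v N o, v N o, z o)) = H Γ q (fun o => (tup v N o, z o)) := by
      refine H_congr Γ hq ?_ ?_
      · intro o o' g hg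
        have h2 : g • tup v N o = tup v N o' := congrArg Prod.fst hg
        have h4 : g • z o = z o' := congrArg (fun t => t.2.2) hg
        exact Prod.ext h2 h4
      · intro o o' g hg
        have h2 : g • tup v N o = tup v N o' := congrArg Prod.fst hg
        have h4 : g • z o = z o' := congrArg Prod.snd hg
        exact Prod.ext h2 (Prod.ext (E08_tup_last h2 N le_rfl) h4)
    have e3 : H Γ q (fun o => (v (N + 1) o, v N o, z o)) =
        H Γ q (fun o => (v N o, v (N + 1) o, z o)) := by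
      refine H_congr Γ hq ?_ ?_
      · intro o o' g hg
        exact Prod.ext (congrArg (fun t => t.2.1) hg) (Prod.ext (congrArg (fun t => t.1) hg)
          (congrArg (fun t => t.2.2) hg))
      · intro o o' g hg
        exact Prod.ext (congrArg (fun t => t.2.1) hg) (Prod.ext (congrArg (fun t => t.1) hg)
          (congrArg (fun t => t.2.2) hg))
    have hD := h.D_eq hq hp (Nat.lt_succ_self N)
    unfold D at hD ih1 ⊢
    rw [e1, e2, e3] at hm
    rw [Finset.sum_range_succ]
    push_cast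
    linarith

theorem Chain.poly (h : Chain Γ q v z p x y z0 N) (hq : IsP q) (hp : IsP p) (E : Set Γ)
    (hE : ∀ g ∈ E, g⁻¹ ∈ E) (hxy : ∀ o, (x o)⁻¹ * y o ∈ E) (δ : ℝ) (hδ : Dle Γ E δ)
    (hN : 1 ≤ N) :
    2 * H Γ q (tup v N) ≤ ∑ i ∈ Finset.range N, H Γ q (fun o => (v i o, v (i + 1) o))
      + H Γ q (fun o => (v 0 o, v N o)) + (N - 1) * δ := by
  induction N, hN using Nat.le_induction with
  | base =>
    have h1 : H Γ q (tup v 1) = H Γ q (fun o => (v 0 o, v 1 o)) := by
      refine H_congr Γ hq ?_ ?_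
      · intro o o' g hg
        exact Prod.ext (E08_tup_last hg 0 (by omega)) (E08_tup_last hg 1 le_rfl)
      · intro o o' g hg
        have h2 : g • v 0 o = v 0 o' := congrArg Prod.fst hg
        have h3 : g • v 1 o = v 1 o' := congrArg Prod.snd hg
        refine E08_tup_of fun i hi => ?_
        rcases Nat.lt_or_ge i 1 with h4 | h4
        · have h5 : i = 0 := by omega
          subst h5
          exact h2
        · have h5 : i = 1 := by omega
          subst h5
          exact h3
    rw [h1, Finset.sum_range_one]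
    push_cast
    linarith
  | succ N hN ih =>
    have ih1 := ih h.E08_pred
    have hs := H_submod Γ hq (Fr_prod_left Γ (β := Γ) (Fr_group Γ)) (tup v N) (v (N + 1))
      (fun o => (v 0 o, v N o))
    have e1 : H Γ q (fun o => (tup v N o, v (N + 1) o, v 0 o, v N o)) =
        H Γ q (tup v (N + 1)) := by
      refine H_congr Γ hq ?_ ?_
      · intro o o' g hg
        have h2 : g • tup v N o = tup v N o' := congrArg Prod.fst hg
        have h3 : g • v (N + 1) o = v (N + 1) o' := congrArg (fun t => t.2.1) hg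
        exact E08_tup_succ h2 h3
      · intro o o' g hg
        exact Prod.ext (E08_tup_of fun i hi => E08_tup_last hg i (by omega))
          (Prod.ext (E08_tup_last hg (N + 1) le_rfl)
            (Prod.ext (E08_tup_last hg 0 (by omega)) (E08_tup_last hg N (by omega))))
    have e2 : H Γ q (fun o => (tup v N o, v 0 o, v N o)) = H Γ q (tup v N) := by
      refine H_congr Γ hq ?_ ?_
      · intro o o' g hg
        exact congrArg Prod.fst hg
      · intro o o' g hg
        exact Prod.ext hg (Prod.ext (E08_tup_last hg 0 (by omega)) (E08_tup_last hg N le_rfl))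
    have e3 : H Γ q (fun o => (v (N + 1) o, v 0 o, v N o)) =
        H Γ q (fun o => (v N o, v (N + 1) o, v 0 o)) := by
      refine H_congr Γ hq ?_ ?_
      · intro o o' g hg
        exact Prod.ext (congrArg (fun t => t.2.2) hg) (Prod.ext (congrArg (fun t => t.1) hg)
          (congrArg (fun t => t.2.1) hg))
      · intro o o' g hg
        exact Prod.ext (congrArg (fun t => t.2.1) hg) (Prod.ext (congrArg (fun t => t.2.2) hg)
          (congrArg (fun t => t.1) hg))
    have e4 : H Γ q (fun o => (v N o, v 0 o)) = H Γ q (fun o => (v 0 o, v N o)) :=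
      H_congr Γ hq (fun o o' g hg => Prod.ext (congrArg Prod.snd hg) (congrArg Prod.fst hg))
        (fun o o' g hg => Prod.ext (congrArg Prod.snd hg) (congrArg Prod.fst hg))
    have e5 : H Γ q (fun o => (v (N + 1) o, v 0 o)) = H Γ q (fun o => (v 0 o, v (N + 1) o)) :=
      H_congr Γ hq (fun o o' g hg => Prod.ext (congrArg Prod.snd hg) (congrArg Prod.fst hg))
        (fun o o' g hg => Prod.ext (congrArg Prod.snd hg) (congrArg Prod.fst hg))
    have hD := hδ Ω' inferInstance q (v N) (v (N + 1)) (v 0) hq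
      (fun o => h.mem hq hp E hE hxy (Nat.lt_succ_self N) o)
    unfold D at hD
    rw [e1, e2, e3] at hs
    rw [e4, e5] at hD
    rw [Finset.sum_range_succ]
    push_cast
    linarith

theorem Chain.cond (h : Chain Γ q v z p x y z0 N) (hq : IsP q) (hp : IsP p) (hY : Fr Γ Y)
    (E : Set Γ) (hE : ∀ g ∈ E, g⁻¹ ∈ E) (hxy : ∀ o, (x o)⁻¹ * y o ∈ E) (δ : ℝ)
    (hδ : Dle Γ E δ) (hN : 1 ≤ N) :
    N * D Γ p x y z0 - (N - 1) * δ
      ≤ H Γ q (fun o => (tup v N o, z o)) - H Γ q (tup v N) := by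
  have h1 := h.ent_eq hq hp hY
  have h2 := h.poly hq hp E hE hxy δ hδ hN
  have h3 := H_submod Γ hq hY (v 0) (v N) z
  have h4 := H_nonneg Γ hq z
  have h5 := H_cond_le Γ hq (Fr_prod_left Γ (β := Γ) (Fr_group Γ)) z (tup v N)
    (fun o => (v 0 o, v N o))
  have e1 : H Γ q (fun o => (z o, tup v N o, v 0 o, v N o)) =
      H Γ q (fun o => (tup v N o, z o)) := by
    refine H_congr Γ hq ?_ ?_
    · intro o o' g hg
      exact Prod.ext (congrArg (fun t => t.2.1) hg) (congrArg Prod.fst hg)
    · intro o o' g hg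
      have h2 : g • tup v N o = tup v N o' := congrArg Prod.fst hg
      have h3 : g • z o = z o' := congrArg Prod.snd hg
      exact Prod.ext h3 (Prod.ext h2 (Prod.ext (E08_tup_last h2 0 (by omega))
        (E08_tup_last h2 N le_rfl)))
  have e2 : H Γ q (fun o => (tup v N o, v 0 o, v N o)) = H Γ q (tup v N) := by
    refine H_congr Γ hq ?_ ?_
    · intro o o' g hg
      exact congrArg Prod.fst hg
    · intro o o' g hg
      exact Prod.ext hg (Prod.ext (E08_tup_last hg 0 (by omega)) (E08_tup_last hg N le_rfl))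
  have e3 : H Γ q (fun o => (z o, v 0 o, v N o)) = H Γ q (fun o => (v 0 o, v N o, z o)) := by
    refine H_congr Γ hq ?_ ?_
    · intro o o' g hg
      exact Prod.ext (congrArg (fun t => t.2.1) hg) (Prod.ext (congrArg (fun t => t.2.2) hg)
        (congrArg (fun t => t.1) hg))
    · intro o o' g hg
      exact Prod.ext (congrArg (fun t => t.2.2) hg) (Prod.ext (congrArg (fun t => t.1) hg)
        (congrArg (fun t => t.2.1) hg))
  rw [e1, e2, e3] at h5
  linarith

end SubExp
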