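import Pool.Agent.Lib.MP_fee02f_an.SX.E08

/-!
A pair of the chain with a good third object (F6).

`Chain.two`: put `blk i j = (v i, ..., v j)` (as the sequence `fun k => v (max i (min k j))`, values
in `ℕ → Γ`, say). By `markov` and `CI.left`, for `i + 1 ≤ j ≤ N` by induction on `j`:
`H(tup j, z) = H(tup (i+1), z) + H(blk (i+1) j, z) - H(v (i+1), z)`, which is
`CI (tup (i+1)) (blk (i+1) j) (v (i+1), z)`; then `CI.left` and `CI.right`.

`Chain.pick`: put `a i = H(v i, v N, z) - H(v i, z)`. By `Chain.two`,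
`H(v i, v (i+1), v N, z) = H(v i, v (i+1), z) + H(v (i+1), v N, z) - H(v (i+1), z)`, so that
`D(v i, v (i+1), (v N, z)) = D(v i, v (i+1), z) - (a i - a (i+1))`. The sum of `a i - a (i+1)` over
`i < N - 1` is `a 0 - a (N-1) ≤ H(v N, z) - H(z) - H(v (N-1), v N, z) + H(v (N-1), z)` (`H_cond_le`
for `a 0`), which is `H(x z0) + H(y z0) - H(z0) - H(x y z0)` by the link `N - 1`; one of the `N - 1`
terms is at most the mean.
-/

open scoped BigOperators

namespace SubExp

universe u

variable {Γ : Type u} [Group Γ] {Y : Type*} [MulAction Γ Y]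
  {Ω Ω' : Type u} [Fintype Ω] [Fintype Ω'] {q : Ω' → ℝ} {v : ℕ → Ω' → Γ} {z : Ω' → Y}
  {p : Ω → ℝ} {x y : Ω → Γ} {z0 : Ω → Y} {N : ℕ}

theorem Chain.two (h : Chain Γ q v z p x y z0 N) (hq : IsP q) (hY : Fr Γ Y) {i j : ℕ}
    (hij : i + 1 ≤ j) (hj : j ≤ N) :
    CI Γ q (v i) (v j) (fun o => (v (i + 1) o, z o)) := by
  induction j, hij using Nat.le_induction with
  | base =>
    change H Γ q (fun o => (v i o, v (i + 1) o, (v (i + 1) o, z o)))
        + H Γ q (fun o => (v (i + 1) o, z o))
      = H Γ q (fun o => (v i o, (v (i + 1) o, z o)))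
        + H Γ q (fun o => (v (i + 1) o, (v (i + 1) o, z o)))
    have e1 : H Γ q (fun o => (v i o, v (i + 1) o, (v (i + 1) o, z o)))
        = H Γ q (fun o => (v i o, (v (i + 1) o, z o))) := by
      apply H_congr Γ hq <;>
      · intro o o' g h
        simp only [Prod.smul_mk, Prod.mk.injEq] at h ⊢
        tauto
    have e2 : H Γ q (fun o => (v (i + 1) o, (v (i + 1) o, z o)))
        = H Γ q (fun o => (v (i + 1) o, z o)) := by
      apply H_congr Γ hq <;>
      · intro o o' g h
        simp only [Prod.smul_mk, Prod.mk.injEq] at h ⊢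
        tauto
    rw [e1, e2]
  | succ j hij ih =>
    have ih' : H Γ q (fun o => (v i o, v j o, (v (i + 1) o, z o)))
        + H Γ q (fun o => (v (i + 1) o, z o))
      = H Γ q (fun o => (v i o, (v (i + 1) o, z o)))
        + H Γ q (fun o => (v j o, (v (i + 1) o, z o))) := ih (by omega)
    have hm := h.markov j (by omega)
    have hZ : Fr Γ (Γ × Y) := Fr_prod_left Γ (Fr_group Γ)
    have m1 : H Γ q (fun o => ((v i o, v (i + 1) o), v (j + 1) o, (v j o, z o)))
        + H Γ q (fun o => (v j o, z o))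
      = H Γ q (fun o => ((v i o, v (i + 1) o), (v j o, z o)))
        + H Γ q (fun o => (v (j + 1) o, (v j o, z o))) := by
      refine CI.left Γ hq hZ hm (X' := fun o => (v i o, v (i + 1) o)) ?_
      intro o o' g h
      simp only [Prod.smul_mk, Prod.mk.injEq] at h ⊢
      have a := congrFun h.1 ⟨i, by omega⟩
      have b := congrFun h.1 ⟨i + 1, by omega⟩
      exact ⟨a, b⟩
    have m2 : H Γ q (fun o => (v (i + 1) o, v (j + 1) o, (v j o, z o)))
        + H Γ q (fun o => (v j o, z o))
      = H Γ q (fun o => (v (i + 1) o, (v j o, z o)))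
        + H Γ q (fun o => (v (j + 1) o, (v j o, z o))) := by
      refine CI.left Γ hq hZ hm (X' := v (i + 1)) ?_
      intro o o' g h
      simp only [Prod.smul_mk, Prod.mk.injEq] at h ⊢
      exact congrFun h.1 ⟨i + 1, by omega⟩
    have e1 : H Γ q (fun o => ((v i o, v (i + 1) o), v (j + 1) o, (v j o, z o)))
        = H Γ q (fun o => (v i o, (v j o, v (j + 1) o), (v (i + 1) o, z o))) := by
      apply H_congr Γ hq <;>
      · intro o o' g h
        simp only [Prod.smul_mk, Prod.mk.injEq] at h ⊢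
        tauto
    have e2 : H Γ q (fun o => ((v i o, v (i + 1) o), (v j o, z o)))
        = H Γ q (fun o => (v i o, v j o, (v (i + 1) o, z o))) := by
      apply H_congr Γ hq <;>
      · intro o o' g h
        simp only [Prod.smul_mk, Prod.mk.injEq] at h ⊢
        tauto
    have e3 : H Γ q (fun o => (v (i + 1) o, v (j + 1) o, (v j o, z o)))
        = H Γ q (fun o => ((v j o, v (j + 1) o), (v (i + 1) o, z o))) := by
      apply H_congr Γ hq <;>
      · intro o o' g h
        simp only [Prod.smul_mk, Prod.mk.injEq] at h ⊢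
        tauto
    have e4 : H Γ q (fun o => (v (i + 1) o, (v j o, z o)))
        = H Γ q (fun o => (v j o, (v (i + 1) o, z o))) := by
      apply H_congr Γ hq <;>
      · intro o o' g h
        simp only [Prod.smul_mk, Prod.mk.injEq] at h ⊢
        tauto
    have key : CI Γ q (v i) (fun o => (v j o, v (j + 1) o)) (fun o => (v (i + 1) o, z o)) := by
      change H Γ q (fun o => (v i o, (v j o, v (j + 1) o), (v (i + 1) o, z o)))
          + H Γ q (fun o => (v (i + 1) o, z o))
        = H Γ q (fun o => (v i o, (v (i + 1) o, z o)))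
          + H Γ q (fun o => ((v j o, v (j + 1) o), (v (i + 1) o, z o)))
      linarith
    refine CI.right Γ hq hZ key ?_
    intro o o' g h
    simp only [Prod.smul_mk, Prod.mk.injEq] at h ⊢
    tauto

theorem Chain.pick (h : Chain Γ q v z p x y z0 N) (hq : IsP q) (hp : IsP p) (hY : Fr Γ Y)
    (hN : 2 ≤ N) :
    ∃ i, i + 1 < N ∧ D Γ p x y z0 - (H Γ p (fun o => (x o, z0 o)) + H Γ p (fun o => (y o, z0 o))
        - H Γ p z0 - H Γ p (fun o => (x o, y o, z0 o))) / (N - 1)
      ≤ D Γ q (v i) (v (i + 1)) (fun o => (v N o, z o)) := by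
  obtain ⟨M, rfl⟩ : ∃ M, N = M + 2 := ⟨N - 2, by omega⟩
  set a : ℕ → ℝ := fun i => H Γ q (fun o => (v i o, (v (M + 2) o, z o)))
    - H Γ q (fun o => (v i o, z o)) with ha
  set S : ℝ := H Γ p (fun o => (x o, z0 o)) + H Γ p (fun o => (y o, z0 o))
        - H Γ p z0 - H Γ p (fun o => (x o, y o, z0 o)) with hS
  have hstep : ∀ i, i + 1 < M + 2 →
      D Γ q (v i) (v (i + 1)) (fun o => (v (M + 2) o, z o)) = D Γ p x y z0 - (a i - a (i + 1)) := by
    intro i hi
    have h2 : H Γ q (fun o => (v i o, v (M + 2) o, (v (i + 1) o, z o)))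
        + H Γ q (fun o => (v (i + 1) o, z o))
      = H Γ q (fun o => (v i o, (v (i + 1) o, z o)))
        + H Γ q (fun o => (v (M + 2) o, (v (i + 1) o, z o))) :=
      h.two hq hY (i := i) (j := M + 2) (by omega) le_rfl
    have hD := h.D_eq hq hp (i := i) (by omega)
    have e1 : H Γ q (fun o => (v i o, v (i + 1) o, (v (M + 2) o, z o)))
        = H Γ q (fun o => (v i o, v (M + 2) o, (v (i + 1) o, z o))) := by
      apply H_congr Γ hq <;>
      · intro o o' g h
        simp only [Prod.smul_mk, Prod.mk.injEq] at h ⊢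
        tauto
    have e2 : H Γ q (fun o => (v (i + 1) o, (v (M + 2) o, z o)))
        = H Γ q (fun o => (v (M + 2) o, (v (i + 1) o, z o))) := by
      apply H_congr Γ hq <;>
      · intro o o' g h
        simp only [Prod.smul_mk, Prod.mk.injEq] at h ⊢
        tauto
    rw [← hD]
    simp only [ha]
    unfold D
    linarith
  have hsum : ∑ i ∈ Finset.range (M + 1), (a i - a (i + 1)) ≤
      ∑ _i ∈ Finset.range (M + 1), S / (((M + 2 : ℕ) : ℝ) - 1) := by
    rw [Finset.sum_range_sub']
    have hr : ∑ _i ∈ Finset.range (M + 1), S / (((M + 2 : ℕ) : ℝ) - 1) = S := by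
      rw [Finset.sum_const, Finset.card_range, nsmul_eq_mul]
      have : (((M + 2 : ℕ) : ℝ) - 1) = ((M + 1 : ℕ) : ℝ) := by push_cast; ring
      rw [this]
      have h0 : ((M + 1 : ℕ) : ℝ) ≠ 0 := by positivity
      field_simp
    rw [hr]
    have c1 := H_cond_le Γ hq hY (v (M + 2)) (v 0) z
    have e1 : H Γ q (fun o => (v (M + 2) o, v 0 o, z o))
        = H Γ q (fun o => (v 0 o, (v (M + 2) o, z o))) := by
      apply H_congr Γ hq <;>
      · intro o o' g h
        simp only [Prod.smul_mk, Prod.mk.injEq] at h ⊢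
        tauto
    have hl := h.link (M + 1) (by omega)
    simp only [ha, hS]
    rcases hl with hl | hl
    · have f1 : H Γ q (fun o => (v (M + 1) o, (v (M + 2) o, z o)))
          = H Γ p (fun o => (x o, y o, z0 o)) := hl.H_eq Γ
      have f2 : H Γ q (fun o => (v (M + 1) o, z o)) = H Γ p (fun o => (x o, z0 o)) :=
        (hl.map Γ (fun a : Γ × Γ × Y => (a.1, a.2.2)) (fun g a => rfl)).H_eq Γ
      have f3 : H Γ q (fun o => (v (M + 2) o, z o)) = H Γ p (fun o => (y o, z0 o)) :=
        (hl.map Γ (fun a : Γ × Γ × Y => a.2) (fun g a => rfl)).H_eq Γ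
      have f4 : H Γ q z = H Γ p z0 :=
        (hl.map Γ (fun a : Γ × Γ × Y => a.2.2) (fun g a => rfl)).H_eq Γ
      linarith
    · have f1 : H Γ q (fun o => (v (M + 1) o, (v (M + 2) o, z o)))
          = H Γ p (fun o => (y o, x o, z0 o)) := hl.H_eq Γ
      have f1' : H Γ p (fun o => (y o, x o, z0 o)) = H Γ p (fun o => (x o, y o, z0 o)) := by
        apply H_congr Γ hp <;>
        · intro o o' g h
          simp only [Prod.smul_mk, Prod.mk.injEq] at h ⊢
          tauto
      have f2 : H Γ q (fun o => (v (M + 1) o, z o)) = H Γ p (fun o => (y o, z0 o)) :=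
        (hl.map Γ (fun a : Γ × Γ × Y => (a.1, a.2.2)) (fun g a => rfl)).H_eq Γ
      have f3 : H Γ q (fun o => (v (M + 2) o, z o)) = H Γ p (fun o => (x o, z0 o)) :=
        (hl.map Γ (fun a : Γ × Γ × Y => a.2) (fun g a => rfl)).H_eq Γ
      have f4 : H Γ q z = H Γ p z0 :=
        (hl.map Γ (fun a : Γ × Γ × Y => a.2.2) (fun g a => rfl)).H_eq Γ
      linarith
  obtain ⟨i, hi, hle⟩ := Finset.exists_le_of_sum_le
    (Finset.nonempty_range_iff.mpr (Nat.succ_ne_zero M)) hsum
  rw [Finset.mem_range] at hi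
  refine ⟨i, by omega, ?_⟩
  rw [hstep i (by omega)]
  linarith

/-- the next member of the chain is independent of an earlier pair given `(v N, z)` -/
theorem Chain.next (h : Chain Γ q v z p x y z0 (N + 1)) (hq : IsP q) (hY : Fr Γ Y) {i : ℕ}
    (hi : i + 1 ≤ N) :
    CI Γ q (fun o => (v i o, v (i + 1) o)) (v (N + 1)) (fun o => (v N o, z o)) := by
  have hm := h.markov N (by omega)
  refine CI.left Γ hq (Fr_prod_left Γ (Fr_group Γ)) hm ?_
  intro o o' g h
  simp only [Prod.smul_mk, Prod.mk.injEq] at h ⊢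
  have a := congrFun h.1 ⟨i, by omega⟩
  have b := congrFun h.1 ⟨i + 1, by omega⟩
  exact ⟨a, b⟩

theorem Chain.restrict (h : Chain Γ q v z p x y z0 (N + 1)) : Chain Γ q v z p x y z0 N :=
  ⟨fun i hi => h.link i (by omega), fun i hi => h.markov i (by omega)⟩

end SubExp
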