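import Pool.Agent.Lib.MP_fee02f_an.SX.E05
import Pool.Agent.Lib.MP_fee02f_an.SX.E06

/-!
Doubling of the third object (F2, F3).

Let `V` be independent of `(x, y)` given `w`. Then (`CI`, `CI.left`) `H(x y w V) - H(w V)`,
`H(x w V) - H(w V)`, `H(y w V) - H(w V)` are `H(x y w) - H(w)` etc., so
`D(x, y, V) - D(x, y, w) = H(w | x V) + H(w | y V) - 2 H(w | x y V) =: I`, and `D(x, y, V) ≤ δ`.
Glue two copies of `w` over `(x, y, V)` (`glue` with `Z = (x, y, V)`, `X = Y = w`): `w1`, `w2`.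
Then `H(x y V w1 w2) = H(x y V) + 2 H(w | x y V)` and `H(x V w1 w2) ≤ H(x V) + 2 H(w | x V)`, so that
`D(x, y, (w1, w2)) ≥ D(x, y, (w1, w2, V)) ≥ D(x, y, V) - 2 I = 2 D(x, y, w) - D(x, y, V)`.
Last claim: `H(f w2 | f w1) ≥ H(f w2 | f w1, x, y, V) = H(f w | x, y, V)` by `H_cond_le`, `CI.left`,
`CI.right`. -/

open scoped BigOperators

namespace SubExp

universe u

theorem double {Γ : Type u} [Group Γ] {W Y : Type*} [MulAction Γ W] [MulAction Γ Y]
    (hW : Fr Γ W) (hY : Fr Γ Y) {Ω : Type u} [Fintype Ω] {p : Ω → ℝ} (hp : IsP p)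
    (x y V : Ω → Γ) (w : Ω → W) (E : Set Γ) (hxy : ∀ o, (x o)⁻¹ * y o ∈ E)
    (δ : ℝ) (hδ : Dle Γ E δ) (hci : CI Γ p (fun o => (x o, y o)) V w)
    (f : W → Y) (hf : ∀ (g : Γ) a, f (g • a) = g • f a) :
    ∃ (Ω' : Type u) (_ : Fintype Ω') (q : Ω' → ℝ) (x' y' : Ω' → Γ) (w1 w2 : Ω' → W), IsP q ∧
      SameLaw Γ q (fun o => (x' o, y' o, w1 o)) p (fun o => (x o, y o, w o)) ∧
      SameLaw Γ q (fun o => (x' o, y' o, w2 o)) p (fun o => (x o, y o, w o)) ∧
      2 * D Γ p x y w - δ ≤ D Γ q x' y' (fun o => (w1 o, w2 o)) ∧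
      H Γ p (fun o => (f (w o), x o, y o, V o)) - H Γ p (fun o => (x o, y o, V o))
        ≤ H Γ q (fun o => (f (w1 o), f (w2 o))) - H Γ q (fun o => f (w1 o)) := by
  classical
  have hZ : Fr Γ (Γ × Γ × Γ) := Fr_prod_left Γ (Fr_group Γ)
  obtain ⟨Ω', hΩ', q, w1, w2, Z, hq, h1, h2, hc⟩ := glue Γ hZ hp hp w
    (fun o => (x o, y o, V o)) w (fun o => (x o, y o, V o)) (SameLaw.of_eq Γ p fun _ => rfl)
  set x' : Ω' → Γ := fun o => (Z o).1 with hx'
  set y' : Ω' → Γ := fun o => (Z o).2.1 with hy'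
  set V' : Ω' → Γ := fun o => (Z o).2.2 with hV'
  have hZe : ∀ o, Z o = (x' o, y' o, V' o) := fun o => rfl
  have s1 : SameLaw Γ q (fun o => (x' o, y' o, w1 o)) p (fun o => (x o, y o, w o)) :=
    h1.map Γ (fun a : W × Γ × Γ × Γ => (a.2.1, a.2.2.1, a.1)) (fun g a => rfl)
  have s2 : SameLaw Γ q (fun o => (x' o, y' o, w2 o)) p (fun o => (x o, y o, w o)) :=
    h2.map Γ (fun a : W × Γ × Γ × Γ => (a.2.1, a.2.2.1, a.1)) (fun g a => rfl)
  refine ⟨Ω', hΩ', q, x', y', w1, w2, hq, s1, s2, ?_, ?_⟩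
  · -- entropies under `q`
    have eA1 : H Γ q (fun o => (w1 o, Z o)) = H Γ p (fun o => (w o, x o, y o, V o)) := h1.H_eq Γ
    have eA2 : H Γ q (fun o => (w2 o, Z o)) = H Γ p (fun o => (w o, x o, y o, V o)) := h2.H_eq Γ
    have eZ : H Γ q Z = H Γ p (fun o => (x o, y o, V o)) :=
      (h1.map Γ (fun a : W × Γ × Γ × Γ => a.2) (fun g a => rfl)).H_eq Γ
    have exy : H Γ q (fun o => (x' o, y' o)) = H Γ p (fun o => (x o, y o)) :=
      (h1.map Γ (fun a : W × Γ × Γ × Γ => (a.2.1, a.2.2.1)) (fun g a => rfl)).H_eq Γ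
    have exV : H Γ q (fun o => (x' o, V' o)) = H Γ p (fun o => (x o, V o)) :=
      (h1.map Γ (fun a : W × Γ × Γ × Γ => (a.2.1, a.2.2.2)) (fun g a => rfl)).H_eq Γ
    have eyV : H Γ q (fun o => (y' o, V' o)) = H Γ p (fun o => (y o, V o)) :=
      (h1.map Γ (fun a : W × Γ × Γ × Γ => (a.2.2.1, a.2.2.2)) (fun g a => rfl)).H_eq Γ
    have ex1 : H Γ q (fun o => (w1 o, x' o, V' o)) = H Γ p (fun o => (w o, x o, V o)) :=
      (h1.map Γ (fun a : W × Γ × Γ × Γ => (a.1, a.2.1, a.2.2.2)) (fun g a => rfl)).H_eq Γ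
    have ex2 : H Γ q (fun o => (w2 o, x' o, V' o)) = H Γ p (fun o => (w o, x o, V o)) :=
      (h2.map Γ (fun a : W × Γ × Γ × Γ => (a.1, a.2.1, a.2.2.2)) (fun g a => rfl)).H_eq Γ
    have ey1 : H Γ q (fun o => (w1 o, y' o, V' o)) = H Γ p (fun o => (w o, y o, V o)) :=
      (h1.map Γ (fun a : W × Γ × Γ × Γ => (a.1, a.2.2.1, a.2.2.2)) (fun g a => rfl)).H_eq Γ
    have ey2 : H Γ q (fun o => (w2 o, y' o, V' o)) = H Γ p (fun o => (w o, y o, V o)) :=
      (h2.map Γ (fun a : W × Γ × Γ × Γ => (a.1, a.2.2.1, a.2.2.2)) (fun g a => rfl)).H_eq Γ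
    have hanti : D Γ q x' y' (fun o => (w1 o, w2 o, V' o)) ≤ D Γ q x' y' (fun o => (w1 o, w2 o)) := by
      apply D_anti Γ hq
      intro o o' g h
      simp only [Prod.smul_mk, Prod.mk.injEq] at h ⊢
      tauto
    have hfull : H Γ q (fun o => (x' o, y' o, (w1 o, w2 o, V' o)))
        = H Γ q (fun o => (w1 o, w2 o, Z o)) := by
      apply H_congr Γ hq
      · intro o o' g h
        simp only [hZe, Prod.smul_mk, Prod.mk.injEq] at h ⊢
        tauto
      · intro o o' g h
        simp only [hZe, Prod.smul_mk, Prod.mk.injEq] at h ⊢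
        tauto
    have hxb : H Γ q (fun o => (x' o, (w1 o, w2 o, V' o))) + H Γ q (fun o => (x' o, V' o))
        ≤ H Γ q (fun o => (w1 o, x' o, V' o)) + H Γ q (fun o => (w2 o, x' o, V' o)) := by
      have := H_submod Γ hq (Fr_prod_left Γ (Fr_group Γ) : Fr Γ (Γ × Γ)) w1 w2
        (fun o => (x' o, V' o))
      have e : H Γ q (fun o => (x' o, (w1 o, w2 o, V' o)))
          = H Γ q (fun o => (w1 o, w2 o, (x' o, V' o))) := by
        apply H_congr Γ hq
        · intro o o' g h
          simp only [Prod.smul_mk, Prod.mk.injEq] at h ⊢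
          tauto
        · intro o o' g h
          simp only [Prod.smul_mk, Prod.mk.injEq] at h ⊢
          tauto
      rw [e]; exact this
    have hyb : H Γ q (fun o => (y' o, (w1 o, w2 o, V' o))) + H Γ q (fun o => (y' o, V' o))
        ≤ H Γ q (fun o => (w1 o, y' o, V' o)) + H Γ q (fun o => (w2 o, y' o, V' o)) := by
      have := H_submod Γ hq (Fr_prod_left Γ (Fr_group Γ) : Fr Γ (Γ × Γ)) w1 w2
        (fun o => (y' o, V' o))
      have e : H Γ q (fun o => (y' o, (w1 o, w2 o, V' o)))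
          = H Γ q (fun o => (w1 o, w2 o, (y' o, V' o))) := by
        apply H_congr Γ hq
        · intro o o' g h
          simp only [Prod.smul_mk, Prod.mk.injEq] at h ⊢
          tauto
        · intro o o' g h
          simp only [Prod.smul_mk, Prod.mk.injEq] at h ⊢
          tauto
      rw [e]; exact this
    -- entropies under `p`
    have c0 : H Γ p (fun o => ((x o, y o), V o, w o)) + H Γ p w
        = H Γ p (fun o => ((x o, y o), w o)) + H Γ p (fun o => (V o, w o)) := hci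
    have c1 : H Γ p (fun o => (x o, V o, w o)) + H Γ p w
        = H Γ p (fun o => (x o, w o)) + H Γ p (fun o => (V o, w o)) := by
      refine CI.left Γ hp hW hci (X' := x) ?_
      intro o o' g h
      simp only [Prod.smul_mk, Prod.mk.injEq] at h ⊢
      tauto
    have c2 : H Γ p (fun o => (y o, V o, w o)) + H Γ p w
        = H Γ p (fun o => (y o, w o)) + H Γ p (fun o => (V o, w o)) := by
      refine CI.left Γ hp hW hci (X' := y) ?_
      intro o o' g h
      simp only [Prod.smul_mk, Prod.mk.injEq] at h ⊢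
      tauto
    have e0 : H Γ p (fun o => ((x o, y o), V o, w o)) = H Γ p (fun o => (w o, x o, y o, V o)) := by
      apply H_congr Γ hp <;>
      · intro o o' g h
        simp only [Prod.smul_mk, Prod.mk.injEq] at h ⊢
        tauto
    have e0' : H Γ p (fun o => ((x o, y o), w o)) = H Γ p (fun o => (x o, y o, w o)) := by
      apply H_congr Γ hp <;>
      · intro o o' g h
        simp only [Prod.smul_mk, Prod.mk.injEq] at h ⊢
        tauto
    have e1 : H Γ p (fun o => (x o, V o, w o)) = H Γ p (fun o => (w o, x o, V o)) := by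
      apply H_congr Γ hp <;>
      · intro o o' g h
        simp only [Prod.smul_mk, Prod.mk.injEq] at h ⊢
        tauto
    have e2 : H Γ p (fun o => (y o, V o, w o)) = H Γ p (fun o => (w o, y o, V o)) := by
      apply H_congr Γ hp <;>
      · intro o o' g h
        simp only [Prod.smul_mk, Prod.mk.injEq] at h ⊢
        tauto
    have hD : D Γ p x y V ≤ δ := hδ Ω inferInstance p x y V hp hxy
    have hc' : H Γ q (fun o => (w1 o, w2 o, Z o)) + H Γ q Z
        = H Γ q (fun o => (w1 o, Z o)) + H Γ q (fun o => (w2 o, Z o)) := hc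
    refine le_trans ?_ hanti
    unfold D at hD ⊢
    rw [hfull]
    linarith
  · have k := H_cond_le Γ hq hY (fun o => f (w2 o)) Z (fun o => f (w1 o))
    have cl : CI Γ q (fun o => f (w1 o)) w2 Z := by
      refine CI.left Γ hq hZ hc ?_
      intro o o' g h
      simp only [Prod.smul_mk, Prod.mk.injEq] at h ⊢
      rw [← hf, h.1]
    have clr : CI Γ q (fun o => f (w1 o)) (fun o => f (w2 o)) Z := by
      refine CI.right Γ hq hZ cl ?_
      intro o o' g h
      simp only [Prod.smul_mk, Prod.mk.injEq] at h ⊢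
      rw [← hf, h.1]
    have clr' : H Γ q (fun o => (f (w1 o), f (w2 o), Z o)) + H Γ q Z
        = H Γ q (fun o => (f (w1 o), Z o)) + H Γ q (fun o => (f (w2 o), Z o)) := clr
    have eZ : H Γ q Z = H Γ p (fun o => (x o, y o, V o)) :=
      (h1.map Γ (fun a : W × Γ × Γ × Γ => a.2) (fun g a => rfl)).H_eq Γ
    have eA : H Γ q (fun o => (f (w2 o), Z o)) = H Γ p (fun o => (f (w o), x o, y o, V o)) :=
      (h2.map Γ (fun a : W × Γ × Γ × Γ => (f a.1, a.2)) (fun g a => by
        simp only [Prod.smul_fst, Prod.smul_snd, Prod.smul_mk, hf])).H_eq Γ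
    have t1 : H Γ q (fun o => (f (w2 o), Z o, f (w1 o)))
        = H Γ q (fun o => (f (w1 o), f (w2 o), Z o)) := by
      apply H_congr Γ hq <;>
      · intro o o' g h
        simp only [Prod.smul_mk, Prod.mk.injEq] at h ⊢
        tauto
    have t2 : H Γ q (fun o => (Z o, f (w1 o))) = H Γ q (fun o => (f (w1 o), Z o)) := by
      apply H_congr Γ hq <;>
      · intro o o' g h
        simp only [Prod.smul_mk, Prod.mk.injEq] at h ⊢
        tauto
    have t3 : H Γ q (fun o => (f (w2 o), f (w1 o))) = H Γ q (fun o => (f (w1 o), f (w2 o))) := by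
      apply H_congr Γ hq <;>
      · intro o o' g h
        simp only [Prod.smul_mk, Prod.mk.injEq] at h ⊢
        tauto
    linarith

end SubExp
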