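import Pool.Agent.Lib.MP_fee02f_an.SX.E03
import Pool.Agent.Lib.MP_fee02f_an.SX.E04

/-!
Entropy and geometry.

`len_ent`: `cond_gibbs` with `A = oc (z, w)`, `f` induced by the first projection and
`q (oc (a, b)) = exp (-(C * d a b)) / C` (well defined by `d_inv`); in a fibre over `oc a` choose
representatives `(a, b)` with the fixed first entry `a`; distinct classes give distinct `b`, so that
the sum is at most `C⁻¹ * ∑ exp (-(C * d a b)) ≤ 1` by `d_growth`; `-log q = C d + log C ≤ C d + C`.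

`phi_ent`: the same with `q (oc (g, a)) = exp (-(C * √(Φ a g))) / C`, the first entry of the
representatives being `1 : Γ`, and `H(x) = 0`.

`sqrt_le`, `pot_mid`: Cauchy-Schwarz (`∑ p √φ ≤ √(∑ p φ)`, `(∑ p d)² ≤ ∑ p d²`) and `mid_le`.
-/

open scoped BigOperators

namespace SubExp

variable {Γ Y : Type*} [Group Γ] [MulAction Γ Y] (G : Geo Γ Y)
  {Ω : Type*} [Fintype Ω] {p : Ω → ℝ}

theorem E11_Cpos : 0 < G.C := lt_of_lt_of_le one_pos G.one_le

theorem E11_log : Real.log G.C ≤ G.C := by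
  have h := Real.log_le_sub_one_of_pos (E11_Cpos G)
  linarith

theorem E11_nlog (t : ℝ) : -Real.log (Real.exp (-(G.C * t)) / G.C) ≤ G.C * t + G.C := by
  rw [Real.log_div (Real.exp_ne_zero _) (E11_Cpos G).ne', Real.log_exp]
  have := E11_log G
  linarith

theorem E11_sum (hp : IsP p) (t : Ω → ℝ) :
    ∑ o, p o * -Real.log (Real.exp (-(G.C * t o)) / G.C) ≤ G.C * ∑ o, p o * t o + G.C := by
  calc ∑ o, p o * -Real.log (Real.exp (-(G.C * t o)) / G.C)
      ≤ ∑ o, p o * (G.C * t o + G.C) :=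
        Finset.sum_le_sum fun o _ => mul_le_mul_of_nonneg_left (E11_nlog G (t o)) (hp.pos o).le
    _ = G.C * ∑ o, p o * t o + G.C := by
        have h1 : ∀ o, p o * (G.C * t o + G.C) = G.C * (p o * t o) + p o * G.C := fun o => by ring
        rw [Finset.sum_congr rfl fun o _ => h1 o, Finset.sum_add_distrib, ← Finset.mul_sum,
          ← Finset.sum_mul, hp.sum_one, one_mul]

theorem len_ent (hp : IsP p) (z w : Ω → Y) :
    H Γ p (fun o => (z o, w o)) - H Γ p z ≤ G.C * ∑ o, p o * G.d (z o) (w o) + G.C := by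
  classical
  let f : Quotient (MulAction.orbitRel Γ (Y × Y)) → Quotient (MulAction.orbitRel Γ Y) :=
    Quotient.lift (fun ab : Y × Y => oc Γ ab.1) (by
      intro a b hab
      rw [oc_eq]
      have h1 : (MulAction.orbitRel Γ (Y × Y)) a b := hab
      rw [MulAction.orbitRel_apply] at h1
      obtain ⟨g, hg⟩ := h1
      refine ⟨g⁻¹, ?_⟩
      have h2 : g • b.1 = a.1 := congrArg Prod.fst hg
      rw [← h2, inv_smul_smul])
  let q : Quotient (MulAction.orbitRel Γ (Y × Y)) → ℝ :=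
    Quotient.lift (fun ab : Y × Y => Real.exp (-(G.C * G.d ab.1 ab.2)) / G.C) (by
      intro a b hab
      have h1 : (MulAction.orbitRel Γ (Y × Y)) a b := hab
      rw [MulAction.orbitRel_apply] at h1
      obtain ⟨g, hg⟩ := h1
      have h2 : g • b.1 = a.1 := congrArg Prod.fst hg
      have h3 : g • b.2 = a.2 := congrArg Prod.snd hg
      show Real.exp (-(G.C * G.d a.1 a.2)) / G.C = Real.exp (-(G.C * G.d b.1 b.2)) / G.C
      rw [← h2, ← h3, G.d_inv])
  have hqoc : ∀ a b : Y, q (oc Γ (a, b)) = Real.exp (-(G.C * G.d a b)) / G.C := fun a b => rfl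
  have hfoc : ∀ a b : Y, f (oc Γ (a, b)) = oc Γ a := fun a b => rfl
  have hq0 : ∀ b, 0 ≤ q b := by
    intro b
    induction b using Quotient.inductionOn with
    | h ab => exact div_nonneg (Real.exp_nonneg _) (E11_Cpos G).le
  have key := cond_gibbs hp (fun o => oc Γ (z o, w o)) f q hq0
    (fun o => by
      show 0 < Real.exp (-(G.C * G.d (z o) (w o))) / G.C
      exact div_pos (Real.exp_pos _) (E11_Cpos G))
    (by
      intro c s hs
      obtain ⟨a, rfl⟩ := Quotient.exists_rep c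
      have hrep : ∀ b ∈ s, ∃ y : Y, b = oc Γ (a, y) := by
        intro b hb
        obtain ⟨⟨a', b'⟩, rfl⟩ := Quotient.exists_rep b
        have h1 : oc Γ a' = oc Γ a := hs _ hb
        obtain ⟨g, hg⟩ := (oc_eq Γ a' a).1 h1
        refine ⟨g • b', ?_⟩
        show oc Γ (a', b') = oc Γ (a, g • b')
        rw [oc_eq]
        exact ⟨g, by rw [Prod.smul_mk, hg]⟩
      have hne : Nonempty Y := ⟨a⟩
      choose! r hr using hrep
      have h2 : ∑ b ∈ s, q b = ∑ b ∈ s, Real.exp (-(G.C * G.d a (r b))) / G.C := by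
        refine Finset.sum_congr rfl fun b hb => ?_
        rw [← hqoc, ← hr b hb]
      rw [h2, ← Finset.sum_div, div_le_one (E11_Cpos G)]
      have hinj : Set.InjOn r (s : Set _) := by
        intro b hb b' hb' hbb
        rw [hr b hb, hr b' hb', hbb]
      have h3 := G.d_growth a (s.image r)
      rwa [Finset.sum_image hinj] at h3)
  have h4 : ∀ o, -Real.log (q (oc Γ (z o, w o))) =
      -Real.log (Real.exp (-(G.C * G.d (z o) (w o))) / G.C) := fun o => rfl
  have h5 : ent p (fun o => f (oc Γ (z o, w o))) = H Γ p z := rfl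
  have h6 : ent p (fun o => oc Γ (z o, w o)) = H Γ p (fun o => (z o, w o)) := rfl
  rw [← h5, ← h6]
  refine key.trans ?_
  exact E11_sum G hp (fun o => G.d (z o) (w o))

theorem phi_ent (hp : IsP p) (z : Ω → Y) (x : Ω → Γ) :
    H Γ p (fun o => (x o, z o)) ≤ G.C * ∑ o, p o * √(G.Φ (z o) (x o)) + G.C := by
  classical
  let q : Quotient (MulAction.orbitRel Γ (Γ × Y)) → ℝ :=
    Quotient.lift (fun ab : Γ × Y => Real.exp (-(G.C * √(G.Φ ab.2 ab.1))) / G.C) (by
      intro a b hab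
      have h1 : (MulAction.orbitRel Γ (Γ × Y)) a b := hab
      rw [MulAction.orbitRel_apply] at h1
      obtain ⟨g, hg⟩ := h1
      have h2 : g * b.1 = a.1 := congrArg Prod.fst hg
      have h3 : g • b.2 = a.2 := congrArg Prod.snd hg
      show Real.exp (-(G.C * √(G.Φ a.2 a.1))) / G.C = Real.exp (-(G.C * √(G.Φ b.2 b.1))) / G.C
      rw [← h2, ← h3, G.Φ_inv])
  have hqoc : ∀ (a : Γ) (b : Y), q (oc Γ (a, b)) = Real.exp (-(G.C * √(G.Φ b a))) / G.C :=
    fun a b => rfl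
  have hq0 : ∀ b, 0 ≤ q b := by
    intro b
    induction b using Quotient.inductionOn with
    | h ab => exact div_nonneg (Real.exp_nonneg _) (E11_Cpos G).le
  have key := gibbs hp (fun o => oc Γ (x o, z o)) q hq0
    (fun o => by
      show 0 < Real.exp (-(G.C * √(G.Φ (z o) (x o)))) / G.C
      exact div_pos (Real.exp_pos _) (E11_Cpos G))
    (by
      intro s
      have hrep : ∀ b : Quotient (MulAction.orbitRel Γ (Γ × Y)), ∃ y : Y,
          b = oc Γ ((1 : Γ), y) := by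
        intro b
        obtain ⟨⟨a', b'⟩, rfl⟩ := Quotient.exists_rep b
        refine ⟨a'⁻¹ • b', ?_⟩
        show oc Γ (a', b') = oc Γ ((1 : Γ), a'⁻¹ • b')
        rw [oc_eq]
        exact ⟨a'⁻¹, by rw [Prod.smul_mk, smul_eq_mul, inv_mul_cancel]⟩
      choose r hr using hrep
      have h2 : ∑ b ∈ s, q b = ∑ b ∈ s, Real.exp (-(G.C * √(G.Φ (r b) 1))) / G.C := by
        refine Finset.sum_congr rfl fun b hb => ?_
        rw [← hqoc, ← hr b]
      rw [h2, ← Finset.sum_div, div_le_one (E11_Cpos G)]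
      have hinj : Set.InjOn r (s : Set _) := by
        intro b _ b' _ hbb
        rw [hr b, hr b', hbb]
      have h3 := G.Φ_growth 1 (s.image r)
      rwa [Finset.sum_image hinj] at h3)
  have h6 : ent p (fun o => oc Γ (x o, z o)) = H Γ p (fun o => (x o, z o)) := rfl
  rw [← h6]
  refine key.trans ?_
  exact E11_sum G hp (fun o => √(G.Φ (z o) (x o)))

theorem pot_nonneg (hp : IsP p) (x y : Ω → Γ) (z : Ω → Y) : 0 ≤ Pot G p x y z :=
  Finset.sum_nonneg fun o _ =>
    mul_nonneg (hp.pos o).le (add_nonneg (G.Φ_nonneg _ _) (G.Φ_nonneg _ _))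

/-- Cauchy-Schwarz for an expectation -/
theorem E11_cs (hp : IsP p) (t : Ω → ℝ) : (∑ o, p o * t o) ^ 2 ≤ ∑ o, p o * t o ^ 2 := by
  have h1 := Finset.sum_mul_sq_le_sq_mul_sq Finset.univ (fun o => √(p o)) (fun o => √(p o) * t o)
  have h2 : ∀ o, √(p o) * (√(p o) * t o) = p o * t o := fun o => by
    rw [← mul_assoc, Real.mul_self_sqrt (hp.pos o).le]
  have h3 : ∀ o, √(p o) ^ 2 = p o := fun o => Real.sq_sqrt (hp.pos o).le
  have h4 : ∀ o, (√(p o) * t o) ^ 2 = p o * t o ^ 2 := fun o => by rw [mul_pow, h3]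
  simp only [h2, h3, h4, hp.sum_one, one_mul] at h1
  exact h1

theorem E11_sqrt (hp : IsP p) (φ : Ω → ℝ) (hφ : ∀ o, 0 ≤ φ o) (B : ℝ) (hB : 0 ≤ B)
    (h : ∑ o, p o * φ o ≤ B ^ 2) : ∑ o, p o * √(φ o) ≤ B := by
  refine le_of_sq_le_sq ?_ hB
  refine (E11_cs hp fun o => √(φ o)).trans ?_
  refine le_trans (le_of_eq ?_) h
  exact Finset.sum_congr rfl fun o _ => by rw [Real.sq_sqrt (hφ o)]

theorem sqrt_le (hp : IsP p) (x y : Ω → Γ) (z : Ω → Y) (B : ℝ) (hB : 0 ≤ B)
    (h : Pot G p x y z ≤ B ^ 2) :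
    ∑ o, p o * √(G.Φ (z o) (x o)) ≤ B ∧
    ∑ o, p o * √(G.Φ (z o) (x o)) + ∑ o, p o * √(G.Φ (z o) (y o)) ≤ 2 * B := by
  have h1 : ∑ o, p o * √(G.Φ (z o) (x o)) ≤ B := by
    refine E11_sqrt hp _ (fun o => G.Φ_nonneg _ _) B hB (le_trans ?_ h)
    exact Finset.sum_le_sum fun o _ => mul_le_mul_of_nonneg_left
      (le_add_of_nonneg_right (G.Φ_nonneg _ _)) (hp.pos o).le
  have h2 : ∑ o, p o * √(G.Φ (z o) (y o)) ≤ B := by
    refine E11_sqrt hp _ (fun o => G.Φ_nonneg _ _) B hB (le_trans ?_ h)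
    exact Finset.sum_le_sum fun o _ => mul_le_mul_of_nonneg_left
      (le_add_of_nonneg_left (G.Φ_nonneg _ _)) (hp.pos o).le
  exact ⟨h1, by linarith⟩

theorem pot_mid (hp : IsP p) (x y : Ω → Γ) (z w : Ω → Y) (B : ℝ) (hB : 0 ≤ B)
    (hz : Pot G p x y z ≤ B ^ 2) (hw : Pot G p x y w ≤ B ^ 2) :
    Pot G p x y (fun o => G.mid (z o) (w o))
      ≤ (Pot G p x y z + Pot G p x y w) / 2 - (∑ o, p o * G.d (z o) (w o)) ^ 2 / G.C
        + G.C * (1 + 2 * B) := by
  obtain ⟨-, hz2⟩ := sqrt_le G hp x y z B hB hz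
  obtain ⟨-, hw2⟩ := sqrt_le G hp x y w B hB hw
  have hC := E11_Cpos G
  have h1 : ∀ o, 2 * (p o * (G.Φ (G.mid (z o) (w o)) (x o) + G.Φ (G.mid (z o) (w o)) (y o))) ≤
      p o * (G.Φ (z o) (x o) + G.Φ (z o) (y o)) + p o * (G.Φ (w o) (x o) + G.Φ (w o) (y o)) -
        2 / G.C * (p o * G.d (z o) (w o) ^ 2) + G.C * (2 * p o +
        (p o * √(G.Φ (z o) (x o)) + p o * √(G.Φ (z o) (y o))) +
        (p o * √(G.Φ (w o) (x o)) + p o * √(G.Φ (w o) (y o)))) := by
    intro o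
    have h2 := G.mid_le (z o) (w o) (x o)
    have h3 := G.mid_le (z o) (w o) (y o)
    have h4 := mul_le_mul_of_nonneg_left (add_le_add h2 h3) (hp.pos o).le
    have h5 : G.d (z o) (w o) ^ 2 / G.C = 1 / G.C * G.d (z o) (w o) ^ 2 := by ring
    rw [h5] at h4
    have h6 : 2 / G.C = 2 * (1 / G.C) := by ring
    rw [h6]
    generalize 1 / G.C = c at h4 ⊢
    nlinarith [h4]
  have h7 := Finset.sum_le_sum fun o (_ : o ∈ Finset.univ) => h1 o
  simp only [Finset.sum_add_distrib, Finset.sum_sub_distrib, ← Finset.mul_sum, hp.sum_one]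
    at h7
  have h8 := E11_cs hp (fun o => G.d (z o) (w o))
  have h9 : (∑ o, p o * G.d (z o) (w o)) ^ 2 / G.C ≤
      (∑ o, p o * G.d (z o) (w o) ^ 2) / G.C := div_le_div_of_nonneg_right h8 hC.le
  have h10 : 2 / G.C * ∑ o, p o * G.d (z o) (w o) ^ 2 =
      2 * ((∑ o, p o * G.d (z o) (w o) ^ 2) / G.C) := by ring
  rw [h10] at h7
  have h11 : G.C * (2 * 1 +
      (∑ o, p o * √(G.Φ (z o) (x o)) + ∑ o, p o * √(G.Φ (z o) (y o))) +
      (∑ o, p o * √(G.Φ (w o) (x o)) + ∑ o, p o * √(G.Φ (w o) (y o)))) ≤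
      G.C * (2 + 2 * B + 2 * B) := mul_le_mul_of_nonneg_left (by linarith) hC.le
  have h12 : Pot G p x y (fun o => G.mid (z o) (w o)) =
      ∑ o, p o * (G.Φ (G.mid (z o) (w o)) (x o) + G.Φ (G.mid (z o) (w o)) (y o)) := rfl
  have h13 : Pot G p x y z = ∑ o, p o * (G.Φ (z o) (x o) + G.Φ (z o) (y o)) := rfl
  have h14 : Pot G p x y w = ∑ o, p o * (G.Φ (w o) (x o) + G.Φ (w o) (y o)) := rfl
  rw [h12, h13, h14]
  have h15 : G.C * (2 + 2 * B + 2 * B) = 2 * (G.C * (1 + 2 * B)) := by ring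
  linarith

end SubExp
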