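import Pool.Agent.Lib.MP_fee02f_an.SX.E07
import Pool.Agent.Lib.MP_fee02f_an.SX.E09
import Pool.Agent.Lib.MP_fee02f_an.SX.E10
import Pool.Agent.Lib.MP_fee02f_an.SX.E11

/-!
One step.

Take a chain of length `N + 1` (`exists_chain`), the index `i` of `Chain.pick` (for `N`), and apply
`double` to `v i`, `v (i+1)`, `V = v (N+1)`, `w = (v N, z)`, `f = Prod.snd`, to get `w1`, `w2`. The new
third object is `mid (f w1) (f w2)`, which is determined by `(w1, w2)` (`D_anti`). Here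
`H(x z0) + H(y z0) - H(z0) - H(x y z0) ≤ H(x z0) ≤ C B + C ≤ 2 C B` (`phi_ent`, `sqrt_le`) and
`H(f w | v i, v (i+1), V) ≥ H(z | tup (N+1)) ≥ (N+1) D - N δ ≥ t` (`H_cond_le`, `Chain.cond`), so by
`double` and `len_ent` the mean of `d (f w1) (f w2)` is at least `(t - C) / C ≥ t / (2 C)`. The
potentials of `f w1` and `f w2` are that of `z0` (`SameLaw.sum_eq`; the potential is symmetric in
`x`, `y`), and `pot_mid` gives the last claim.
-/

open scoped BigOperators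

namespace SubExp

universe u

theorem step {Γ : Type u} {Y : Type*} [Group Γ] [MulAction Γ Y] (G : Geo Γ Y) (E : Set Γ)
    (hE : ∀ g ∈ E, g⁻¹ ∈ E) (δ : ℝ) (hδ : Dle Γ E δ)
    {Ω : Type u} [Fintype Ω] {p : Ω → ℝ} (hp : IsP p) (x y : Ω → Γ) (z : Ω → Y)
    (hxy : ∀ o, (x o)⁻¹ * y o ∈ E) (B : ℝ) (hB : 1 ≤ B) (hpot : Pot G p x y z ≤ B ^ 2)
    (N : ℕ) (hN : 2 ≤ N) (t : ℝ) (ht1 : 2 * G.C ≤ t)
    (ht2 : t ≤ (N + 1) * D Γ p x y z - N * δ) :
    ∃ (Ω' : Type u) (_ : Fintype Ω') (q : Ω' → ℝ) (x' y' : Ω' → Γ) (z' : Ω' → Y), IsP q ∧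
      (∀ o, (x' o)⁻¹ * y' o ∈ E) ∧
      2 * (D Γ p x y z - 2 * G.C * B / (N - 1)) - δ ≤ D Γ q x' y' z' ∧
      Pot G q x' y' z' ≤ Pot G p x y z - (t / (2 * G.C)) ^ 2 / G.C + G.C * (1 + 2 * B) := by
  have hC := G.one_le
  have hC0 : 0 < G.C := lt_of_lt_of_le one_pos hC
  have hB0 : 0 ≤ B := le_trans zero_le_one hB
  have hY : Fr Γ Y := G.free
  obtain ⟨Ω1, inst1, q1, v, z1, hq1, hch⟩ := exists_chain Γ hY hp x y z (N + 1)
  have hchN : Chain Γ q1 v z1 p x y z N := hch.restrict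
  obtain ⟨i, hi, hDi⟩ := hchN.pick hq1 hp hY hN
  have hmem : ∀ o, (v i o)⁻¹ * v (i + 1) o ∈ E := fun o =>
    hch.mem hq1 hp E hE hxy (by omega) o
  have hci := hch.next hq1 hY (i := i) (by omega)
  obtain ⟨Ω2, inst2, q2, x', y', w1, w2, hq2, sl1, sl2, hD2, hH⟩ :=
    double (Fr_prod_right Γ (α := Γ) hY) hY hq1 (v i) (v (i + 1)) (v (N + 1))
      (fun o => (v N o, z1 o)) E hmem δ hδ hci Prod.snd (fun g a => rfl)
  -- the potentials
  have hf : ∀ (g : Γ) (a : Γ × Γ × Y), G.Φ (g • a).2.2 (g • a).1 + G.Φ (g • a).2.2 (g • a).2.1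
      = G.Φ a.2.2 a.1 + G.Φ a.2.2 a.2.1 := by
    intro g a
    show G.Φ (g • a.2.2) (g * a.1) + G.Φ (g • a.2.2) (g * a.2.1) = _
    rw [G.Φ_inv, G.Φ_inv]
  have hpot1 : Pot G q1 (v i) (v (i + 1)) z1 = Pot G p x y z := by
    rcases hch.link i (by omega) with h | h
    · exact h.sum_eq Γ (fun a : Γ × Γ × Y => G.Φ a.2.2 a.1 + G.Φ a.2.2 a.2.1) hf
    · have h1 := h.sum_eq Γ (fun a : Γ × Γ × Y => G.Φ a.2.2 a.1 + G.Φ a.2.2 a.2.1) hf
      refine h1.trans ?_
      unfold Pot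
      refine Finset.sum_congr rfl fun o _ => ?_
      rw [add_comm]
  have hf' : ∀ (g : Γ) (a : Γ × Γ × (Γ × Y)),
      G.Φ (g • a).2.2.2 (g • a).1 + G.Φ (g • a).2.2.2 (g • a).2.1
      = G.Φ a.2.2.2 a.1 + G.Φ a.2.2.2 a.2.1 := by
    intro g a
    show G.Φ (g • a.2.2.2) (g * a.1) + G.Φ (g • a.2.2.2) (g * a.2.1) = _
    rw [G.Φ_inv, G.Φ_inv]
  have hpa : Pot G q2 x' y' (fun o => (w1 o).2) = Pot G p x y z :=
    (sl1.sum_eq Γ (fun a : Γ × Γ × (Γ × Y) => G.Φ a.2.2.2 a.1 + G.Φ a.2.2.2 a.2.1) hf').trans hpot1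
  have hpb : Pot G q2 x' y' (fun o => (w2 o).2) = Pot G p x y z :=
    (sl2.sum_eq Γ (fun a : Γ × Γ × (Γ × Y) => G.Φ a.2.2.2 a.1 + G.Φ a.2.2.2 a.2.1) hf').trans hpot1
  refine ⟨Ω2, inst2, q2, x', y', fun o => G.mid (w1 o).2 (w2 o).2, hq2, ?_, ?_, ?_⟩
  · intro o
    refine sl1.prop Γ hq2 (fun a : Γ × Γ × (Γ × Y) => a.1⁻¹ * a.2.1 ∈ E) ?_ ?_ o
    · intro g a ha
      show (g * a.1)⁻¹ * (g * a.2.1) ∈ E
      have : (g * a.1)⁻¹ * (g * a.2.1) = a.1⁻¹ * a.2.1 := by group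
      rw [this]; exact ha
    · intro o; exact hmem o
  · have h1 : D Γ q2 x' y' (fun o => (w1 o, w2 o))
        ≤ D Γ q2 x' y' (fun o => G.mid (w1 o).2 (w2 o).2) := by
      refine D_anti Γ hq2 x' y' ?_
      intro o o' g h
      have ha : g • w1 o = w1 o' := congrArg Prod.fst h
      have hb : g • w2 o = w2 o' := congrArg Prod.snd h
      show g • G.mid (w1 o).2 (w2 o).2 = G.mid (w1 o').2 (w2 o').2
      rw [← ha, ← hb, ← G.mid_smul]
      rfl
    have hyz : H Γ p (fun o => (y o, z o)) ≤ H Γ p (fun o => (x o, y o, z o)) :=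
      H_mono Γ hp (fun o o' g h => congrArg Prod.snd h)
    have hz0 : 0 ≤ H Γ p z := H_nonneg Γ hp z
    have hxz := phi_ent G hp z x
    have hs := (sqrt_le G hp x y z B hB0 hpot).1
    have hxz' : H Γ p (fun o => (x o, z o)) ≤ 2 * G.C * B := by
      have e1 : G.C * ∑ o, p o * √(G.Φ (z o) (x o)) ≤ G.C * B :=
        mul_le_mul_of_nonneg_left hs hC0.le
      have e2 : G.C ≤ G.C * B := by
        have := mul_le_mul_of_nonneg_left hB hC0.le
        rwa [mul_one] at this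
      linarith
    have hN1 : (0 : ℝ) < (N : ℝ) - 1 := by
      have : (2 : ℝ) ≤ N := by exact_mod_cast hN
      linarith
    have h2 : (H Γ p (fun o => (x o, z o)) + H Γ p (fun o => (y o, z o))
        - H Γ p z - H Γ p (fun o => (x o, y o, z o))) / ((N : ℝ) - 1)
        ≤ 2 * G.C * B / ((N : ℝ) - 1) := by
      refine div_le_div_of_nonneg_right ?_ hN1.le
      linarith
    linarith
  · have hm := pot_mid G hq2 x' y' (fun o => (w1 o).2) (fun o => (w2 o).2) B hB0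
      (by rw [hpa]; exact hpot) (by rw [hpb]; exact hpot)
    rw [hpa, hpb] at hm
    have hlen := len_ent G hq2 (fun o => (w1 o).2) (fun o => (w2 o).2)
    -- lower bound for the conditional entropy
    have hcond := hch.cond hq1 hp hY E hE hxy δ hδ (by omega)
    push_cast at hcond
    have hcl := H_cond_le Γ hq1 (Fr_prod_left Γ (β := Γ × Γ) (Fr_group Γ)) z1 (tup v (N + 1))
      (fun o => (v i o, v (i + 1) o, v (N + 1) o))
    have hsm : ∀ (g : Γ) (o o' : Ω1) (j : ℕ), j ≤ N + 1 → g • tup v (N + 1) o = tup v (N + 1) o' →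
        g • v j o = v j o' := by
      intro g o o' j hj h
      have := congrFun h ⟨j, by omega⟩
      exact this
    have hc1 : H Γ q1 (fun o => (z1 o, tup v (N + 1) o, (v i o, v (i + 1) o, v (N + 1) o)))
        = H Γ q1 (fun o => (tup v (N + 1) o, z1 o)) := by
      refine H_congr Γ hq1 ?_ ?_
      · intro o o' g h
        have ha : g • z1 o = z1 o' := congrArg Prod.fst h
        have hb : g • tup v (N + 1) o = tup v (N + 1) o' :=
          congrArg (fun a => a.2.1) h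
        show (g • tup v (N + 1) o, g • z1 o) = _
        rw [ha, hb]
      · intro o o' g h
        have ha : g • z1 o = z1 o' := congrArg Prod.snd h
        have hb : g • tup v (N + 1) o = tup v (N + 1) o' := congrArg Prod.fst h
        show (g • z1 o, g • tup v (N + 1) o, (g • v i o, g • v (i + 1) o, g • v (N + 1) o)) = _
        rw [ha, hb, hsm g o o' i (by omega) hb, hsm g o o' (i + 1) (by omega) hb,
          hsm g o o' (N + 1) le_rfl hb]
    have hc2 : H Γ q1 (fun o => (tup v (N + 1) o, (v i o, v (i + 1) o, v (N + 1) o)))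
        = H Γ q1 (tup v (N + 1)) := by
      refine H_congr Γ hq1 ?_ ?_
      · intro o o' g h
        exact congrArg Prod.fst h
      · intro o o' g hb
        show (g • tup v (N + 1) o, (g • v i o, g • v (i + 1) o, g • v (N + 1) o)) = _
        rw [hb, hsm g o o' i (by omega) hb, hsm g o o' (i + 1) (by omega) hb,
          hsm g o o' (N + 1) le_rfl hb]
    rw [hc1, hc2] at hcl
    have ht : t ≤ G.C * ∑ o, q2 o * G.d (w1 o).2 (w2 o).2 + G.C := by
      have e1 : t ≤ H Γ q1 (fun o => (tup v (N + 1) o, z1 o)) - H Γ q1 (tup v (N + 1)) := by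
        refine le_trans ht2 (le_trans (le_of_eq ?_) hcond)
        ring
      exact le_trans e1 (le_trans hcl (le_trans hH hlen))
    have hmean : t / (2 * G.C) ≤ ∑ o, q2 o * G.d (w1 o).2 (w2 o).2 := by
      rw [div_le_iff₀ (by positivity)]
      nlinarith
    have ht0 : 0 ≤ t / (2 * G.C) := by
      apply div_nonneg _ (by positivity)
      linarith
    have hsq : (t / (2 * G.C)) ^ 2 ≤ (∑ o, q2 o * G.d (w1 o).2 (w2 o).2) ^ 2 :=
      pow_le_pow_left₀ ht0 hmean 2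
    have hdiv : (t / (2 * G.C)) ^ 2 / G.C ≤ (∑ o, q2 o * G.d (w1 o).2 (w2 o).2) ^ 2 / G.C :=
      div_le_div_of_nonneg_right hsq hC0.le
    linarith

end SubExp
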