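import Pool.Agent.Lib.MP_fee02f_an.SX.E12

/-!
Iteration.

Put `K = 2 + 16 C B / δ`, `d = δ² / (32 C³)`. Claim: for `j ≤ J` there is a law with
`D ≥ δ - K ^ j ε` and `Pot ≤ B² - j d`. Step: with `e = K ^ j ε ≤ δ / 16` (`K ≥ 1`) take
`N = ⌊δ / (2 e)⌋ - 1`, so that `(N + 1) e ≤ δ / 2`, `N ≥ 2`, `N - 1 ≥ δ / (4 e)`, and `t = δ / 2` in
`step`; the new error is at most `2 (e + 2 C B * 4 e / δ) = K e` and the potential drops by at least
`(δ / (4 C))² / C - C (1 + 2 B) ≥ d` (where `G.C ≤ C` is used everywhere). For `j = J` the potential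
would be negative.
-/

open scoped BigOperators

namespace SubExp

universe u

theorem iterate {Γ : Type u} {Y : Type*} [Group Γ] [MulAction Γ Y] (G : Geo Γ Y) (E : Set Γ)
    (hE : ∀ g ∈ E, g⁻¹ ∈ E) (δ : ℝ) (hδ : Dle Γ E δ)
    {Ω : Type u} [Fintype Ω] {p : Ω → ℝ} (hp : IsP p) (x y : Ω → Γ) (z : Ω → Y)
    (hxy : ∀ o, (x o)⁻¹ * y o ∈ E) (B : ℝ) (hB : 1 ≤ B) (hpot : Pot G p x y z ≤ B ^ 2)
    (C : ℝ) (hC : G.C ≤ C) (ε : ℝ) (hε : 0 < ε) (hD : δ - ε ≤ D Γ p x y z) (hδ4 : 4 * C ≤ δ)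
    (herr : C * (1 + 2 * B) ≤ δ ^ 2 / (32 * C ^ 3)) (J : ℕ)
    (hJ : B ^ 2 < J * (δ ^ 2 / (32 * C ^ 3)))
    (hJε : (2 + 16 * C * B / δ) ^ J * ε ≤ δ / 16) : False := by
  have hc1 := G.one_le
  have hC1 : 1 ≤ C := hc1.trans hC
  have hC0 : 0 < C := by linarith
  have hc0 : 0 < G.C := by linarith
  have hδ0 : 0 < δ := by linarith
  have hB0 : 0 < B := by linarith
  obtain ⟨K, hK⟩ : ∃ K : ℝ, K = 2 + 16 * C * B / δ := ⟨_, rfl⟩
  obtain ⟨d, hd⟩ : ∃ d : ℝ, d = δ ^ 2 / (32 * C ^ 3) := ⟨_, rfl⟩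
  rw [← hK] at hJε
  rw [← hd] at herr hJ
  have hd0 : 0 < d := by
    rw [hd]
    positivity
  have hK1 : 1 ≤ K := by
    rw [hK]
    have : 0 ≤ 16 * C * B / δ := by positivity
    linarith
  have key : ∀ j : ℕ, j ≤ J → ∃ (Ω' : Type u) (_ : Fintype Ω') (q : Ω' → ℝ) (x' y' : Ω' → Γ)
      (z' : Ω' → Y), IsP q ∧ (∀ o, (x' o)⁻¹ * y' o ∈ E) ∧ δ - K ^ j * ε ≤ D Γ q x' y' z' ∧
      Pot G q x' y' z' ≤ B ^ 2 - j * d := by
    intro j
    induction j with
    | zero =>
      intro _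
      refine ⟨Ω, inferInstance, p, x, y, z, hp, hxy, ?_, ?_⟩
      · rw [pow_zero, one_mul]
        exact hD
      · rw [Nat.cast_zero, zero_mul, sub_zero]
        exact hpot
    | succ j ih =>
      intro hj
      obtain ⟨Ω₁, hΩ₁, q, x₁, y₁, z₁, hq, hxy₁, hD₁, hpot₁⟩ := ih (by omega)
      obtain ⟨e, he⟩ : ∃ e : ℝ, e = K ^ j * ε := ⟨_, rfl⟩
      rw [← he] at hD₁
      have he0 : 0 < e := by
        rw [he]
        positivity
      have he16 : e ≤ δ / 16 := by
        rw [he]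
        refine le_trans (mul_le_mul_of_nonneg_right ?_ hε.le) hJε
        exact pow_le_pow_right₀ hK1 (by omega)
      have hr8 : 8 ≤ δ / (2 * e) := by
        rw [le_div_iff₀ (by positivity)]
        linarith
      obtain ⟨m, hm⟩ : ∃ m : ℕ, m = ⌊δ / (2 * e)⌋₊ := ⟨_, rfl⟩
      have hm8 : 8 ≤ m := by
        rw [hm]
        exact Nat.le_floor (by exact_mod_cast hr8)
      have hm1 : (m : ℝ) ≤ δ / (2 * e) := by
        rw [hm]
        exact Nat.floor_le (by positivity)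
      have hm2 : δ / (2 * e) < m + 1 := by
        rw [hm]
        exact Nat.lt_floor_add_one _
      obtain ⟨N, rfl⟩ : ∃ N : ℕ, m = N + 1 := ⟨m - 1, by omega⟩
      rw [Nat.cast_add, Nat.cast_one] at hm1 hm2
      have hNe : ((N : ℝ) + 1) * e ≤ δ / 2 := by
        have h1 := mul_le_mul_of_nonneg_right hm1 he0.le
        have h2 : δ / (2 * e) * e = δ / 2 := by
          field_simp
        linarith
      have hN1 : δ / (4 * e) ≤ (N : ℝ) - 1 := by
        have h1 : δ / (2 * e) = 2 * (δ / (4 * e)) := by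
          field_simp
          ring
        linarith
      have hq4 : 4 ≤ δ / (4 * e) := by
        rw [le_div_iff₀ (by positivity)]
        linarith
      have hN0 : 0 < (N : ℝ) - 1 := by linarith
      have hjd : 0 ≤ (j : ℝ) * d := by positivity
      obtain ⟨Ω₂, hΩ₂, q₂, x₂, y₂, z₂, hq₂, hxy₂, hD₂, hpot₂⟩ := step G E hE δ hδ hq x₁ y₁ z₁ hxy₁ B
        hB (by linarith) N (by omega) (δ / 2) (by linarith) (by
          have h1 : ((N : ℝ) + 1) * (δ - e) ≤ ((N : ℝ) + 1) * D Γ q x₁ y₁ z₁ :=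
            mul_le_mul_of_nonneg_left hD₁ (by positivity)
          have h2 : ((N : ℝ) + 1) * (δ - e) = (N : ℝ) * δ + δ - ((N : ℝ) + 1) * e := by ring
          linarith)
      refine ⟨Ω₂, hΩ₂, q₂, x₂, y₂, z₂, hq₂, hxy₂, ?_, ?_⟩
      · have h1 : 2 * G.C * B / ((N : ℝ) - 1) ≤ 8 * C * B * e / δ := by
          rw [div_le_div_iff₀ hN0 hδ0]
          have h2 : δ ≤ 4 * e * ((N : ℝ) - 1) := by
            rw [div_le_iff₀ (by positivity)] at hN1
            linarith
          have h3 : 2 * G.C * B * δ ≤ 2 * C * B * δ := by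
            have : G.C * (2 * B * δ) ≤ C * (2 * B * δ) :=
              mul_le_mul_of_nonneg_right hC (by positivity)
            linarith
          have h4 : 2 * C * B * δ ≤ 2 * C * B * (4 * e * ((N : ℝ) - 1)) :=
            mul_le_mul_of_nonneg_left h2 (by positivity)
          linarith
        have h5 : K ^ (j + 1) * ε = 2 * e + 2 * (8 * C * B * e / δ) := by
          have h6 : K ^ (j + 1) * ε = K * e := by
            rw [he, pow_succ]
            ring
          rw [h6, hK]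
          ring
        rw [h5]
        linarith
      · have h1 : 2 * d ≤ (δ / 2 / (2 * G.C)) ^ 2 / G.C := by
          have h2 : 2 * d = δ ^ 2 / (16 * C ^ 3) := by
            rw [hd]
            ring
          have h3 : (δ / 2 / (2 * G.C)) ^ 2 / G.C = δ ^ 2 / (16 * G.C ^ 3) := by
            field_simp
            ring
          rw [h2, h3]
          have h4 : G.C ^ 3 ≤ C ^ 3 := pow_le_pow_left₀ hc0.le hC 3
          exact div_le_div_of_nonneg_left (by positivity) (by positivity) (by linarith)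
        have h2 : G.C * (1 + 2 * B) ≤ C * (1 + 2 * B) :=
          mul_le_mul_of_nonneg_right hC (by positivity)
        rw [Nat.cast_add, Nat.cast_one]
        have h3 : ((j : ℝ) + 1) * d = j * d + d := by ring
        rw [h3]
        linarith
  obtain ⟨Ω₁, hΩ₁, q, x₁, y₁, z₁, hq, hxy₁, hD₁, hpot₁⟩ := key J le_rfl
  have h := pot_nonneg G hq x₁ y₁ z₁
  linarith

end SubExp
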