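import Pool.Agent.Lib.MP_fee02f_an.SX.E03
import Pool.Agent.Lib.MP_fee02f_an.SX.E05

/-!
Localisation of the third object.

Put `z o = g • P (g⁻¹ * x o) (g⁻¹ * y o)` with `g = w o`, where `P a b` is a point with `a, b ∈ U (P a b)`;
note that `(g⁻¹ x)⁻¹ (g⁻¹ y) = x⁻¹ y ∈ E`. The point `z o` lies in `g • {q | g⁻¹ x ∈ U q}`, so
`H(x w z) ≤ H(x w) + log M` by `H_card`, and in the same way for `y`. Hence
`D(x, y, z) ≥ D(x, y, (w, z)) ≥ D(x, y, w) - 2 log M` (`D_anti`, `H_mono`). The potential: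
`Φ (z o) (x o) = Φ (P ..) (g⁻¹ * x o) ≤ R` by `Φ_inv`.

`H_card`: `cond_gibbs` with `f` induced by `((a, b), c) ↦ (a, b)` (reorder the triple, `H_congr`) and
`q (oc (a, b, c)) = 1 / M` if `b⁻¹ • c ∈ S (b⁻¹ * a)` and `0` otherwise; in a fibre choose representatives
with fixed `(a, b)`.

`pair_card`: the class of `(x, y)` is `x⁻¹ y`; `gibbs` with `q = 1 / |E|` on the classes of `(1, e)`,
`e ∈ E`.
-/

open scoped BigOperators

namespace SubExp

theorem H_card {Γ : Type*} [Group Γ] {Y : Type*} [MulAction Γ Y]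
    {Ω : Type*} [Fintype Ω] {p : Ω → ℝ} (hp : IsP p) (x w : Ω → Γ) (z : Ω → Y)
    (S : Γ → Set Y) (M : ℝ) (hS : ∀ a, (S a).Finite ∧ ((S a).ncard : ℝ) ≤ M)
    (hz : ∀ o, (w o)⁻¹ • z o ∈ S ((w o)⁻¹ * x o)) :
    H Γ p (fun o => (x o, w o, z o)) ≤ H Γ p (fun o => (x o, w o)) + Real.log M := by
  classical
  have hne : Nonempty Ω := by
    by_contra hne
    rw [not_nonempty_iff] at hne
    have := hp.sum_one
    rw [Finset.univ_eq_empty, Finset.sum_empty] at this
    exact zero_ne_one this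
  have hM : (1 : ℝ) ≤ M := by
    obtain ⟨o⟩ := hne
    have h1 := hS ((w o)⁻¹ * x o)
    have h2 : 0 < (S ((w o)⁻¹ * x o)).ncard := (Set.ncard_pos h1.1).2 ⟨_, hz o⟩
    have h3 : (1 : ℝ) ≤ ((S ((w o)⁻¹ * x o)).ncard : ℝ) := by exact_mod_cast h2
    exact h3.trans h1.2
  have hM0 : 0 < M := by linarith
  let f : Quotient (MulAction.orbitRel Γ (Γ × Γ × Y)) → Quotient (MulAction.orbitRel Γ (Γ × Γ)) :=
    Quotient.lift (fun t : Γ × Γ × Y => oc Γ ((t.1, t.2.1) : Γ × Γ)) (by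
      intro s t hst
      obtain ⟨g, hg⟩ := hst
      dsimp only at hg
      refine ((oc_eq Γ _ _).2 ⟨g, ?_⟩).symm
      rw [← hg]
      rfl)
  have hf : ∀ t : Γ × Γ × Y, f (oc Γ t) = oc Γ ((t.1, t.2.1) : Γ × Γ) := fun t => rfl
  let Good : Quotient (MulAction.orbitRel Γ (Γ × Γ × Y)) → Prop := fun c =>
    ∃ t : Γ × Γ × Y, oc Γ t = c ∧ t.2.1⁻¹ • t.2.2 ∈ S (t.2.1⁻¹ * t.1)
  have key := cond_gibbs hp (fun o => oc Γ ((x o, w o, z o) : Γ × Γ × Y)) f
    (fun c => if Good c then 1 / M else 0) ?_ ?_ ?_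
  · have e1 : ∑ o, p o * -Real.log (if Good (oc Γ ((x o, w o, z o) : Γ × Γ × Y)) then 1 / M else 0)
        = Real.log M := by
      have e2 : ∀ o, p o * -Real.log (if Good (oc Γ ((x o, w o, z o) : Γ × Γ × Y)) then 1 / M else 0)
          = p o * Real.log M := by
        intro o
        rw [if_pos (show Good _ from ⟨(x o, w o, z o), rfl, hz o⟩), one_div, Real.log_inv, neg_neg]
      rw [Finset.sum_congr rfl (fun o _ => e2 o), ← Finset.sum_mul, hp.sum_one, one_mul]
    rw [e1] at key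
    have e3 : ent p (fun o => f (oc Γ ((x o, w o, z o) : Γ × Γ × Y)))
        = H Γ p (fun o => (x o, w o)) := rfl
    rw [e3] at key
    have e4 : ent p (fun o => oc Γ ((x o, w o, z o) : Γ × Γ × Y))
        = H Γ p (fun o => (x o, w o, z o)) := rfl
    rw [e4] at key
    linarith
  · intro c
    split_ifs
    · positivity
    · exact le_rfl
  · intro o
    rw [if_pos (show Good _ from ⟨(x o, w o, z o), rfl, hz o⟩)]
    positivity
  · intro c s hs
    induction c using Quotient.inductionOn with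
    | h ab =>
      obtain ⟨a0, b0⟩ := ab
      have hsub : (s.filter Good : Set _) ⊆
          (fun y : Y => oc Γ ((a0, b0, b0 • y) : Γ × Γ × Y)) '' (S (b0⁻¹ * a0)) := by
        intro c hc
        rw [Finset.mem_coe, Finset.mem_filter] at hc
        obtain ⟨hcs, t, ht, htS⟩ := hc
        have h1 := hs c hcs
        rw [← ht, hf] at h1
        obtain ⟨g, hg⟩ := (oc_eq Γ _ _).1 h1
        have hg1 : g * t.1 = a0 := congrArg Prod.fst hg
        have hg2 : g * t.2.1 = b0 := congrArg Prod.snd hg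
        refine ⟨t.2.1⁻¹ • t.2.2, ?_, ?_⟩
        · have : b0⁻¹ * a0 = t.2.1⁻¹ * t.1 := by
            rw [← hg1, ← hg2]; group
          rw [this]
          exact htS
        · rw [← ht]
          refine ((oc_eq Γ _ _).2 ⟨g, ?_⟩).symm
          refine Prod.ext hg1 (Prod.ext hg2 ?_)
          change g • t.2.2 = b0 • t.2.1⁻¹ • t.2.2
          rw [← hg2, smul_smul, mul_assoc, mul_inv_cancel, mul_one]
      have hfin := (hS (b0⁻¹ * a0)).1
      have hcard : ((s.filter Good).card : ℝ) ≤ M := by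
        have h1 : (s.filter Good).card ≤ (S (b0⁻¹ * a0)).ncard := by
          rw [← Set.ncard_coe_finset]
          exact (Set.ncard_le_ncard hsub (hfin.image _)).trans (Set.ncard_image_le hfin)
        calc ((s.filter Good).card : ℝ) ≤ ((S (b0⁻¹ * a0)).ncard : ℝ) := by exact_mod_cast h1
          _ ≤ M := (hS (b0⁻¹ * a0)).2
      rw [← Finset.sum_filter, Finset.sum_const, nsmul_eq_mul, mul_one_div]
      exact (div_le_one hM0).2 hcard

theorem pair_card {Γ : Type*} [Group Γ] {Ω : Type*} [Fintype Ω] {p : Ω → ℝ} (hp : IsP p)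
    (x y : Ω → Γ) (E : Finset Γ) (hxy : ∀ o, (x o)⁻¹ * y o ∈ E) :
    H Γ p (fun o => (x o, y o)) ≤ Real.log E.card := by
  classical
  have hne : Nonempty Ω := by
    by_contra hne
    rw [not_nonempty_iff] at hne
    have := hp.sum_one
    rw [Finset.univ_eq_empty, Finset.sum_empty] at this
    exact zero_ne_one this
  have hE : (0 : ℝ) < (E.card : ℝ) := by
    obtain ⟨o⟩ := hne
    exact_mod_cast Finset.card_pos.2 ⟨_, hxy o⟩
  let I : Finset (Quotient (MulAction.orbitRel Γ (Γ × Γ))) :=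
    E.image (fun e => oc Γ ((1, e) : Γ × Γ))
  have hmem : ∀ o, oc Γ ((x o, y o) : Γ × Γ) ∈ I := by
    intro o
    refine Finset.mem_image.2 ⟨(x o)⁻¹ * y o, hxy o, (oc_eq Γ _ _).2 ⟨x o, ?_⟩⟩
    refine Prod.ext ?_ ?_
    · change x o * 1 = x o
      rw [mul_one]
    · change x o * ((x o)⁻¹ * y o) = y o
      rw [mul_inv_cancel_left]
  have key := gibbs hp (fun o => oc Γ ((x o, y o) : Γ × Γ))
    (fun c => if c ∈ I then 1 / (E.card : ℝ) else 0) ?_ ?_ ?_
  · have e2 : ∀ o, p o * -Real.log (if oc Γ ((x o, y o) : Γ × Γ) ∈ I then 1 / (E.card : ℝ) else 0)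
        = p o * Real.log E.card := by
      intro o
      rw [if_pos (hmem o), one_div, Real.log_inv, neg_neg]
    rw [Finset.sum_congr rfl (fun o _ => e2 o), ← Finset.sum_mul, hp.sum_one, one_mul] at key
    exact key
  · intro c
    split_ifs
    · positivity
    · exact le_rfl
  · intro o
    rw [if_pos (hmem o)]
    positivity
  · intro s
    rw [← Finset.sum_filter, Finset.sum_const, nsmul_eq_mul, mul_one_div]
    refine (div_le_one hE).2 ?_
    have h1 : (s.filter (· ∈ I)).card ≤ E.card :=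
      (Finset.card_le_card (fun c hc => (Finset.mem_filter.1 hc).2)).trans Finset.card_image_le
    exact_mod_cast h1

theorem localise {Γ Y : Type*} [Group Γ] [MulAction Γ Y] (G : Geo Γ Y) (E : Set Γ)
    (U : Y → Set Γ) (R M : ℝ) (hU1 : ∀ q, ∀ a ∈ U q, G.Φ q a ≤ R)
    (hU2 : ∀ a b : Γ, a⁻¹ * b ∈ E → ∃ q, a ∈ U q ∧ b ∈ U q)
    (hU3 : ∀ a : Γ, {q | a ∈ U q}.Finite ∧ ({q | a ∈ U q}.ncard : ℝ) ≤ M)
    {Ω : Type*} [Fintype Ω] {p : Ω → ℝ} (hp : IsP p) (x y w : Ω → Γ)
    (hxy : ∀ o, (x o)⁻¹ * y o ∈ E) :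
    ∃ z : Ω → Y, D Γ p x y w - 2 * Real.log M ≤ D Γ p x y z ∧ Pot G p x y z ≤ 2 * R := by
  classical
  have hE : ∀ o, ((w o)⁻¹ * x o)⁻¹ * ((w o)⁻¹ * y o) ∈ E := by
    intro o
    have : ((w o)⁻¹ * x o)⁻¹ * ((w o)⁻¹ * y o) = (x o)⁻¹ * y o := by group
    rw [this]
    exact hxy o
  choose P hP1 hP2 using fun o => hU2 ((w o)⁻¹ * x o) ((w o)⁻¹ * y o) (hE o)
  refine ⟨fun o => w o • P o, ?_, ?_⟩
  · have h1 := H_card hp x w (fun o => w o • P o) (fun a => {q | a ∈ U q}) M hU3 (by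
      intro o
      change (w o)⁻¹ • w o • P o ∈ {q | (w o)⁻¹ * x o ∈ U q}
      rw [inv_smul_smul]
      exact hP1 o)
    have h2 := H_card hp y w (fun o => w o • P o) (fun a => {q | a ∈ U q}) M hU3 (by
      intro o
      change (w o)⁻¹ • w o • P o ∈ {q | (w o)⁻¹ * y o ∈ U q}
      rw [inv_smul_smul]
      exact hP2 o)
    have h3 : H Γ p (fun o => (x o, y o, w o)) ≤ H Γ p (fun o => (x o, y o, (w o, w o • P o))) := by
      refine H_mono Γ hp ?_
      intro o o' g h
      have e1 := congrArg Prod.fst h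
      have e2 := congrArg (fun t => t.2.1) h
      have e3 := congrArg (fun t => t.2.2.1) h
      exact Prod.ext e1 (Prod.ext e2 e3)
    have h4 : D Γ p x y (fun o => (w o, w o • P o)) ≤ D Γ p x y (fun o => w o • P o) := by
      refine D_anti Γ hp x y ?_
      intro o o' g h
      exact congrArg Prod.snd h
    refine le_trans ?_ h4
    unfold D
    linarith
  · unfold Pot
    have hb : ∀ o, p o * (G.Φ (w o • P o) (x o) + G.Φ (w o • P o) (y o)) ≤ p o * (2 * R) := by
      intro o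
      have hx : x o = w o * ((w o)⁻¹ * x o) := (mul_inv_cancel_left _ _).symm
      have hy : y o = w o * ((w o)⁻¹ * y o) := (mul_inv_cancel_left _ _).symm
      have a1 : G.Φ (w o • P o) (x o) ≤ R := by
        rw [hx, G.Φ_inv]
        exact hU1 _ _ (hP1 o)
      have a2 : G.Φ (w o • P o) (y o) ≤ R := by
        rw [hy, G.Φ_inv]
        exact hU1 _ _ (hP2 o)
      exact mul_le_mul_of_nonneg_left (by linarith) (hp.pos o).le
    calc ∑ o, p o * (G.Φ (w o • P o) (x o) + G.Φ (w o • P o) (y o))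
        ≤ ∑ o, p o * (2 * R) := Finset.sum_le_sum (fun o _ => hb o)
      _ = 2 * R := by rw [← Finset.sum_mul, hp.sum_one, one_mul]

end SubExp
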