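import Mathlib

/-!
Real analysis for the end of the proof (E9 of THMA.md).

With `s = √(log log n / log n)` and `κ = K₀ s`, `δ ≥ κ n`: take `J = ⌊128 C⁵ · 4 / κ²⌋ + 1`-ish, i.e. the
least `J` with `4 C² n² < J κ² n² / (32 C³)`, so `J ≤ 128 C⁵ / κ² + 1 = 128 C⁵ log n / (K₀² log log n) + 1`.
`2 + 16 C B / δ ≤ 2 + 32 C² / κ ≤ (log n) ` for large `n` (as `κ ≥ K₀ / √(log n)`), so
`log (K ^ J) ≤ J log log n ≤ 128 C⁵ log n / K₀² + log log n ≤ (1/4) log n + log log n` for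
`K₀² ≥ 512 C⁵`; `ε = 1 + 2 log (C n ^ C) ≤ (log n)²`; and `δ / 16 ≥ K₀ n / (16 √(log n))`. The other
claims are `δ ≥ κ n → ∞` faster than `√n`.
-/

namespace SubExp

theorem E15_exp {L : ℝ} (hL : 8100 ≤ L) : 16 * L ^ 4 ≤ Real.exp (3 * L / 4) := by
  have h := Real.pow_div_factorial_le_exp (x := 3 * L / 4) (by linarith) 5
  have h2 : (3 * L / 4) ^ 5 / ((Nat.factorial 5 : ℕ) : ℝ) = 243 / 122880 * L * L ^ 4 := by
    have : ((Nat.factorial 5 : ℕ) : ℝ) = 120 := by norm_num [Nat.factorial]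
    rw [this]
    ring
  rw [h2] at h
  have h3 : (0 : ℝ) ≤ L ^ 4 := by positivity
  have h4 : 16 * L ^ 4 ≤ 243 / 122880 * L * L ^ 4 :=
    mul_le_mul_of_nonneg_right (by linarith) h3
  linarith

theorem real_end (C : ℝ) (hC : 1 ≤ C) :
    ∃ K : ℝ, 0 < K ∧ ∃ n0 : ℕ, 3 ≤ n0 ∧ ∀ n : ℕ, n0 ≤ n → ∀ δ : ℝ,
      K * n * √(Real.log (Real.log n) / Real.log n) ≤ δ →
      4 * C ≤ δ ∧ C * (1 + 2 * (2 * C * n)) ≤ δ ^ 2 / (32 * C ^ 3) ∧
      ∃ J : ℕ, (2 * C * n) ^ 2 < J * (δ ^ 2 / (32 * C ^ 3)) ∧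
        (2 + 16 * C * (2 * C * n) / δ) ^ J * (1 + 2 * Real.log (C * (n : ℝ) ^ C)) ≤ δ / 16 := by
  have hC0 : 0 < C := by linarith
  have hC5 : 1 ≤ C ^ 5 := one_le_pow₀ hC
  have hlC : 0 ≤ Real.log C := Real.log_nonneg hC
  have hexp1 : 0 < Real.exp 1 := Real.exp_pos 1
  obtain ⟨M, hM⟩ : ∃ M : ℝ, M = (32 * C ^ 2 + 2) ^ 2 + (1 + 2 * Real.log C + 2 * C) + 8100 +
    Real.exp 1 := ⟨_, rfl⟩
  refine ⟨√(512 * C ^ 5), by positivity, max 3 ⌈Real.exp M⌉₊, le_max_left _ _, ?_⟩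
  intro n hn δ hδ
  have hn3 : (3 : ℝ) ≤ n := by exact_mod_cast (le_max_left 3 _).trans hn
  have hn0 : (0 : ℝ) < n := by linarith
  have hnM : Real.exp M ≤ n := (Nat.le_ceil _).trans (by exact_mod_cast (le_max_right 3 _).trans hn)
  obtain ⟨L, hL⟩ : ∃ L : ℝ, L = Real.log n := ⟨_, rfl⟩
  have hnL : (n : ℝ) = Real.exp L := by rw [hL, Real.exp_log hn0]
  rw [← hL] at hδ
  have hML : M ≤ L := by
    rw [hL]
    exact (Real.le_log_iff_exp_le hn0).2 hnM
  have hq1 : 0 ≤ (32 * C ^ 2 + 2) ^ 2 := by positivity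
  have hL1 : (32 * C ^ 2 + 2) ^ 2 ≤ L := by linarith
  have hL2 : 1 + 2 * Real.log C + 2 * C ≤ L := by linarith
  have hL3 : 8100 ≤ L := by linarith
  have hL4 : Real.exp 1 ≤ L := by linarith
  have hL0 : 0 < L := by linarith
  have hLL : 1 ≤ Real.log L := (Real.le_log_iff_exp_le hL0).2 hL4
  have hLL0 : 0 < Real.log L := by linarith
  have hLn : L ≤ n := by
    rw [hnL]
    have := Real.add_one_le_exp L
    linarith
  obtain ⟨s, hs⟩ : ∃ s : ℝ, s = √(Real.log L / L) := ⟨_, rfl⟩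
  rw [← hs] at hδ
  have hs2 : s ^ 2 = Real.log L / L := by
    rw [hs, Real.sq_sqrt (by positivity)]
  have hs0 : 0 < s := by
    rw [hs]
    exact Real.sqrt_pos.2 (by positivity)
  obtain ⟨K, hK⟩ : ∃ K : ℝ, K = √(512 * C ^ 5) := ⟨_, rfl⟩
  rw [← hK] at hδ
  have hK2 : K ^ 2 = 512 * C ^ 5 := by rw [hK, Real.sq_sqrt (by positivity)]
  have hK0 : 0 < K := by
    rw [hK]
    exact Real.sqrt_pos.2 (by positivity)
  have hδ0 : 0 < δ := lt_of_lt_of_le (by positivity) hδ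
  have hA : 512 * C ^ 5 * (n : ℝ) ^ 2 * Real.log L ≤ δ ^ 2 * L := by
    have h1 : (K * n * s) ^ 2 ≤ δ ^ 2 := pow_le_pow_left₀ (by positivity) hδ 2
    have h2 : (K * n * s) ^ 2 = 512 * C ^ 5 * (n : ℝ) ^ 2 * (Real.log L / L) := by
      rw [mul_pow, mul_pow, hK2, hs2]
    have h3 : 512 * C ^ 5 * (n : ℝ) ^ 2 * (Real.log L / L) * L =
        512 * C ^ 5 * (n : ℝ) ^ 2 * Real.log L := by
      field_simp
    rw [← h3, ← h2]
    exact mul_le_mul_of_nonneg_right h1 hL0.le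
  have hB : 512 * C ^ 5 * (n : ℝ) ^ 2 ≤ δ ^ 2 * L := by
    have h1 : 512 * C ^ 5 * (n : ℝ) ^ 2 * 1 ≤ 512 * C ^ 5 * (n : ℝ) ^ 2 * Real.log L :=
      mul_le_mul_of_nonneg_left hLL (by positivity)
    linarith
  have hD : 512 * C ^ 5 * (n : ℝ) ≤ δ ^ 2 := by
    have h1 : δ ^ 2 * L ≤ δ ^ 2 * n := mul_le_mul_of_nonneg_left hLn (by positivity)
    have h2 : 512 * C ^ 5 * (n : ℝ) * n ≤ δ ^ 2 * n := by
      have : 512 * C ^ 5 * (n : ℝ) * n = 512 * C ^ 5 * (n : ℝ) ^ 2 := by ring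
      rw [this]
      exact hB.trans h1
    exact le_of_mul_le_mul_right h2 hn0
  have hnδ : (n : ℝ) ≤ √L * δ := by
    have h1 : (n : ℝ) ^ 2 ≤ (√L * δ) ^ 2 := by
      rw [mul_pow, Real.sq_sqrt hL0.le]
      have h2 : 1 * (n : ℝ) ^ 2 ≤ 512 * C ^ 5 * (n : ℝ) ^ 2 :=
        mul_le_mul_of_nonneg_right (by linarith) (by positivity)
      linarith
    exact le_of_sq_le_sq h1 (by positivity)
  have hsL : 32 * C ^ 2 + 2 ≤ √L := Real.le_sqrt_of_sq_le hL1
  have hsL1 : 1 ≤ √L := by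
    have : 0 ≤ 32 * C ^ 2 := by positivity
    linarith
  have hsLL : √L * √L = L := Real.mul_self_sqrt hL0.le
  have hsLle : √L ≤ L := by nlinarith
  refine ⟨?_, ?_, ?_⟩
  · by_contra hcon
    push Not at hcon
    have h1 : δ ^ 2 < (4 * C) ^ 2 := pow_lt_pow_left₀ hcon hδ0.le (by norm_num)
    have h2 : C ^ 2 ≤ C ^ 5 := pow_le_pow_right₀ hC (by norm_num)
    have h3 : 512 * C ^ 5 * 3 ≤ 512 * C ^ 5 * (n : ℝ) :=
      mul_le_mul_of_nonneg_left hn3 (by positivity)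
    have h4 : (4 * C) ^ 2 = 16 * C ^ 2 := by ring
    have h5 : 0 ≤ C ^ 5 := by positivity
    linarith
  · rw [le_div_iff₀ (by positivity)]
    have h1 : C * (1 + 2 * (2 * C * n)) * (32 * C ^ 3) = 32 * C ^ 4 + 128 * (C ^ 5 * n) := by ring
    have h2 : C ^ 4 ≤ C ^ 5 := pow_le_pow_right₀ hC (by norm_num)
    have h3 : C ^ 5 * 1 ≤ C ^ 5 * (n : ℝ) := mul_le_mul_of_nonneg_left (by linarith) (by positivity)
    rw [h1]
    have h4 : 512 * C ^ 5 * (n : ℝ) = 512 * (C ^ 5 * n) := by ring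
    have h5 : 0 ≤ C ^ 5 * (n : ℝ) := by positivity
    linarith
  · obtain ⟨q, hq⟩ : ∃ q : ℝ, q = 128 * C ^ 5 * (n : ℝ) ^ 2 / δ ^ 2 := ⟨_, rfl⟩
    have hq0 : 0 ≤ q := by
      rw [hq]
      positivity
    have hqL : q ≤ L / (4 * Real.log L) := by
      rw [hq, div_le_div_iff₀ (by positivity) (by positivity)]
      have : 128 * C ^ 5 * (n : ℝ) ^ 2 * (4 * Real.log L) =
        512 * C ^ 5 * (n : ℝ) ^ 2 * Real.log L := by ring
      rw [this, mul_comm L]
      exact hA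
    refine ⟨⌊q⌋₊ + 1, ?_, ?_⟩
    · have h1 : q < ((⌊q⌋₊ + 1 : ℕ) : ℝ) := by
        rw [Nat.cast_add, Nat.cast_one]
        exact Nat.lt_floor_add_one q
      have h2 : (2 * C * n) ^ 2 = q * (δ ^ 2 / (32 * C ^ 3)) := by
        rw [hq]
        field_simp
        ring
      rw [h2]
      exact mul_lt_mul_of_pos_right h1 (by positivity)
    · have hJ : ((⌊q⌋₊ + 1 : ℕ) : ℝ) ≤ L / (4 * Real.log L) + 1 := by
        rw [Nat.cast_add, Nat.cast_one]
        have := Nat.floor_le hq0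
        linarith
      have hb : 2 + 16 * C * (2 * C * n) / δ ≤ L := by
        have h1 : 16 * C * (2 * C * n) / δ ≤ 32 * C ^ 2 * √L := by
          rw [div_le_iff₀ hδ0]
          have h2 : 16 * C * (2 * C * n) = 32 * C ^ 2 * n := by ring
          rw [h2, mul_assoc (32 * C ^ 2)]
          exact mul_le_mul_of_nonneg_left hnδ (by positivity)
        have h3 : (32 * C ^ 2 + 2) * √L ≤ √L * √L := mul_le_mul_of_nonneg_right hsL (by positivity)
        have h4 : (32 * C ^ 2 + 2) * √L = 32 * C ^ 2 * √L + 2 * √L := by ring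
        linarith
      have hb0 : 0 ≤ 2 + 16 * C * (2 * C * n) / δ := by positivity
      have hpow : (2 + 16 * C * (2 * C * n) / δ) ^ (⌊q⌋₊ + 1) ≤ Real.exp (L / 4) * L := by
        have h1 : (2 + 16 * C * (2 * C * n) / δ) ^ (⌊q⌋₊ + 1) ≤ L ^ (⌊q⌋₊ + 1) :=
          pow_le_pow_left₀ hb0 hb _
        have h2 : L ^ (⌊q⌋₊ + 1) = Real.exp (Real.log L * ((⌊q⌋₊ + 1 : ℕ) : ℝ)) := by
          rw [mul_comm, Real.exp_nat_mul, Real.exp_log hL0]
        have h3 : Real.log L * ((⌊q⌋₊ + 1 : ℕ) : ℝ) ≤ L / 4 + Real.log L := by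
          have h4 : Real.log L * ((⌊q⌋₊ + 1 : ℕ) : ℝ) ≤ Real.log L * (L / (4 * Real.log L) + 1) :=
            mul_le_mul_of_nonneg_left hJ hLL0.le
          have h5 : Real.log L * (L / (4 * Real.log L) + 1) = L / 4 + Real.log L := by
            field_simp
          linarith
        calc _ ≤ _ := h1
          _ = _ := h2
          _ ≤ Real.exp (L / 4 + Real.log L) := Real.exp_le_exp.2 h3
          _ = Real.exp (L / 4) * L := by rw [Real.exp_add, Real.exp_log hL0]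
      have hε : 1 + 2 * Real.log (C * (n : ℝ) ^ C) ≤ L ^ 2 := by
        rw [Real.log_mul hC0.ne' (Real.rpow_pos_of_pos hn0 _).ne', Real.log_rpow hn0, ← hL]
        have h1 : (1 + 2 * Real.log C + 2 * C) * L ≤ L * L := mul_le_mul_of_nonneg_right hL2 hL0.le
        have h2 : (1 + 2 * Real.log C) * 1 ≤ (1 + 2 * Real.log C) * L :=
          mul_le_mul_of_nonneg_left (by linarith) (by linarith)
        nlinarith
      have hε0 : 0 ≤ 1 + 2 * Real.log (C * (n : ℝ) ^ C) := by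
        rw [Real.log_mul hC0.ne' (Real.rpow_pos_of_pos hn0 _).ne', Real.log_rpow hn0, ← hL]
        positivity
      have hfin : Real.exp (L / 4) * L * L ^ 2 ≤ δ / 16 := by
        have h1 : (n : ℝ) ≤ L * δ := hnδ.trans (mul_le_mul_of_nonneg_right hsLle hδ0.le)
        have h2 := E15_exp hL3
        have h3 : Real.exp (L / 4) * (16 * L ^ 4) ≤ Real.exp (L / 4) * Real.exp (3 * L / 4) :=
          mul_le_mul_of_nonneg_left h2 (Real.exp_pos _).le
        have h4 : Real.exp (L / 4) * Real.exp (3 * L / 4) = n := by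
          rw [← Real.exp_add, hnL]
          congr 1
          ring
        have h5 : L * (Real.exp (L / 4) * L * L ^ 2 * 16) ≤ L * δ := by
          calc L * (Real.exp (L / 4) * L * L ^ 2 * 16) = Real.exp (L / 4) * (16 * L ^ 4) := by ring
            _ ≤ Real.exp (L / 4) * Real.exp (3 * L / 4) := h3
            _ = n := h4
            _ ≤ L * δ := h1
        have h6 : Real.exp (L / 4) * L * L ^ 2 * 16 ≤ δ := le_of_mul_le_mul_left h5 hL0
        linarith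
      calc _ ≤ Real.exp (L / 4) * L * L ^ 2 :=
            mul_le_mul hpow hε hε0 (by positivity)
        _ ≤ δ / 16 := hfin

/-- small `n` -/
theorem real_small (C : ℝ) (n0 : ℕ) : ∃ K : ℝ, 0 < K ∧ ∀ n : ℕ, 3 ≤ n → n < n0 →
    C * (n + 1) ≤ K * n * √(Real.log (Real.log n) / Real.log n) := by
  have hpos : ∀ n : ℕ, 3 ≤ n → 0 < (n : ℝ) * √(Real.log (Real.log n) / Real.log n) := by
    intro n hn
    have h3 : (3 : ℝ) ≤ n := by exact_mod_cast hn
    have h1 : 1 < Real.log n := by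
      rw [Real.lt_log_iff_exp_lt (by linarith)]
      have := Real.exp_one_lt_d9
      linarith
    have h2 : 0 < Real.log (Real.log n) := Real.log_pos h1
    have h4 : 0 < Real.log n := by linarith
    have h5 : 0 < √(Real.log (Real.log n) / Real.log n) := Real.sqrt_pos.2 (by positivity)
    have h6 : (0 : ℝ) < n := by linarith
    positivity
  have hsum : 0 ≤ ∑ n ∈ Finset.range n0, |C * ((n : ℝ) + 1)| /
      |(n : ℝ) * √(Real.log (Real.log n) / Real.log n)| :=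
    Finset.sum_nonneg fun i _ => by positivity
  refine ⟨1 + ∑ n ∈ Finset.range n0, |C * ((n : ℝ) + 1)| /
      |(n : ℝ) * √(Real.log (Real.log n) / Real.log n)|, by linarith, ?_⟩
  intro n h3 hn
  have hp := hpos n h3
  have h1 : |C * ((n : ℝ) + 1)| / |(n : ℝ) * √(Real.log (Real.log n) / Real.log n)| ≤
      ∑ n ∈ Finset.range n0, |C * ((n : ℝ) + 1)| /
      |(n : ℝ) * √(Real.log (Real.log n) / Real.log n)| :=
    Finset.single_le_sum (f := fun n : ℕ => |C * ((n : ℝ) + 1)| /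
      |(n : ℝ) * √(Real.log (Real.log n) / Real.log n)|) (fun i _ => by positivity)
      (Finset.mem_range.2 hn)
  rw [abs_of_pos hp] at h1
  rw [mul_assoc]
  calc C * ((n : ℝ) + 1) ≤ |C * ((n : ℝ) + 1)| := le_abs_self _
    _ = |C * ((n : ℝ) + 1)| / ((n : ℝ) * √(Real.log (Real.log n) / Real.log n)) *
          ((n : ℝ) * √(Real.log (Real.log n) / Real.log n)) := by
        rw [div_mul_cancel₀ _ hp.ne']
    _ ≤ _ := by
        refine mul_le_mul_of_nonneg_right ?_ hp.le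
        linarith

end SubExp
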