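import Pool.Agent.Lib.MP_fee02f_an.SX.E03
import Pool.Agent.Lib.MP_fee02f_an.SX.E04

/-!
From `D` to the bilinear form.

Let `Z` be the left hand side, assume `Z > 0` (else trivial), and normalise (or keep the norms).
Law: `Ω` = the set of pairs `(x, y)` in `F1 × F2` with `f (x⁻¹ y) u x v y > 0`,
`p = f (x⁻¹ y) u x v y / Z`, third object `w = (1 : Γ)`. Classes modulo `Γ`: `(x, y, 1)` is the pair
`(x, y)`, `(x, 1)` is `x`, `(y, 1)` is `y`, `(x, y)` is `x⁻¹ y`. So `H(x y w) = ∑ p * -log p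
= log Z + ∑ p * (-log f - log u - log v)`, and by `gibbs`
`H(x w) ≤ ∑ p * -log (u² / ∑ u²)`, `H(y w) ≤ ∑ p * -log (v² / ∑ v²)`, `H(x y) ≤ ∑ p * -log (f² / ∑ f²)`.
Hence `δ ≥ D ≥ 2 log Z - log (∑ u²) - log (∑ v²) - log (∑ f²)`.
-/

open scoped BigOperators

namespace SubExp

universe u

theorem E16_sum {Γ : Type*} (S T : Finset Γ) (h : Γ → ℝ) (A : ℝ) (hA : A = ∑ g ∈ S, h g ^ 2)
    (hpos : 0 < A) [DecidableEq Γ] : ∑ g ∈ T, (if g ∈ S then h g ^ 2 / A else 0) ≤ 1 := by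
  rw [← Finset.sum_filter]
  have h1 : ∑ g ∈ T with g ∈ S, h g ^ 2 / A ≤ ∑ g ∈ S, h g ^ 2 / A := by
    refine Finset.sum_le_sum_of_subset_of_nonneg ?_ (fun g _ _ => by positivity)
    intro g hg
    exact (Finset.mem_filter.1 hg).2
  have h2 : ∑ g ∈ S, h g ^ 2 / A = 1 := by rw [← Finset.sum_div, ← hA, div_self hpos.ne']
  exact h1.trans h2.le

/-- the invariant of a pair -/
def E16k (Γ : Type*) [Group Γ] : Quotient (MulAction.orbitRel Γ (Γ × Γ)) → Γ :=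
  Quotient.lift (fun a : Γ × Γ => a.1⁻¹ * a.2) (by
    rintro a b h
    obtain ⟨g, hg⟩ := MulAction.orbitRel_apply.1 h
    rw [← hg]
    show (g * b.1)⁻¹ * (g * b.2) = b.1⁻¹ * b.2
    group)

theorem E16k_inj (Γ : Type*) [Group Γ] : Function.Injective (E16k Γ) := by
  intro c c'
  induction c using Quotient.inductionOn with
  | _ a =>
  induction c' using Quotient.inductionOn with
  | _ b =>
  intro h
  have h1 : a.1⁻¹ * a.2 = b.1⁻¹ * b.2 := h
  apply Quotient.sound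
  refine MulAction.orbitRel_apply.2 ⟨a.1 * b.1⁻¹, ?_⟩
  show (a.1 * b.1⁻¹ * b.1, a.1 * b.1⁻¹ * b.2) = a
  rw [inv_mul_cancel_right, mul_assoc, ← h1, mul_inv_cancel_left]

theorem pair_gibbs {Γ : Type*} [Group Γ] {Ω : Type*} [Fintype Ω] {p : Ω → ℝ} (hp : IsP p)
    (x y : Ω → Γ) (φ : Γ → Γ) (hφ : Function.Injective φ) (U : Γ → ℝ) (hU : ∀ g, 0 ≤ U g)
    (hpos : ∀ o, 0 < U (φ ((x o)⁻¹ * y o))) (hs : ∀ T : Finset Γ, ∑ g ∈ T, U g ≤ 1) :
    H Γ p (fun o => (x o, y o)) ≤ ∑ o, p o * -Real.log (U (φ ((x o)⁻¹ * y o))) := by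
  classical
  exact gibbs hp (fun o => oc Γ (x o, y o)) (fun c => U (φ (E16k Γ c))) (fun c => hU _)
    (fun o => hpos o) (fun s => by
      rw [← Finset.sum_image (f := U) (g := fun c => φ (E16k Γ c)) (s := s)
        (fun a _ b _ h => E16k_inj Γ (hφ h))]
      exact hs _)

theorem E16_triple {Γ : Type*} [Group Γ] {Ω : Type*} [Fintype Ω] {p : Ω → ℝ}
    (x y : Ω → Γ) (hinj : ∀ o o', x o = x o' → y o = y o' → o = o') :
    H Γ p (fun o => (x o, y o, (1 : Γ))) = ∑ o, p o * -Real.log (p o) := by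
  classical
  unfold H ent
  refine Finset.sum_congr rfl fun o _ => ?_
  congr 3
  unfold pr
  rw [Finset.sum_eq_single o]
  · rw [if_pos rfl]
  · intro o' _ hne
    refine if_neg fun h => hne ?_
    have h1 := (oc_eq Γ _ _).1 h
    obtain ⟨g, hg⟩ := h1
    have h2 : (g * x o', g * y o', g * 1) = (x o, y o, (1 : Γ)) := hg
    rw [Prod.mk.injEq, Prod.mk.injEq] at h2
    obtain ⟨e1, e2, e3⟩ := h2
    rw [mul_one] at e3
    rw [e3, one_mul] at e1 e2
    exact hinj o' o e1 e2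
  · intro h
    exact absurd (Finset.mem_univ o) h

theorem bilinear {Γ : Type u} [Group Γ] (E : Set Γ) (δ : ℝ) (hδ : Dle Γ E δ)
    (f u v : Γ → ℝ) (hf : ∀ g, 0 ≤ f g) (hu : ∀ g, 0 ≤ u g) (hv : ∀ g, 0 ≤ v g)
    (hfE : ∀ g, f g ≠ 0 → g ∈ E) (S F1 F2 : Finset Γ) (hS : ∀ g, f g ≠ 0 → g ∈ S) :
    ∑ x ∈ F1, ∑ y ∈ F2, f (x⁻¹ * y) * u x * v y
      ≤ Real.exp (δ / 2) * √(∑ g ∈ S, f g ^ 2) * √(∑ x ∈ F1, u x ^ 2)
        * √(∑ y ∈ F2, v y ^ 2) := by
  classical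
  obtain ⟨Z, hZ⟩ : ∃ Z, Z = ∑ x ∈ F1, ∑ y ∈ F2, f (x⁻¹ * y) * u x * v y := ⟨_, rfl⟩
  obtain ⟨A, hA⟩ : ∃ A, A = ∑ g ∈ S, f g ^ 2 := ⟨_, rfl⟩
  obtain ⟨A1, hA1⟩ : ∃ A, A = ∑ g ∈ F1, u g ^ 2 := ⟨_, rfl⟩
  obtain ⟨A2, hA2⟩ : ∃ A, A = ∑ g ∈ F2, v g ^ 2 := ⟨_, rfl⟩
  rw [← hZ, ← hA, ← hA1, ← hA2]
  rcases le_or_gt Z 0 with hZ0 | hZ0
  · exact hZ0.trans (by positivity)
  -- the weights
  let q : Γ × Γ → ℝ := fun a => f (a.1⁻¹ * a.2) * u a.1 * v a.2
  have hq0 : ∀ a, 0 ≤ q a := fun a => mul_nonneg (mul_nonneg (hf _) (hu _)) (hv _)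
  let P : Finset (Γ × Γ) := (F1 ×ˢ F2).filter fun a => 0 < q a
  have hsum : ∑ a ∈ P, q a = Z := by
    rw [hZ, ← Finset.sum_product']
    refine Finset.sum_subset (Finset.filter_subset _ _) ?_
    intro a ha hna
    have h1 : ¬ 0 < q a := fun h => hna (Finset.mem_filter.2 ⟨ha, h⟩)
    exact le_antisymm (not_lt.1 h1) (hq0 a)
  have hmem : ∀ o : P, o.1.1 ∈ F1 ∧ o.1.2 ∈ F2 ∧ 0 < q o.1 := by
    intro o
    obtain ⟨h1, h2⟩ := Finset.mem_filter.1 o.2
    rw [Finset.mem_product] at h1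
    exact ⟨h1.1, h1.2, h2⟩
  have hfu : ∀ o : P, 0 < f (o.1.1⁻¹ * o.1.2) ∧ 0 < u o.1.1 ∧ 0 < v o.1.2 := by
    intro o
    obtain ⟨-, -, h⟩ := hmem o
    have h' : 0 < f (o.1.1⁻¹ * o.1.2) * u o.1.1 * v o.1.2 := h
    have hv' : v o.1.2 ≠ 0 := fun e => by rw [e, mul_zero] at h'; exact lt_irrefl _ h'
    have hu' : u o.1.1 ≠ 0 := fun e => by
      rw [e, mul_zero, zero_mul] at h'; exact lt_irrefl _ h'
    have hf' : f (o.1.1⁻¹ * o.1.2) ≠ 0 := fun e => by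
      rw [e, zero_mul, zero_mul] at h'; exact lt_irrefl _ h'
    exact ⟨lt_of_le_of_ne (hf _) hf'.symm, lt_of_le_of_ne (hu _) hu'.symm,
      lt_of_le_of_ne (hv _) hv'.symm⟩
  let p : P → ℝ := fun o => q o.1 / Z
  have hp : IsP p := by
    refine ⟨fun o => div_pos (hmem o).2.2 hZ0, ?_⟩
    show ∑ o : P, q o.1 / Z = 1
    rw [← Finset.sum_div, Finset.sum_coe_sort P q, hsum, div_self hZ0.ne']
  have hne : P.Nonempty := by
    by_contra hcon
    rw [Finset.not_nonempty_iff_eq_empty] at hcon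
    rw [hcon, Finset.sum_empty] at hsum
    rw [← hsum] at hZ0
    exact lt_irrefl _ hZ0
  obtain ⟨o₀, ho₀⟩ := hne
  have hApos : 0 < A := by
    rw [hA]
    have h1 := (hfu ⟨o₀, ho₀⟩).1
    refine Finset.sum_pos' (fun g _ => sq_nonneg _) ⟨_, hS _ h1.ne', by positivity⟩
  have hA1pos : 0 < A1 := by
    rw [hA1]
    have h1 := (hfu ⟨o₀, ho₀⟩).2.1
    exact Finset.sum_pos' (fun g _ => sq_nonneg _) ⟨_, (hmem ⟨o₀, ho₀⟩).1, by positivity⟩
  have hA2pos : 0 < A2 := by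
    rw [hA2]
    have h1 := (hfu ⟨o₀, ho₀⟩).2.2
    exact Finset.sum_pos' (fun g _ => sq_nonneg _) ⟨_, (hmem ⟨o₀, ho₀⟩).2.1, by positivity⟩
  have hD := hδ P inferInstance p (fun o => o.1.1) (fun o => o.1.2) (fun _ => (1 : Γ)) hp
    (fun o => hfE _ (hfu o).1.ne')
  unfold D at hD
  have h0 := E16_triple (Γ := Γ) (p := p) (fun o : P => o.1.1) (fun o : P => o.1.2)
    (fun o o' h h' => Subtype.ext (Prod.ext h h'))
  have h1 := pair_gibbs hp (fun o : P => o.1.1) (fun _ => (1 : Γ)) (fun g => g⁻¹)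
    inv_injective (fun g => if g ∈ F1 then u g ^ 2 / A1 else 0)
    (fun g => by split_ifs <;> positivity)
    (fun o => by
      have e : (o.1.1⁻¹ * 1)⁻¹ = o.1.1 := by group
      rw [e, if_pos (hmem o).1]
      have := (hfu o).2.1
      positivity)
    (fun T => E16_sum F1 T u A1 hA1 hA1pos)
  have h2 := pair_gibbs hp (fun o : P => o.1.2) (fun _ => (1 : Γ)) (fun g => g⁻¹)
    inv_injective (fun g => if g ∈ F2 then v g ^ 2 / A2 else 0)
    (fun g => by split_ifs <;> positivity)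
    (fun o => by
      have e : (o.1.2⁻¹ * 1)⁻¹ = o.1.2 := by group
      rw [e, if_pos (hmem o).2.1]
      have := (hfu o).2.2
      positivity)
    (fun T => E16_sum F2 T v A2 hA2 hA2pos)
  have h3 := pair_gibbs hp (fun o : P => o.1.1) (fun o : P => o.1.2) (fun g => g)
    (fun a b h => h) (fun g => if g ∈ S then f g ^ 2 / A else 0)
    (fun g => by split_ifs <;> positivity)
    (fun o => by
      rw [if_pos (hS _ (hfu o).1.ne')]
      have := (hfu o).1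
      positivity)
    (fun T => E16_sum S T f A hA hApos)
  have key : ∑ o : P, p o * (2 * -Real.log (p o) - -Real.log (u o.1.1 ^ 2 / A1)
      - -Real.log (v o.1.2 ^ 2 / A2) - -Real.log (f (o.1.1⁻¹ * o.1.2) ^ 2 / A)) =
      2 * Real.log Z - Real.log A1 - Real.log A2 - Real.log A := by
    have e1 : ∀ o : P, p o * (2 * -Real.log (p o) - -Real.log (u o.1.1 ^ 2 / A1)
        - -Real.log (v o.1.2 ^ 2 / A2) - -Real.log (f (o.1.1⁻¹ * o.1.2) ^ 2 / A)) =
        p o * (2 * Real.log Z - Real.log A1 - Real.log A2 - Real.log A) := by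
      intro o
      obtain ⟨g1, g2, g3⟩ := hfu o
      have e2 : Real.log (p o) = Real.log (f (o.1.1⁻¹ * o.1.2)) + Real.log (u o.1.1) +
          Real.log (v o.1.2) - Real.log Z := by
        show Real.log (f (o.1.1⁻¹ * o.1.2) * u o.1.1 * v o.1.2 / Z) = _
        rw [Real.log_div (by positivity) hZ0.ne', Real.log_mul (by positivity) g3.ne',
          Real.log_mul g1.ne' g2.ne']
      rw [e2, Real.log_div (by positivity) hA1pos.ne', Real.log_div (by positivity) hA2pos.ne',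
        Real.log_div (by positivity) hApos.ne', Real.log_pow, Real.log_pow, Real.log_pow]
      push_cast
      ring
    rw [Finset.sum_congr rfl fun o _ => e1 o, ← Finset.sum_mul, hp.sum_one, one_mul]
  have h4 : 2 * Real.log Z - Real.log A1 - Real.log A2 - Real.log A ≤ δ := by
    refine le_trans ?_ hD
    rw [← key, h0]
    have e1 : ∀ o : P, (((o.1.1⁻¹ * 1)⁻¹ : Γ)) = o.1.1 := fun o => by group
    have e2 : ∀ o : P, (((o.1.2⁻¹ * 1)⁻¹ : Γ)) = o.1.2 := fun o => by group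
    have h1' : H Γ p (fun o : P => (o.1.1, (1 : Γ))) ≤
        ∑ o : P, p o * -Real.log (u o.1.1 ^ 2 / A1) := by
      refine h1.trans (le_of_eq (Finset.sum_congr rfl fun o _ => ?_))
      rw [e1 o, if_pos (hmem o).1]
    have h2' : H Γ p (fun o : P => (o.1.2, (1 : Γ))) ≤
        ∑ o : P, p o * -Real.log (v o.1.2 ^ 2 / A2) := by
      refine h2.trans (le_of_eq (Finset.sum_congr rfl fun o _ => ?_))
      rw [e2 o, if_pos (hmem o).2.1]
    have h3' : H Γ p (fun o : P => (o.1.1, o.1.2)) ≤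
        ∑ o : P, p o * -Real.log (f (o.1.1⁻¹ * o.1.2) ^ 2 / A) := by
      refine h3.trans (le_of_eq (Finset.sum_congr rfl fun o _ => ?_))
      rw [if_pos (hS _ (hfu o).1.ne')]
    have e3 : ∑ o : P, p o * (2 * -Real.log (p o) - -Real.log (u o.1.1 ^ 2 / A1)
        - -Real.log (v o.1.2 ^ 2 / A2) - -Real.log (f (o.1.1⁻¹ * o.1.2) ^ 2 / A)) =
        2 * (∑ o : P, p o * -Real.log (p o)) - (∑ o : P, p o * -Real.log (u o.1.1 ^ 2 / A1))
        - (∑ o : P, p o * -Real.log (v o.1.2 ^ 2 / A2))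
        - (∑ o : P, p o * -Real.log (f (o.1.1⁻¹ * o.1.2) ^ 2 / A)) := by
      rw [Finset.mul_sum, ← Finset.sum_sub_distrib, ← Finset.sum_sub_distrib,
        ← Finset.sum_sub_distrib]
      refine Finset.sum_congr rfl fun o _ => ?_
      ring
    rw [e3]
    linarith
  have h5 : Z ^ 2 ≤ Real.exp δ * (A * A1 * A2) := by
    have h6 : Real.log (Z ^ 2) ≤ δ + Real.log (A * A1 * A2) := by
      rw [Real.log_pow, Real.log_mul (by positivity) hA2pos.ne',
        Real.log_mul hApos.ne' hA1pos.ne']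
      push_cast
      linarith
    have h7 := (Real.log_le_iff_le_exp (by positivity)).1 h6
    rwa [Real.exp_add, Real.exp_log (by positivity)] at h7
  have h8 : (Real.exp (δ / 2) * √A * √A1 * √A2) ^ 2 = Real.exp δ * (A * A1 * A2) := by
    rw [mul_pow, mul_pow, mul_pow, Real.sq_sqrt hApos.le, Real.sq_sqrt hA1pos.le,
      Real.sq_sqrt hA2pos.le, ← Real.exp_nat_mul]
    have : ((2 : ℕ) : ℝ) * (δ / 2) = δ := by push_cast; ring
    rw [this]
    ring
  refine le_of_sq_le_sq ?_ (by positivity)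
  rw [h8]
  exact h5

end SubExp
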