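import Pool.Agent.Lib.MP_fee02f_an.SX.E16

/-!
From `D` to the trilinear form `tri`.

`tri f g h = ∑ f a * g b * h (a * b)`; substitute `a = x⁻¹ * y`, `b = y⁻¹`, so that `a * b = x⁻¹`:
`tri f g h ≤ ∑ x ∈ F1, ∑ y ∈ F2, f (x⁻¹ * y) * u x * v y` with `u x = h x⁻¹`, `v y = g y⁻¹`,
`F1 = (h.support)⁻¹`, `F2 = (g.support)⁻¹`, and `bilinear`.
-/

open scoped BigOperators

namespace SubExp

universe u

theorem OpBd_of_Dle {Γ : Type u} [Group Γ] (E : Finset Γ) (δ : ℝ) (hδ : Dle Γ (E : Set Γ) δ) :
    OpBd E (Real.exp (δ / 2)) := by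
  classical
  intro f g h hf hg hh hfE
  have hb := bilinear (E : Set Γ) δ hδ (fun a => f a) (fun x => h x⁻¹) (fun y => g y⁻¹)
    (fun a => hf a) (fun x => hh _) (fun y => hg _)
    (fun a ha => by
      have : a ∈ f.support := Finsupp.mem_support_iff.mpr ha
      exact Finset.mem_coe.mpr (hfE this))
    f.support (h.support.image fun x => x⁻¹) (g.support.image fun x => x⁻¹)
    (fun a ha => Finsupp.mem_support_iff.mpr ha)
  have inj : ∀ (s : Finset Γ), Set.InjOn (fun x : Γ => x⁻¹) (s : Set Γ) :=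
    fun s a _ b _ hab => inv_injective hab
  rw [Finset.sum_image (inj _), Finset.sum_image (inj _), Finset.sum_image (inj _)] at hb
  simp only [inv_inv] at hb
  have key : tri f g h = ∑ x ∈ h.support, ∑ y ∈ g.support.image (fun x => x⁻¹),
      f (x * y) * h x * g y⁻¹ := by
    have e1 : ∀ x ∈ h.support, ∑ y ∈ g.support.image (fun x => x⁻¹), f (x * y) * h x * g y⁻¹
        = ∑ b ∈ g.support, f (x * b⁻¹) * h x * g b := by
      intro x _
      rw [Finset.sum_image (inj _)]
      simp only [inv_inv]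
    rw [Finset.sum_congr rfl e1, Finset.sum_comm]
    unfold tri
    rw [Finsupp.sum]
    simp only [Finsupp.sum]
    rw [Finset.sum_comm]
    refine Finset.sum_congr rfl fun b _ => ?_
    refine Finset.sum_bij_ne_zero (fun a _ _ => a * b) ?_ ?_ ?_ ?_
    · intro a _ ha
      rw [Finsupp.mem_support_iff]
      intro h0
      exact ha (by rw [h0, mul_zero])
    · intro a _ _ a' _ _ haa
      exact mul_right_cancel haa
    · intro c _ hc
      refine ⟨c * b⁻¹, ?_, ?_, ?_⟩
      · rw [Finsupp.mem_support_iff]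
        intro h0
        exact hc (by rw [h0, zero_mul, zero_mul])
      · rw [inv_mul_cancel_right]
        intro h0
        exact hc (by linarith [h0, mul_right_comm (f (c * b⁻¹)) (g b) (h c)])
      · rw [inv_mul_cancel_right]
    · intro a _ _
      rw [mul_inv_cancel_right]
      ring
  rw [key]
  refine hb.trans (le_of_eq ?_)
  unfold n2
  simp only [Finsupp.sum]
  ring

end SubExp
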