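import Pool.Agent.Lib.MP_fee02f_an.SX.E13
import Pool.Agent.Lib.MP_fee02f_an.SX.E14
import Pool.Agent.Lib.MP_fee02f_an.SX.E15
import Pool.Agent.Lib.MP_fee02f_an.SX.E17

/-!
The abstract theorem.

`Loc.sym`: replace `E n` by `E n ∪ (E n)⁻¹`; the condition on pairs is symmetric.

`subexp`: let `C` be at least the constants of `G` and of `Loc` and at least `1`, `K`, `n0` from
`real_end`. For `n ≥ n0` suppose that `Dle (E n) (K n s)` fails. The values of `D` for laws on `E n` are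
bounded by `log |E n|` (`D_le`, `pair_card`); let `δ > K n s` be their supremum; take a law with
`D ≥ δ - 1`, and `localise` it (`R = C n²`, `M = C n ^ C`): `D ≥ δ - (1 + 2 log M)`,
`Pot ≤ 2 C n² ≤ (2 C n)²`; `iterate` with `B = 2 C n` gives a contradiction. For `n < n0` use
`D ≤ log |E n| ≤ C (n + 1)` and `real_small`.
-/

open scoped BigOperators

namespace SubExp

universe u v

theorem Loc.sym {Γ : Type u} {Y : Type v} [Group Γ] [MulAction Γ Y] {G : Geo Γ Y}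
    {E : ℕ → Finset Γ} (h : Loc G E) :
    ∃ E' : ℕ → Finset Γ, (∀ n, E n ⊆ E' n) ∧ (∀ n, ∀ g ∈ E' n, g⁻¹ ∈ E' n) ∧ Loc G E' := by
  classical
  obtain ⟨C, hC, hcard, hU⟩ := h
  refine ⟨fun n => E n ∪ (E n).image (fun g => g⁻¹), fun n => Finset.subset_union_left, ?_, ?_⟩
  · intro n g hg
    rw [Finset.mem_union, Finset.mem_image] at hg ⊢
    rcases hg with hg | ⟨a, ha, rfl⟩
    · exact Or.inr ⟨g, hg, rfl⟩
    · exact Or.inl (by rwa [inv_inv])
  · refine ⟨C + 1, by linarith, ?_, ?_⟩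
    · intro n
      have h1 : ((E n ∪ (E n).image (fun g => g⁻¹)).card : ℝ) ≤ 2 * (E n).card := by
        have h2 := Finset.card_union_le (E n) ((E n).image (fun g => g⁻¹))
        have h3 : ((E n).image (fun g => g⁻¹)).card ≤ (E n).card := Finset.card_image_le
        exact_mod_cast (by omega : (E n ∪ (E n).image (fun g => g⁻¹)).card ≤ 2 * (E n).card)
      have h4 : (2 : ℝ) ≤ Real.exp (n + 1) := by
        have h5 := Real.add_one_le_exp ((n : ℝ) + 1)
        have h6 : (0 : ℝ) ≤ n := Nat.cast_nonneg n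
        linarith
      have h7 : Real.exp ((C + 1) * (n + 1)) = Real.exp (n + 1) * Real.exp (C * (n + 1)) := by
        rw [← Real.exp_add]
        congr 1
        ring
      rw [h7]
      calc _ ≤ _ := h1
        _ ≤ Real.exp (n + 1) * Real.exp (C * (n + 1)) :=
          mul_le_mul h4 (hcard n) (Nat.cast_nonneg _) (Real.exp_pos _).le
    · intro n hn
      obtain ⟨U, h1, h2, h3⟩ := hU n hn
      have hn1 : (1 : ℝ) ≤ n := by exact_mod_cast hn
      refine ⟨U, fun q x hx => (h1 q x hx).trans ?_, ?_, fun x => ⟨(h3 x).1, (h3 x).2.trans ?_⟩⟩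
      · nlinarith [sq_nonneg (n : ℝ)]
      · intro x y hxy
        rw [Finset.mem_union, Finset.mem_image] at hxy
        rcases hxy with hxy | ⟨a, ha, hxy⟩
        · exact h2 x y hxy
        · have h4 : y⁻¹ * x ∈ E n := by
            have h5 : y⁻¹ * x = a := by
              rw [← inv_inj, hxy]
              group
            rw [h5]
            exact ha
          obtain ⟨q, h5, h6⟩ := h2 y x h4
          exact ⟨q, h6, h5⟩
      · have h4 : (n : ℝ) ^ C ≤ (n : ℝ) ^ (C + 1) :=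
          Real.rpow_le_rpow_of_exponent_le hn1 (by linarith)
        have h5 : (0 : ℝ) ≤ (n : ℝ) ^ C := by positivity
        exact mul_le_mul (by linarith) h4 h5 (by linarith)

theorem subexp {Γ : Type u} {Y : Type v} [Group Γ] [MulAction Γ Y] (G : Geo Γ Y)
    (E : ℕ → Finset Γ) (hE : ∀ n, ∀ g ∈ E n, g⁻¹ ∈ E n) (h : Loc G E) :
    ∃ K : ℝ, 0 ≤ K ∧ ∀ n : ℕ, 3 ≤ n →
      Dle Γ (E n : Set Γ) (K * n * √(Real.log (Real.log n) / Real.log n)) := by
  obtain ⟨C₀, hC₀, hcard, hU⟩ := h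
  obtain ⟨C, hCdef⟩ : ∃ C, C = max C₀ G.C := ⟨_, rfl⟩
  have hC0C : C₀ ≤ C := by rw [hCdef]; exact le_max_left _ _
  have hGC : G.C ≤ C := by rw [hCdef]; exact le_max_right _ _
  have hC1 : 1 ≤ C := hC₀.trans hC0C
  obtain ⟨K₁, hK₁, n0, hn0, hreal⟩ := real_end C hC1
  obtain ⟨K₂, hK₂, hsmall⟩ := real_small C n0
  refine ⟨max K₁ K₂, hK₁.le.trans (le_max_left _ _), fun n hn => ?_⟩
  have hs : 0 ≤ √(Real.log (Real.log n) / Real.log n) := Real.sqrt_nonneg _
  have hn1 : (1 : ℝ) ≤ n := by exact_mod_cast (by omega : 1 ≤ n)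
  have hlog : Real.log ((E n).card : ℝ) ≤ C * (n + 1) := by
    have h0 : 0 ≤ C * ((n : ℝ) + 1) := by positivity
    rcases Nat.eq_zero_or_pos (E n).card with h1 | h1
    · rw [h1]
      simpa using h0
    · have h2 : (0 : ℝ) < (E n).card := by exact_mod_cast h1
      have h3 := Real.log_le_log h2 (hcard n)
      rw [Real.log_exp] at h3
      refine h3.trans ?_
      exact mul_le_mul_of_nonneg_right hC0C (by positivity)
  have hDlog : ∀ (Ω : Type u) (_ : Fintype Ω) (p : Ω → ℝ) (x y w : Ω → Γ), IsP p →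
      (∀ o, (x o)⁻¹ * y o ∈ (E n : Set Γ)) → D Γ p x y w ≤ C * (n + 1) := by
    intro Ω _ p x y w hp hxy
    exact (D_le Γ hp x y w).trans ((pair_card hp x y (E n) hxy).trans hlog)
  have hmax : ∀ K', K' ≤ max K₁ K₂ → K' * n * √(Real.log (Real.log n) / Real.log n) ≤
      max K₁ K₂ * n * √(Real.log (Real.log n) / Real.log n) := by
    intro K' hK'
    exact mul_le_mul_of_nonneg_right (mul_le_mul_of_nonneg_right hK' (by linarith)) hs
  intro Ω₀ inst₀ p₀ x₀ y₀ w₀ hp₀ hxy₀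
  rcases lt_or_ge n n0 with hlt | hge
  · exact (hDlog Ω₀ inst₀ p₀ x₀ y₀ w₀ hp₀ hxy₀).trans
      ((hsmall n hn hlt).trans (hmax K₂ (le_max_right _ _)))
  · refine le_trans ?_ (hmax K₁ (le_max_left _ _))
    by_contra hcon
    push Not at hcon
    obtain ⟨V, hV⟩ : ∃ V : Set ℝ, V = {r | ∃ (Ω : Type u) (_ : Fintype Ω) (p : Ω → ℝ)
      (x y w : Ω → Γ), IsP p ∧ (∀ o, (x o)⁻¹ * y o ∈ (E n : Set Γ)) ∧ r = D Γ p x y w} :=
      ⟨_, rfl⟩
    have hbdd : BddAbove V := by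
      refine ⟨C * (n + 1), ?_⟩
      rw [hV]
      rintro _ ⟨Ω, inst, p, x, y, w, hp, hxy, rfl⟩
      exact hDlog Ω inst p x y w hp hxy
    have hmem₀ : D Γ p₀ x₀ y₀ w₀ ∈ V := by
      rw [hV]
      exact ⟨Ω₀, inst₀, p₀, x₀, y₀, w₀, hp₀, hxy₀, rfl⟩
    obtain ⟨δ, hδ⟩ : ∃ δ, δ = sSup V := ⟨_, rfl⟩
    have hδge : K₁ * n * √(Real.log (Real.log n) / Real.log n) ≤ δ := by
      rw [hδ]
      exact hcon.le.trans (le_csSup hbdd hmem₀)
    have hDle : Dle Γ (E n : Set Γ) δ := by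
      intro Ω inst p x y w hp hxy
      rw [hδ]
      refine le_csSup hbdd ?_
      rw [hV]
      exact ⟨Ω, inst, p, x, y, w, hp, hxy, rfl⟩
    obtain ⟨r, hrV, hr⟩ := exists_lt_of_lt_csSup ⟨_, hmem₀⟩
      (show δ - 1 < sSup V by rw [← hδ]; linarith)
    rw [hV] at hrV
    obtain ⟨Ω, inst, p, x, y, w, hp, hxy, rfl⟩ := hrV
    obtain ⟨h4, herr, J, hJ, hJε⟩ := hreal n hge δ hδge
    obtain ⟨U, hU1, hU2, hU3⟩ := hU n (by omega)
    obtain ⟨z, hz1, hz2⟩ := localise G (E n : Set Γ) U (C₀ * n ^ 2) (C₀ * (n : ℝ) ^ C₀)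
      hU1 hU2 hU3 hp x y w hxy
    have hpowC : (1 : ℝ) ≤ (n : ℝ) ^ C₀ := Real.one_le_rpow hn1 (by linarith)
    have hM : Real.log (C₀ * (n : ℝ) ^ C₀) ≤ Real.log (C * (n : ℝ) ^ C) := by
      refine Real.log_le_log (by positivity) ?_
      exact mul_le_mul hC0C (Real.rpow_le_rpow_of_exponent_le hn1 hC0C) (by positivity)
        (by linarith)
    have hM0 : 0 ≤ Real.log (C * (n : ℝ) ^ C) := by
      refine Real.log_nonneg ?_
      have h5 : (1 : ℝ) ≤ (n : ℝ) ^ C := Real.one_le_rpow hn1 (by linarith)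
      nlinarith
    have hB1 : 1 ≤ 2 * C * (n : ℝ) := by nlinarith
    refine iterate G (E n : Set Γ) (hE n) δ hDle hp x y z hxy (2 * C * n) hB1 ?_ C hGC
      (1 + 2 * Real.log (C * (n : ℝ) ^ C)) (by linarith) ?_ h4 herr J hJ hJε
    · refine hz2.trans ?_
      have h6 : C₀ * (n : ℝ) ^ 2 ≤ C * (n : ℝ) ^ 2 :=
        mul_le_mul_of_nonneg_right hC0C (by positivity)
      have h7 : C * (n : ℝ) ^ 2 ≤ C ^ 2 * (n : ℝ) ^ 2 := by
        refine mul_le_mul_of_nonneg_right ?_ (by positivity)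
        nlinarith
      have h8 : (2 * C * (n : ℝ)) ^ 2 = 4 * (C ^ 2 * (n : ℝ) ^ 2) := by ring
      have h9 : 0 ≤ C ^ 2 * (n : ℝ) ^ 2 := by positivity
      rw [h8]
      linarith
    · linarith

theorem core : Core.{u, v} := by
  intro Γ Y _ _ G E hL
  obtain ⟨E', hEE, hE', hL'⟩ := hL.sym
  obtain ⟨K, hK0, hK⟩ := subexp G E' hE' hL'
  refine ⟨K / 2, by positivity, fun n hn f g h hf hg hh hfE => ?_⟩
  have h1 := OpBd_of_Dle (E' n) _ (hK n hn) f g h hf hg hh (hfE.trans (hEE n))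
  have h2 : K * n * √(Real.log (Real.log n) / Real.log n) / 2
      = K / 2 * n * √(Real.log (Real.log n) / Real.log n) := by ring
  rw [h2] at h1
  exact h1

end SubExp
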