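import Mathlib
import Pool.Agent.Lib.MP_fee02f_an.SX.Defs

/-!
Entropy modulo a group (MP_fee02f_an, Theorem A, abstract part): definitions.

A law is a finite set `Ω` with strictly positive weights `p` of sum one; random variables are maps
from `Ω` to sets with an action of `Γ`, and `H Γ p X` is the Shannon entropy of the class of `X`
modulo `Γ`.
-/

open scoped BigOperators

namespace SubExp

universe u

section Plain

variable {Ω : Type*} [Fintype Ω] {β : Type*}

/-- strictly positive probability weights -/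
structure IsP (p : Ω → ℝ) : Prop where
  pos : ∀ o, 0 < p o
  sum_one : ∑ o, p o = 1

open Classical in
/-- probability of `X = b` -/
noncomputable def pr (p : Ω → ℝ) (X : Ω → β) (b : β) : ℝ := ∑ o, if X o = b then p o else 0

/-- Shannon entropy -/
noncomputable def ent (p : Ω → ℝ) (X : Ω → β) : ℝ := ∑ o, p o * -Real.log (pr p X (X o))

end Plain

section Cls

variable (Γ : Type*) [Group Γ] {Ω Ω' : Type*} [Fintype Ω] [Fintype Ω']
variable {α β ζ : Type*} [MulAction Γ α] [MulAction Γ β] [MulAction Γ ζ]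

/-- the class modulo `Γ` -/
def oc (a : α) : Quotient (MulAction.orbitRel Γ α) := Quotient.mk (MulAction.orbitRel Γ α) a

/-- entropy of the class modulo `Γ` -/
noncomputable def H (p : Ω → ℝ) (X : Ω → α) : ℝ := ent p (fun o => oc Γ (X o))

/-- the classes modulo `Γ` have the same law -/
def SameLaw (p : Ω → ℝ) (X : Ω → α) (p' : Ω' → ℝ) (X' : Ω' → α) : Prop :=
  ∀ c, pr p (fun o => oc Γ (X o)) c = pr p' (fun o => oc Γ (X' o)) c

/-- `Y` is determined by `X`, in an equivariant way -/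
def Det (X : Ω → α) (Y : Ω → β) : Prop := ∀ (o o' : Ω) (g : Γ), g • X o = X o' → g • Y o = Y o'

/-- `X` and `Y` are independent given `Z` -/
def CI (p : Ω → ℝ) (X : Ω → α) (Y : Ω → β) (Z : Ω → ζ) : Prop :=
  H Γ p (fun o => (X o, Y o, Z o)) + H Γ p Z
    = H Γ p (fun o => (X o, Z o)) + H Γ p (fun o => (Y o, Z o))

/-- free action -/
def Fr (α : Type*) [MulAction Γ α] : Prop := ∀ (g : Γ) (a : α), g • a = a → g = 1

/-- the functional `2 H(xyw) - H(xw) - H(yw) - H(xy)` -/
noncomputable def D (p : Ω → ℝ) (x y : Ω → Γ) (w : Ω → α) : ℝ :=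
  2 * H Γ p (fun o => (x o, y o, w o)) - H Γ p (fun o => (x o, w o))
    - H Γ p (fun o => (y o, w o)) - H Γ p (fun o => (x o, y o))

end Cls

/-- `D ≤ δ` for all laws with `x⁻¹ y ∈ E` and third object in `Γ` -/
def Dle (Γ : Type u) [Group Γ] (E : Set Γ) (δ : ℝ) : Prop :=
  ∀ (Ω : Type u) (_ : Fintype Ω) (p : Ω → ℝ) (x y w : Ω → Γ), IsP p →
    (∀ o, (x o)⁻¹ * y o ∈ E) → D Γ p x y w ≤ δ

/-- expectation of the potential -/
noncomputable def Pot {Γ Y : Type*} [Group Γ] [MulAction Γ Y] (G : Geo Γ Y)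
    {Ω : Type*} [Fintype Ω] (p : Ω → ℝ) (x y : Ω → Γ) (z : Ω → Y) : ℝ :=
  ∑ o, p o * (G.Φ (z o) (x o) + G.Φ (z o) (y o))

/-- the first `m + 1` members of a sequence of random variables -/
def tup {Γ : Type*} {Ω : Type*} (v : ℕ → Ω → Γ) (m : ℕ) : Ω → (Fin (m + 1) → Γ) :=
  fun o i => v i o

/-- Star chain around `z` of length `N`, built from the law of `(x, y, z0)`. -/
structure Chain (Γ : Type*) [Group Γ] {Y : Type*} [MulAction Γ Y]
    {Ω Ω' : Type*} [Fintype Ω] [Fintype Ω'] (q : Ω' → ℝ) (v : ℕ → Ω' → Γ) (z : Ω' → Y)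
    (p : Ω → ℝ) (x y : Ω → Γ) (z0 : Ω → Y) (N : ℕ) : Prop where
  link : ∀ i < N,
    SameLaw Γ q (fun o => (v i o, v (i + 1) o, z o)) p (fun o => (x o, y o, z0 o)) ∨
    SameLaw Γ q (fun o => (v i o, v (i + 1) o, z o)) p (fun o => (y o, x o, z0 o))
  markov : ∀ i < N, CI Γ q (tup v i) (v (i + 1)) (fun o => (v i o, z o))

end SubExp
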